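import Pool.Agent.H320R2.LD.Defs

set_option autoImplicit false

namespace Pool.Agent.H320R2.LD

/-- number of chains -/
theorem prove_CH : St_CH := by
  classical
  intro V W _ _ I D h1 h2 n
  induction n with
  | zero =>
    intro v
    simp [chains]
  | succ n ih =>
    intro v
    simp only [chains]
    refine (Finset.card_biUnion_le_card_mul _ _ (D * (D ^ 2) ^ n) ?_).trans ?_
    · intro R _
      refine (Finset.card_biUnion_le_card_mul _ _ ((D ^ 2) ^ n) ?_).trans ?_
      · intro w _
        exact Finset.card_image_le.trans (ih w)
      · exact Nat.mul_le_mul_right _ (by convert h1 R)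
    · have h3 : (Finset.univ.filter (fun R => I R v)).card ≤ D := h2 v
      calc _ ≤ D * (D * (D ^ 2) ^ n) := Nat.mul_le_mul_right _ (by convert h3)
        _ = (D ^ 2) ^ (n + 1) := by ring

end Pool.Agent.H320R2.LD
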