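import Pool.Agent.H320R2.LD.Defs

set_option autoImplicit false

open MeasureTheory ProbabilityTheory

namespace Pool.Agent.H320R2.LD

/-- Chernoff bound -/
theorem prove_CONC (h1 : St_MGF) : St_CONC := by
  intro V _ f L hL hf u hu
  obtain ⟨_, hint, hexp⟩ := h1 V f L hL hf
  set m := ∫ y, f y ∂(gam V) with hm
  set lam : ℝ := u / (2 * L ^ 2) with hlam
  have hlam0 : 0 ≤ lam := by positivity
  have hi : Integrable (fun x => Real.exp (lam * (f x - m))) (gam V) := by
    have h2 := (hint lam).mul_const (Real.exp (-(lam * m)))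
    refine h2.congr (Filter.Eventually.of_forall fun x => ?_)
    show Real.exp (lam * f x) * Real.exp (-(lam * m)) = Real.exp (lam * (f x - m))
    rw [← Real.exp_add]
    congr 1
    ring
  have h3 := mul_meas_ge_le_integral_of_nonneg (μ := gam V)
    (f := fun x => Real.exp (lam * (f x - m)))
    (Filter.Eventually.of_forall fun x => (Real.exp_pos _).le) hi (Real.exp (lam * u))
  have h4 : (gam V).real {x | m + u ≤ f x} ≤
      (gam V).real {x | Real.exp (lam * u) ≤ Real.exp (lam * (f x - m))} := by
    refine measureReal_mono ?_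
    intro x hx
    have hx' : m + u ≤ f x := hx
    show Real.exp (lam * u) ≤ Real.exp (lam * (f x - m))
    rw [Real.exp_le_exp]
    exact mul_le_mul_of_nonneg_left (by linarith) hlam0
  have h5 := hexp lam
  have h6 : Real.exp (lam * u) * (gam V).real {x | m + u ≤ f x} ≤ Real.exp (lam ^ 2 * L ^ 2) :=
    (mul_le_mul_of_nonneg_left h4 (Real.exp_pos _).le).trans (h3.trans h5)
  have h7 : Real.exp (-u ^ 2 / (4 * L ^ 2)) =
      Real.exp (-(lam * u)) * Real.exp (lam ^ 2 * L ^ 2) := by
    rw [← Real.exp_add]
    congr 1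
    rw [hlam]
    field_simp
    ring
  rw [h7, Real.exp_neg, ← div_eq_inv_mul, le_div_iff₀ (Real.exp_pos _), mul_comm]
  exact h6

end Pool.Agent.H320R2.LD
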