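import Pool.Agent.H320R2.LD.Defs

set_option autoImplicit false

/-!
# Task COND: local approximation by conditional averages
-/

open MeasureTheory ProbabilityTheory Set
open scoped ENNReal

namespace Pool.Agent.H320R2.LD.COND

noncomputable section

open Pool.Agent.H320R2.LD

variable {V : Type} [Fintype V]

theorem nrm_eq (x : V → ℝ) : nrm x = ‖(WithLp.toLp 2 x : EuclideanSpace ℝ V)‖ := by
  rw [EuclideanSpace.norm_eq]
  unfold nrm nsq
  simp [Real.norm_eq_abs, sq_abs]

theorem nrm_nonneg (x : V → ℝ) : 0 ≤ nrm x := Real.sqrt_nonneg _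

theorem nrm_zero : nrm (0 : V → ℝ) = 0 := by
  unfold nrm nsq; simp

theorem nrm_tri (x y z : V → ℝ) : nrm (x - z) ≤ nrm (x - y) + nrm (y - z) := by
  have h : x - z = (x - y) + (y - z) := by ring
  rw [h, nrm_eq, nrm_eq, nrm_eq, WithLp.toLp_add]
  exact norm_add_le _ _

theorem nrm_comm (x y : V → ℝ) : nrm (x - y) = nrm (y - x) := by
  unfold nrm nsq
  congr 1
  apply Finset.sum_congr rfl
  intro v _
  simp only [Pi.sub_apply]
  ring

theorem nrm_mix_le [DecidableEq V] (S : Finset V) (g a b : V → ℝ) :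
    nrm (mix S g a - mix S g b) ≤ nrm (a - b) := by
  unfold nrm nsq
  apply Real.sqrt_le_sqrt
  apply Finset.sum_le_sum
  intro v _
  simp only [Pi.sub_apply, mix]
  split_ifs
  · simp only [sub_self]
    have := sq_nonneg (a v - b v)
    simpa using this
  · exact le_rfl

theorem mix_mix [DecidableEq V] (S : Finset V) (g a b : V → ℝ) :
    mix S (mix S g a) b = mix S g b := by
  funext v
  simp only [mix]
  split_ifs <;> rfl

theorem continuous_mix [DecidableEq V] (S : Finset V) :
    Continuous fun p : (V → ℝ) × (V → ℝ) => mix S p.1 p.2 := by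
  apply continuous_pi
  intro v
  by_cases hv : v ∈ S
  · simp only [mix, hv, if_true]
    fun_prop
  · simp only [mix, hv, if_false]
    fun_prop

/-- McShane extension with values in `[-1, 1]` -/
theorem extend (u : (V → ℝ) → ℝ) (Gg : Set (V → ℝ)) (hne : Gg.Nonempty) (L : ℝ) (hL : 0 ≤ L)
    (hu1 : ∀ x, |u x| ≤ 1) (hu : ∀ x ∈ Gg, ∀ y ∈ Gg, |u x - u y| ≤ L * nrm (x - y)) :
    ∃ F : (V → ℝ) → ℝ, Lip L F ∧ (∀ x, |F x| ≤ 1) ∧ ∀ x ∈ Gg, F x = u x := by
  obtain ⟨x0, hx0⟩ := hne
  have : Nonempty Gg := ⟨⟨x0, hx0⟩⟩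
  set F0 : (V → ℝ) → ℝ := fun x => ⨅ y : Gg, (u y.1 + L * nrm (x - y.1)) with hF0
  have hbdd : ∀ x, BddBelow (range fun y : Gg => u y.1 + L * nrm (x - y.1)) := by
    intro x
    refine ⟨-1, ?_⟩
    rintro _ ⟨y, rfl⟩
    have h1 := (abs_le.1 (hu1 y.1)).1
    have h2 := mul_nonneg hL (nrm_nonneg (x - y.1))
    simp only
    linarith
  have hle : ∀ x x', F0 x ≤ F0 x' + L * nrm (x - x') := by
    intro x x'
    rw [← sub_le_iff_le_add]
    apply le_ciInf
    intro y
    rw [sub_le_iff_le_add]
    calc F0 x ≤ u y.1 + L * nrm (x - y.1) := ciInf_le (hbdd x) y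
      _ ≤ u y.1 + L * (nrm (x - x') + nrm (x' - y.1)) := by
          have := mul_le_mul_of_nonneg_left (nrm_tri x x' y.1) hL
          linarith
      _ = _ := by ring
  have hF0u : ∀ x ∈ Gg, F0 x = u x := by
    intro x hx
    apply le_antisymm
    · have := ciInf_le (hbdd x) ⟨x, hx⟩
      simp only [sub_self, nrm_zero, mul_zero, add_zero] at this
      exact this
    · apply le_ciInf
      intro y
      have := (abs_le.1 (hu x hx y y.2)).2
      linarith
  refine ⟨fun x => max (-1) (min 1 (F0 x)), ?_, ?_, ?_⟩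
  · intro x y
    have h1 := hle x y
    have h2 := hle y x
    rw [nrm_comm y x] at h2
    have h3 : |F0 x - F0 y| ≤ L * nrm (x - y) := by
      rw [abs_le]; constructor <;> linarith
    refine le_trans ?_ h3
    calc |max (-1) (min 1 (F0 x)) - max (-1) (min 1 (F0 y))|
        ≤ |min 1 (F0 x) - min 1 (F0 y)| := by
          have := abs_max_sub_max_le_abs (min 1 (F0 x)) (min 1 (F0 y)) (-1)
          rwa [max_comm (-1), max_comm (-1)]
      _ ≤ |F0 x - F0 y| := by
          have := abs_min_sub_min_le_max 1 (F0 x) 1 (F0 y)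
          simpa using this
  · intro x
    rw [abs_le]
    constructor
    · exact le_max_left _ _
    · exact max_le (by norm_num) (min_le_left _ _)
  · intro x hx
    simp only
    rw [hF0u x hx, min_eq_right (abs_le.1 (hu1 x)).2, max_eq_right (abs_le.1 (hu1 x)).1]

theorem lip_continuous {L : ℝ} {f : (V → ℝ) → ℝ} (hL : 0 ≤ L) (hf : Lip L f) :
    Continuous f := by
  have hn : ∀ x : V → ℝ, nrm x ≤ Real.sqrt (Fintype.card V) * ‖x‖ := by
    intro x
    unfold nrm nsq
    calc Real.sqrt (∑ v, x v ^ 2) ≤ Real.sqrt (∑ _v : V, ‖x‖ ^ 2) := by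
          apply Real.sqrt_le_sqrt
          apply Finset.sum_le_sum
          intro v _
          have := norm_le_pi_norm x v
          rw [Real.norm_eq_abs] at this
          rw [← sq_abs (x v)]
          exact pow_le_pow_left₀ (abs_nonneg _) this 2
      _ = Real.sqrt (Fintype.card V) * ‖x‖ := by
          rw [Finset.sum_const, Finset.card_univ, nsmul_eq_mul,
            Real.sqrt_mul (Nat.cast_nonneg _), Real.sqrt_sq (norm_nonneg _)]
  have : LipschitzWith (Real.toNNReal (L * Real.sqrt (Fintype.card V))) f := by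
    apply LipschitzWith.of_dist_le_mul
    intro x y
    rw [Real.coe_toNNReal _ (mul_nonneg hL (Real.sqrt_nonneg _)), Real.dist_eq, dist_eq_norm]
    calc |f x - f y| ≤ L * nrm (x - y) := hf x y
      _ ≤ L * (Real.sqrt (Fintype.card V) * ‖x - y‖) := mul_le_mul_of_nonneg_left (hn _) hL
      _ = _ := by ring
  exact this.continuous

/-- concentration for a function which is Lipschitz on a large set -/
theorem conc_on (hC : St_CONC) (u : (V → ℝ) → ℝ) (hu : Continuous u) (Gg : Set (V → ℝ))
    (hGm : MeasurableSet Gg) (L ε q : ℝ) (hL : 0 < L) (hε : 0 < ε) (hq : 0 < q) (hq2 : q < 1)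
    (hu1 : ∀ x, |u x| ≤ 1) (hG : (gam V).real Ggᶜ ≤ q)
    (hLip : ∀ x ∈ Gg, ∀ y ∈ Gg, |u x - u y| ≤ L * nrm (x - y)) :
    (gam V).real {x | ε + 2 * q < |(∫ y, u y ∂(gam V)) - u x|}
      ≤ q + 2 * Real.exp (-ε ^ 2 / (4 * L ^ 2)) := by
  have hne : Gg.Nonempty := by
    by_contra h
    rw [not_nonempty_iff_eq_empty] at h
    rw [h, compl_empty] at hG
    have : (gam V).real univ = 1 := by simp
    linarith
  obtain ⟨F, hF, hF1, hFu⟩ := extend u Gg hne L hL.le hu1 hLip
  have hFc := lip_continuous hL.le hF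
  have hui : Integrable u (gam V) :=
    (integrable_const (1 : ℝ)).mono' hu.aestronglyMeasurable
      (Filter.Eventually.of_forall fun x => by rw [Real.norm_eq_abs]; exact hu1 x)
  have hFi : Integrable F (gam V) :=
    (integrable_const (1 : ℝ)).mono' hFc.aestronglyMeasurable
      (Filter.Eventually.of_forall fun x => by rw [Real.norm_eq_abs]; exact hF1 x)
  have hdiff : |(∫ y, u y ∂(gam V)) - ∫ y, F y ∂(gam V)| ≤ 2 * q := by
    rw [← integral_sub hui hFi]
    calc |∫ x, (u x - F x) ∂(gam V)| ≤ ∫ x, |u x - F x| ∂(gam V) := abs_integral_le_integral_abs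
      _ ≤ ∫ x, Ggᶜ.indicator (fun _ => (2 : ℝ)) x ∂(gam V) := by
          apply integral_mono (hui.sub hFi).abs ((integrable_const 2).indicator hGm.compl)
          intro x
          by_cases hx : x ∈ Gg
          · have : x ∉ Ggᶜ := fun h => h hx
            rw [indicator_of_notMem this]
            show |u x - F x| ≤ 0
            rw [hFu x hx]; simp
          · rw [indicator_of_mem (by exact hx : x ∈ Ggᶜ)]
            have h1 := abs_le.1 (hu1 x)
            have h2 := abs_le.1 (hF1 x)
            show |u x - F x| ≤ 2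
            rw [abs_le]; constructor <;> linarith [h1.1, h1.2, h2.1, h2.2]
      _ = (gam V).real Ggᶜ * 2 := by
          rw [integral_indicator_const _ hGm.compl]; rfl
      _ ≤ 2 * q := by linarith
  have c1 := hC V F L hL hF ε hε.le
  have c2 := hC V (fun x => -F x) L hL (by
    intro x y
    have := hF x y
    rw [show -F x - -F y = -(F x - F y) by ring, abs_neg]
    exact this) ε hε.le
  have hsub : {x | ε + 2 * q < |(∫ y, u y ∂(gam V)) - u x|} ⊆
      Ggᶜ ∪ ({x | (∫ y, F y ∂(gam V)) + ε ≤ F x} ∪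
        {x | (∫ y, -F y ∂(gam V)) + ε ≤ -F x}) := by
    intro x hx
    by_cases hxG : x ∈ Gg
    · right
      simp only [mem_ofPred_eq] at hx
      rw [← hFu x hxG] at hx
      have h1 : ε < |(∫ y, F y ∂(gam V)) - F x| := by
        have h2 := abs_sub_abs_le_abs_sub ((∫ y, u y ∂(gam V)) - F x) ((∫ y, F y ∂(gam V)) - F x)
        have h3 : (∫ y, u y ∂(gam V)) - F x - ((∫ y, F y ∂(gam V)) - F x)
            = (∫ y, u y ∂(gam V)) - ∫ y, F y ∂(gam V) := by ring
        rw [h3] at h2
        linarith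
      rcases lt_abs.1 h1 with h | h
      · right
        simp only [mem_ofPred_eq, integral_neg]
        linarith
      · left
        simp only [mem_ofPred_eq]
        linarith
    · left; exact hxG
  calc (gam V).real {x | ε + 2 * q < |(∫ y, u y ∂(gam V)) - u x|}
      ≤ (gam V).real (Ggᶜ ∪ ({x | (∫ y, F y ∂(gam V)) + ε ≤ F x} ∪
        {x | (∫ y, -F y ∂(gam V)) + ε ≤ -F x})) := measureReal_mono hsub
    _ ≤ (gam V).real Ggᶜ + ((gam V).real {x | (∫ y, F y ∂(gam V)) + ε ≤ F x} +
        (gam V).real {x | (∫ y, -F y ∂(gam V)) + ε ≤ -F x}) :=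
        (measureReal_union_le _ _).trans (add_le_add le_rfl (measureReal_union_le _ _))
    _ ≤ q + (Real.exp (-ε ^ 2 / (4 * L ^ 2)) + Real.exp (-ε ^ 2 / (4 * L ^ 2))) := by
        exact add_le_add hG (add_le_add c1 c2)
    _ = _ := by ring

end

end Pool.Agent.H320R2.LD.COND

namespace Pool.Agent.H320R2.LD

open COND

theorem prove_COND (hC : St_CONC) (hM : St_MIX) : St_COND := by
  intro V _ _ f G S L ε q hf hf1 hG hL hε hq hq1 hGq hLip
  by_cases hq2 : 1 ≤ 2 * q
  · calc (gam V).real {x | ε + 2 * q < |(∫ y, f (mix S x y) ∂(gam V)) - f x|} ≤ 1 :=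
        measureReal_le_one
      _ ≤ 2 * q := hq2
      _ ≤ _ := by have := Real.exp_pos (-ε ^ 2 / (4 * L ^ 2)); linarith
  have hq3 : q < 1 := by push Not at hq2; linarith
  set μ := gam V with hμ
  set T : (V → ℝ) × (V → ℝ) → (V → ℝ) := fun p => mix S p.1 p.2 with hT
  have hTc : Continuous T := continuous_mix S
  have hmp : MeasurePreserving T (μ.prod μ) μ := by
    have := hM V (fun _ => gaussianReal 0 1) S
    exact this
  set X : (V → ℝ) → ℝ := fun g => ∫ y, f (mix S g y) ∂μ with hX
  have hXm : Measurable X := by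
    have : StronglyMeasurable (fun p : (V → ℝ) × (V → ℝ) => f (T p)) :=
      (hf.comp hTc).stronglyMeasurable
    exact (this.integral_prod_right' (ν := μ)).measurable
  set B : Set (V → ℝ) := {x | ε + 2 * q < |X x - f x|} with hB
  have hBm : MeasurableSet B :=
    measurableSet_lt measurable_const ((hXm.sub hf.measurable).abs)
  set e : ℝ := q + 2 * Real.exp (-ε ^ 2 / (4 * L ^ 2)) with he
  have he0 : 0 ≤ e := by positivity
  set ψ : (V → ℝ) → ℝ≥0∞ := fun g => μ (Prod.mk g ⁻¹' (T ⁻¹' Gᶜ)) with hψ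
  have hψm : Measurable ψ := measurable_measure_prodMk_left (hTc.measurable hG.compl)
  have hψi : ∫⁻ g, ψ g ∂μ = μ Gᶜ := by
    rw [hψ, ← Measure.prod_apply (hTc.measurable hG.compl), hmp.measure_preimage
      hG.compl.nullMeasurableSet]
  set A : Set (V → ℝ) := {g | ENNReal.ofReal q ≤ ψ g} with hA
  have hAm : MeasurableSet A := measurableSet_le measurable_const hψm
  have hμA : μ A ≤ ENNReal.ofReal q := by
    have h1 : ENNReal.ofReal q * μ A ≤ ∫⁻ g, ψ g ∂μ :=
      mul_meas_ge_le_lintegral hψm _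
    rw [hψi] at h1
    have h2 : μ Gᶜ ≤ ENNReal.ofReal (q ^ 2) := by
      rw [← ofReal_measureReal]
      exact ENNReal.ofReal_le_ofReal hGq
    have h3 : ENNReal.ofReal q * μ A ≤ ENNReal.ofReal q * ENNReal.ofReal q := by
      rw [← ENNReal.ofReal_mul hq.le, ← sq]
      exact h1.trans h2
    have h4 : ENNReal.ofReal q ≠ 0 := by
      rw [ne_eq, ENNReal.ofReal_eq_zero]; exact not_le.2 hq
    exact (ENNReal.mul_le_mul_iff_right h4 ENNReal.ofReal_ne_top).1 h3
  have hsec : ∀ g, μ (Prod.mk g ⁻¹' (T ⁻¹' B)) ≤ A.indicator 1 g + ENNReal.ofReal e := by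
    intro g
    by_cases hg : g ∈ A
    · rw [indicator_of_mem hg]
      calc μ (Prod.mk g ⁻¹' (T ⁻¹' B)) ≤ 1 := prob_le_one
        _ ≤ 1 + ENNReal.ofReal e := le_self_add
    · rw [indicator_of_notMem hg, zero_add]
      simp only [hA, mem_ofPred_eq, not_le] at hg
      set Gg : Set (V → ℝ) := {y | mix S g y ∈ G} with hGg
      have hcg : Continuous fun y => mix S g y := hTc.comp (Continuous.prodMk_right g)
      have hGgm : MeasurableSet Gg := hcg.measurable hG
      have hGgc : μ.real Ggᶜ ≤ q := by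
        rw [measureReal_def]
        have : μ Ggᶜ < ENNReal.ofReal q := hg
        exact ENNReal.toReal_le_of_le_ofReal hq.le this.le
      have key := conc_on hC (fun y => f (mix S g y)) (hf.comp hcg) Gg hGgm L ε q hL hε hq hq3
        (fun y => hf1 _) hGgc (by
          intro x hx y hy
          calc |f (mix S g x) - f (mix S g y)| ≤ L * nrm (mix S g x - mix S g y) := by
                apply hLip _ hx _ hy
                intro v hv
                simp only [mix, hv, if_true]
            _ ≤ L * nrm (x - y) := mul_le_mul_of_nonneg_left (nrm_mix_le S g x y) hL.le)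
      have hset : Prod.mk g ⁻¹' (T ⁻¹' B) =
          {x | ε + 2 * q < |(∫ y, f (mix S g y) ∂μ) - f (mix S g x)|} := by
        ext x
        simp only [mem_preimage, hB, mem_ofPred_eq, hT, hX, mix_mix]
      rw [hset, ← ofReal_measureReal]
      exact ENNReal.ofReal_le_ofReal key
  have htot : μ B ≤ ENNReal.ofReal (2 * q + 2 * Real.exp (-ε ^ 2 / (4 * L ^ 2))) := by
    rw [← hmp.measure_preimage hBm.nullMeasurableSet, Measure.prod_apply (hTc.measurable hBm)]
    calc ∫⁻ g, μ (Prod.mk g ⁻¹' (T ⁻¹' B)) ∂μ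
        ≤ ∫⁻ g, (A.indicator 1 g + ENNReal.ofReal e) ∂μ := lintegral_mono hsec
      _ = μ A + ENNReal.ofReal e := by
          rw [lintegral_add_right _ measurable_const, lintegral_indicator_one hAm,
            lintegral_const, measure_univ, mul_one]
      _ ≤ ENNReal.ofReal q + ENNReal.ofReal e := by gcongr
      _ = ENNReal.ofReal (2 * q + 2 * Real.exp (-ε ^ 2 / (4 * L ^ 2))) := by
          rw [← ENNReal.ofReal_add hq.le he0, he]
          congr 1
          ring
  rw [measureReal_def]
  exact ENNReal.toReal_le_of_le_ofReal (by positivity) htot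

end Pool.Agent.H320R2.LD
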