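import Mathlib
import Pool.Agent.H320R2.LD.Defs

set_option autoImplicit false

/-!
# The weighted (Combes-Thomas) estimate for the variational inequality
-/

open MeasureTheory ProbabilityTheory

namespace Pool.Agent.H320R2.LD.CT

open Pool.Agent.H320R2.LD

variable {V : Type} [Fintype V]

lemma nsq_nonneg (x : V → ℝ) : 0 ≤ nsq x := Finset.sum_nonneg fun v _ => sq_nonneg _

lemma nrm_nonneg (x : V → ℝ) : 0 ≤ nrm x := Real.sqrt_nonneg _

lemma nrm_sq (x : V → ℝ) : nrm x ^ 2 = nsq x := Real.sq_sqrt (nsq_nonneg x)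

lemma inner_le (x y : V → ℝ) : ∑ v, x v * y v ≤ nrm x * nrm y := by
  have h := Finset.sum_mul_sq_le_sq_mul_sq Finset.univ x y
  have h1 : (∑ v, x v * y v) ^ 2 ≤ (nrm x * nrm y) ^ 2 := by
    rw [mul_pow, nrm_sq, nrm_sq]
    exact h
  exact le_trans (le_abs_self _) (abs_le_of_sq_le_sq h1 (mul_nonneg (nrm_nonneg x) (nrm_nonneg y)))

lemma abs_le_nrm (x : V → ℝ) (v : V) : |x v| ≤ nrm x := by
  have h1 : x v ^ 2 ≤ nrm x ^ 2 := by
    rw [nrm_sq]
    exact Finset.single_le_sum (f := fun u => x u ^ 2) (fun u _ => sq_nonneg _)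
      (Finset.mem_univ v)
  exact abs_le_of_sq_le_sq h1 (nrm_nonneg x)

lemma exp_sub_one_le {a : ℝ} (h0 : 0 < a) (h1 : a ≤ 1) : Real.exp a - 1 ≤ 2 * a := by
  have h := Real.abs_exp_sub_one_le (x := a) (by rw [abs_of_pos h0]; exact h1)
  rw [abs_of_pos h0] at h
  exact le_trans (le_abs_self _) h

/-- weights of a row -/
lemma weight_row {a : ℝ} (h0 : 0 < a) (h1 : a ≤ 1) {m n : ℕ} (hmn : m ≤ n) (hnm : n ≤ m + 1) :
    |Real.exp (-(a * m)) ^ 2 - Real.exp (-(a * n)) ^ 2|
      ≤ 4 * a * Real.exp (-(a * n)) * Real.exp (-(a * m)) := by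
  have hc : (m : ℝ) ≤ n := by exact_mod_cast hmn
  have hc2 : (n : ℝ) ≤ m + 1 := by exact_mod_cast hnm
  set r := Real.exp (-(a * n)) with hr
  set w := Real.exp (-(a * m)) with hw
  have hr0 : 0 < r := Real.exp_pos _
  have hw0 : 0 < w := Real.exp_pos _
  have hrw : r ≤ w := Real.exp_le_exp.mpr (by nlinarith)
  have hwr : w ≤ Real.exp a * r := by
    rw [hr, hw, ← Real.exp_add]
    exact Real.exp_le_exp.mpr (by nlinarith)
  have he := exp_sub_one_le h0 h1
  have h2 : w - r ≤ 2 * a * r := by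
    have : (Real.exp a - 1) * r ≤ 2 * a * r := mul_le_mul_of_nonneg_right he hr0.le
    linarith
  have h3 : w ^ 2 - r ^ 2 = (w - r) * (w + r) := by ring
  rw [abs_of_nonneg (by rw [h3]; exact mul_nonneg (by linarith) (by linarith)), h3]
  calc (w - r) * (w + r) ≤ (2 * a * r) * (w + r) := mul_le_mul_of_nonneg_right h2 (by linarith)
    _ ≤ (2 * a * r) * (2 * w) := mul_le_mul_of_nonneg_left (by linarith) (by positivity)
    _ = 4 * a * r * w := by ring

/-- a row which is not hot -/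
lemma row_cold (b D : V → ℝ) (I : V → Prop) (hI : ∀ v, b v ≠ 0 → I v) (d : V → ℕ)
    (hd : ∀ u w, I u → I w → d u ≤ d w + 1) {a Q Psi : ℝ} (h0 : 0 < a) (h1 : a ≤ 1)
    (hP0 : 0 ≤ Psi) (hPQ : Psi ≤ Q) :
    -(4 * a ^ 2 * Q * (∑ v, |b v| * |Real.exp (-(a * d v)) * D v|) ^ 2)
      ≤ Psi * (∑ v, b v * D v) * ∑ v, Real.exp (-(a * d v)) ^ 2 * (b v * D v) := by
  classical
  set Y := ∑ v, |b v| * |Real.exp (-(a * d v)) * D v| with hY
  have hQ : 0 ≤ Q := le_trans hP0 hPQ
  by_cases hex : ∃ v, I v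
  · have hne : (Finset.univ.filter fun v => I v).Nonempty := by
      obtain ⟨v, hv⟩ := hex
      exact ⟨v, by simp [hv]⟩
    obtain ⟨v1, hv1, hmax⟩ := Finset.exists_max_image _ d hne
    have hIv1 : I v1 := (Finset.mem_filter.mp hv1).2
    set r := Real.exp (-(a * d v1)) with hr
    have hr0 : 0 < r := Real.exp_pos _
    set e := ∑ v, b v * D v with he
    have hS : ∑ v, Real.exp (-(a * d v)) ^ 2 * (b v * D v)
        = r ^ 2 * e + ∑ v, (Real.exp (-(a * d v)) ^ 2 - r ^ 2) * (b v * D v) := by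
      rw [he, Finset.mul_sum, ← Finset.sum_add_distrib]
      refine Finset.sum_congr rfl fun v _ => ?_
      ring
    have hT : |∑ v, (Real.exp (-(a * d v)) ^ 2 - r ^ 2) * (b v * D v)| ≤ 4 * a * r * Y := by
      refine le_trans (Finset.abs_sum_le_sum_abs _ _) ?_
      rw [hY, Finset.mul_sum]
      refine Finset.sum_le_sum fun v _ => ?_
      by_cases hb : b v = 0
      · simp [hb]
      · have hIv := hI v hb
        have hle : d v ≤ d v1 := hmax v (by simp [hIv])
        have hle2 : d v1 ≤ d v + 1 := hd v1 v hIv1 hIv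
        have hw := weight_row h0 h1 hle hle2
        rw [abs_mul, abs_mul (Real.exp _), abs_of_pos (Real.exp_pos (-(a * (d v : ℝ)))), abs_mul]
        calc |Real.exp (-(a * d v)) ^ 2 - r ^ 2| * (|b v| * |D v|)
            ≤ (4 * a * r * Real.exp (-(a * d v))) * (|b v| * |D v|) :=
              mul_le_mul_of_nonneg_right hw (by positivity)
          _ = 4 * a * r * (|b v| * (Real.exp (-(a * d v)) * |D v|)) := by ring
    set T := ∑ v, (Real.exp (-(a * d v)) ^ 2 - r ^ 2) * (b v * D v) with hTdef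
    have hY0 : 0 ≤ Y := Finset.sum_nonneg fun v _ => by positivity
    rw [hS]
    -- e * (r^2 e + T) ≥ - 4 a^2 Y^2
    have hkey : -(4 * a ^ 2 * Y ^ 2) ≤ e * (r ^ 2 * e + T) := by
      have h3 : -(|e| * (4 * a * r * Y)) ≤ e * T := by
        have : |e * T| ≤ |e| * (4 * a * r * Y) := by
          rw [abs_mul]
          exact mul_le_mul_of_nonneg_left hT (abs_nonneg e)
        exact (abs_le.mp this).1
      have h4 : e * (r ^ 2 * e + T) = r ^ 2 * |e| ^ 2 + e * T := by
        rw [sq_abs]; ring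
      rw [h4]
      nlinarith [sq_nonneg (r * |e| - 2 * a * Y)]
    have h5 : Psi * (-(4 * a ^ 2 * Y ^ 2)) ≤ Psi * (e * (r ^ 2 * e + T)) :=
      mul_le_mul_of_nonneg_left hkey hP0
    have h6 : -(4 * a ^ 2 * Q * Y ^ 2) ≤ Psi * (-(4 * a ^ 2 * Y ^ 2)) := by
      have : Psi * (4 * a ^ 2 * Y ^ 2) ≤ Q * (4 * a ^ 2 * Y ^ 2) :=
        mul_le_mul_of_nonneg_right hPQ (by positivity)
      linarith
    calc -(4 * a ^ 2 * Q * Y ^ 2) ≤ Psi * (-(4 * a ^ 2 * Y ^ 2)) := h6
      _ ≤ Psi * (e * (r ^ 2 * e + T)) := h5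
      _ = Psi * e * (r ^ 2 * e + T) := by ring
  · have hb : ∀ v, b v = 0 := by
      intro v
      by_contra hne
      exact hex ⟨v, hI v hne⟩
    have : ∑ v, b v * D v = 0 := Finset.sum_eq_zero fun v _ => by simp [hb v]
    rw [this]
    simp only [mul_zero, zero_mul]
    have : 0 ≤ 4 * a ^ 2 * Q * Y ^ 2 := by positivity
    linarith

/-- a hot row -/
lemma row_hot (b D : V → ℝ) (I : V → Prop) (hI : ∀ v, b v ≠ 0 → I v) (d : V → ℕ)
    (hd : ∀ u w, I u → I w → d u = d w) {a P : ℝ}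
    (hP : 0 ≤ P * (∑ v, b v * D v)) :
    0 ≤ P * ∑ v, Real.exp (-(a * d v)) ^ 2 * (b v * D v) := by
  by_cases hex : ∃ v, I v
  · obtain ⟨v1, hv1⟩ := hex
    have hS : ∑ v, Real.exp (-(a * d v)) ^ 2 * (b v * D v)
        = Real.exp (-(a * d v1)) ^ 2 * ∑ v, b v * D v := by
      rw [Finset.mul_sum]
      refine Finset.sum_congr rfl fun v _ => ?_
      by_cases hb : b v = 0
      · simp [hb]
      · rw [hd v v1 (hI v hb) hv1]
    rw [hS]
    have : P * (Real.exp (-(a * d v1)) ^ 2 * ∑ v, b v * D v)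
        = Real.exp (-(a * d v1)) ^ 2 * (P * ∑ v, b v * D v) := by ring
    rw [this]
    exact mul_nonneg (by positivity) hP
  · have hb : ∀ v, b v = 0 := by
      intro v
      by_contra hne
      exact hex ⟨v, hI v hne⟩
    have : ∑ v, Real.exp (-(a * d v)) ^ 2 * (b v * D v) = 0 :=
      Finset.sum_eq_zero fun v _ => by simp [hb v]
    rw [this, mul_zero]

end Pool.Agent.H320R2.LD.CT

namespace Pool.Agent.H320R2.LD

open CT

theorem prove_CT (h1 : St_TWO) (h2 : St_POT1) : St_CT := by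
  intro V W _ _ b K w0 hK hw0 hw1 y y' z z' hz hz' I hI hot d a Q N1 ha0 ha1 hQ hN1 hop hsm
    hcold hd hdhot v0 k hv0 hk
  obtain ⟨-, -, hmono, -, -, -, hpf, -⟩ := h2 K w0 hK hw0 hw1
  obtain ⟨htwo, -, -, -⟩ := h1 V W b (pf K w0) hmono y y' z z' hz hz'
  set w : V → ℝ := fun v => Real.exp (-(a * d v)) with hw
  set D : V → ℝ := fun v => z' v - z v with hD
  set E : V → ℝ := fun v => y' v - y v with hE
  set Dp : W → ℝ := fun R => pf K w0 (eta b z' R) - pf K w0 (eta b z R) with hDp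
  have heta : ∀ R, eta b z' R - eta b z R = ∑ v, b R v * D v := by
    intro R
    unfold eta
    rw [← Finset.sum_sub_distrib]
    refine Finset.sum_congr rfl fun v _ => ?_
    simp only [hD]; ring
  -- every row
  have hrow : ∀ R, -(4 * a ^ 2 * Q * (∑ v, |b R v| * |w v * D v|) ^ 2)
      ≤ Dp R * ∑ v, w v ^ 2 * (b R v * D v) := by
    intro R
    have hsign : 0 ≤ Dp R * (∑ v, b R v * D v) := by
      rw [← heta R]
      rcases le_total (eta b z R) (eta b z' R) with hle | hle
      · exact mul_nonneg (sub_nonneg.mpr (hmono hle)) (sub_nonneg.mpr hle)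
      · exact mul_nonneg_of_nonpos_of_nonpos (sub_nonpos.mpr (hmono hle)) (sub_nonpos.mpr hle)
    by_cases hh : hot R
    · have := row_hot (b R) D (I R) (hI R) d (hdhot R · · hh) (a := a) hsign
      have h4 : 0 ≤ 4 * a ^ 2 * Q * (∑ v, |b R v| * |w v * D v|) ^ 2 := by positivity
      have h5 : 0 ≤ Dp R * ∑ v, w v ^ 2 * (b R v * D v) := this
      linarith
    · obtain ⟨hq1, hq2⟩ := hcold R hh
      obtain ⟨Psi, hP0, hPQ, hPe⟩ : ∃ Psi : ℝ, 0 ≤ Psi ∧ Psi ≤ Q ∧
          Dp R = Psi * (∑ v, b R v * D v) := by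
        rw [← heta R]
        rcases lt_trichotomy (eta b z R) (eta b z' R) with hlt | heq | hgt
        · have hpos : 0 < eta b z' R - eta b z R := sub_pos.mpr hlt
          refine ⟨Dp R / (eta b z' R - eta b z R), ?_, ?_, ?_⟩
          · exact div_nonneg (sub_nonneg.mpr (hmono hlt.le)) hpos.le
          · rw [div_le_iff₀ hpos]
            refine le_trans (hpf _ _ hlt.le) ?_
            exact mul_le_mul_of_nonneg_right (max_le hq1 hq2) hpos.le
          · field_simp
        · refine ⟨0, le_refl _, hQ, ?_⟩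
          simp only [hDp, heq]; ring
        · have hpos : 0 < eta b z R - eta b z' R := sub_pos.mpr hgt
          refine ⟨(pf K w0 (eta b z R) - pf K w0 (eta b z' R)) / (eta b z R - eta b z' R), ?_, ?_, ?_⟩
          · exact div_nonneg (sub_nonneg.mpr (hmono hgt.le)) hpos.le
          · rw [div_le_iff₀ hpos]
            refine le_trans (hpf _ _ hgt.le) ?_
            exact mul_le_mul_of_nonneg_right (max_le hq2 hq1) hpos.le
          · rw [div_mul_eq_mul_div, eq_div_iff hpos.ne']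
            simp only [hDp]; ring
      have := row_cold (b R) D (I R) (hI R) d (hd R) ha0 ha1 hP0 hPQ
      rw [hPe]
      exact this
  -- sum over the rows
  have hsumR : -(1/2 * nsq (fun v => w v * D v))
      ≤ ∑ R, Dp R * ∑ v, w v ^ 2 * (b R v * D v) := by
    have h3 : ∑ R, -(4 * a ^ 2 * Q * (∑ v, |b R v| * |w v * D v|) ^ 2)
        ≤ ∑ R, Dp R * ∑ v, w v ^ 2 * (b R v * D v) := Finset.sum_le_sum fun R _ => hrow R
    refine le_trans ?_ h3
    rw [Finset.sum_neg_distrib, ← Finset.mul_sum]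
    have h4 := hop (fun v => w v * D v)
    have h5 : 4 * a ^ 2 * Q * ∑ R, (∑ v, |b R v| * |w v * D v|) ^ 2
        ≤ 4 * a ^ 2 * Q * (N1 * nsq (fun v => w v * D v)) :=
      mul_le_mul_of_nonneg_left h4 (by positivity)
    have h6 : 4 * a ^ 2 * Q * (N1 * nsq (fun v => w v * D v))
        ≤ 1/2 * nsq (fun v => w v * D v) := by
      have h7 := CT.nsq_nonneg (fun v => w v * D v)
      have h8 : 4 * a ^ 2 * Q * N1 ≤ 1/2 := by linarith
      calc 4 * a ^ 2 * Q * (N1 * nsq (fun v => w v * D v))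
          = (4 * a ^ 2 * Q * N1) * nsq (fun v => w v * D v) := by ring
        _ ≤ 1/2 * nsq (fun v => w v * D v) := mul_le_mul_of_nonneg_right h8 h7
    linarith
  -- sum over the vertices
  have hsumV : nsq (fun v => w v * D v) + ∑ R, Dp R * ∑ v, w v ^ 2 * (b R v * D v)
      ≤ ∑ v, (w v * D v) * (w v * E v) := by
    have h3 : ∑ v, w v ^ 2 * (D v * (D v - E v + ∑ R, b R v * Dp R)) ≤ 0 := by
      refine Finset.sum_nonpos fun v _ => ?_
      have := htwo v
      exact mul_nonpos_of_nonneg_of_nonpos (sq_nonneg _) this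
    have h4 : ∑ v, w v ^ 2 * (D v * (D v - E v + ∑ R, b R v * Dp R))
        = nsq (fun v => w v * D v) - ∑ v, (w v * D v) * (w v * E v)
          + ∑ R, Dp R * ∑ v, w v ^ 2 * (b R v * D v) := by
      have h5 : ∑ R, Dp R * ∑ v, w v ^ 2 * (b R v * D v)
          = ∑ v, w v ^ 2 * (D v * ∑ R, b R v * Dp R) := by
        simp only [Finset.mul_sum]
        rw [Finset.sum_comm]
        refine Finset.sum_congr rfl fun v _ => Finset.sum_congr rfl fun R _ => ?_
        ring
      rw [h5]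
      unfold nsq
      rw [← Finset.sum_sub_distrib, ← Finset.sum_add_distrib]
      refine Finset.sum_congr rfl fun v _ => ?_
      ring
    linarith
  have hcs := CT.inner_le (fun v => w v * D v) (fun v => w v * E v)
  have hmain : nrm (fun v => w v * D v) ≤ 2 * nrm (fun v => w v * E v) := by
    have h3 : 1/2 * nrm (fun v => w v * D v) ^ 2
        ≤ nrm (fun v => w v * D v) * nrm (fun v => w v * E v) := by
      rw [CT.nrm_sq]
      linarith
    rcases (CT.nrm_nonneg (fun v => w v * D v)).eq_or_lt with h0 | h0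
    · rw [← h0]
      exact mul_nonneg (by norm_num) (CT.nrm_nonneg _)
    · have h4 : nrm (fun v => w v * D v) * (1/2 * nrm (fun v => w v * D v))
          ≤ nrm (fun v => w v * D v) * nrm (fun v => w v * E v) := by
        nlinarith
      have h5 := le_of_mul_le_mul_left h4 h0
      linarith
  have hv : |z' v0 - z v0| ≤ nrm (fun v => w v * D v) := by
    have h3 := CT.abs_le_nrm (fun v => w v * D v) v0
    have h4 : w v0 = 1 := by simp [hw, hv0]
    simp only [h4, one_mul] at h3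
    exact h3
  have hwE : nrm (fun v => w v * E v) ≤ Real.exp (-(a * k)) * nrm (y' - y) := by
    have h3 : nrm (fun v => w v * E v) ^ 2 ≤ (Real.exp (-(a * k)) * nrm (y' - y)) ^ 2 := by
      rw [CT.nrm_sq, mul_pow, CT.nrm_sq]
      unfold nsq
      rw [Finset.mul_sum]
      refine Finset.sum_le_sum fun v _ => ?_
      simp only [mul_pow, Pi.sub_apply]
      by_cases hlt : d v < k
      · have : E v = 0 := by simp only [hE, hk v hlt, sub_self]
        rw [this]
        have : (0:ℝ) ≤ Real.exp (-(a * k)) ^ 2 * (y' v - y v) ^ 2 := by positivity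
        simpa using this
      · have hkd : (k : ℝ) ≤ d v := by exact_mod_cast not_lt.mp hlt
        refine mul_le_mul_of_nonneg_right ?_ (sq_nonneg _)
        refine pow_le_pow_left₀ (Real.exp_pos _).le ?_ 2
        exact Real.exp_le_exp.mpr (by nlinarith)
    exact (sq_le_sq₀ (CT.nrm_nonneg _)
      (mul_nonneg (Real.exp_pos _).le (CT.nrm_nonneg _))).mp h3
  calc |z' v0 - z v0| ≤ nrm (fun v => w v * D v) := hv
    _ ≤ 2 * nrm (fun v => w v * E v) := hmain
    _ ≤ 2 * (Real.exp (-(a * k)) * nrm (y' - y)) := by linarith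
    _ = 2 * Real.exp (-(a * k)) * nrm (y' - y) := by ring

end Pool.Agent.H320R2.LD
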