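import Pool.Agent.H320R2.LD.Defs

set_option autoImplicit false

namespace Pool.Agent.H320R2.LD

section
variable {V W : Type} [Fintype V] [Fintype W]

omit [Fintype V] [Fintype W] in
theorem DEP.append {I : W → V → Prop} {l l' : List W} {v u w : V} (h : chainTo I v l u)
    (h' : chainTo I u l' w) : chainTo I v (l ++ l') w := by
  induction l generalizing v with
  | nil =>
    have : v = u := h
    subst this
    exact h'
  | cons R l ih =>
    obtain ⟨h1, x, h2, h3⟩ := h
    exact ⟨h1, x, h2, ih h3⟩

omit [Fintype V] [Fintype W] in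
theorem DEP.symm {I : W → V → Prop} {l : List W} {v u : V} (h : chainTo I v l u) :
    chainTo I u l.reverse v := by
  induction l generalizing v with
  | nil =>
    have : v = u := h
    subst this
    exact rfl
  | cons R l ih =>
    obtain ⟨h1, x, h2, h3⟩ := h
    rw [List.reverse_cons]
    exact DEP.append (ih h3) ⟨h2, v, h1, rfl⟩

theorem DEP.card_ball {I : W → V → Prop} {D : ℕ}
    (h1 : ∀ R, {v | I R v}.ncard ≤ D) (h2 : ∀ v, {R | I R v}.ncard ≤ D) (n : ℕ) :
    ∀ v, (ball I n v).card ≤ (D ^ 2 + 1) ^ n := by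
  classical
  induction n with
  | zero =>
    intro v
    have : ball I 0 v ⊆ {v} := by
      intro u hu
      obtain ⟨l, hl, hc⟩ := (Finset.mem_filter.mp hu).2
      have : l = [] := List.length_eq_zero_iff.mp (Nat.le_zero.mp hl)
      subst this
      exact Finset.mem_singleton.mpr (show v = u from hc).symm
    exact (Finset.card_le_card this).trans (by simp)
  | succ n ih =>
    intro v
    have hsub : ball I (n + 1) v ⊆ {v} ∪ (Finset.univ.filter (fun R => I R v)).biUnion fun R =>
        (Finset.univ.filter (fun w => I R w)).biUnion fun w => ball I n w := by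
      intro u hu
      obtain ⟨l, hl, hc⟩ := (Finset.mem_filter.mp hu).2
      cases l with
      | nil =>
        exact Finset.mem_union_left _ (Finset.mem_singleton.mpr (show v = u from hc).symm)
      | cons R l =>
        obtain ⟨h3, x, h4, h5⟩ := hc
        refine Finset.mem_union_right _ ?_
        rw [Finset.mem_biUnion]
        refine ⟨R, Finset.mem_filter.mpr ⟨Finset.mem_univ _, h3⟩, ?_⟩
        rw [Finset.mem_biUnion]
        refine ⟨x, Finset.mem_filter.mpr ⟨Finset.mem_univ _, h4⟩, ?_⟩
        refine Finset.mem_filter.mpr ⟨Finset.mem_univ _, l, ?_, h5⟩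
        simpa using hl
    refine (Finset.card_le_card hsub).trans ((Finset.card_union_le _ _).trans ?_)
    have e1 : ∀ R, (Finset.univ.filter (fun v => I R v)).card ≤ D := by
      intro R
      have := h1 R
      rwa [Set.ncard_eq_toFinset_card', Set.toFinset_ofPred] at this
    have e2 : ∀ v, (Finset.univ.filter (fun R => I R v)).card ≤ D := by
      intro v
      have := h2 v
      rwa [Set.ncard_eq_toFinset_card', Set.toFinset_ofPred] at this
    have h3 : ((Finset.univ.filter (fun R => I R v)).biUnion fun R =>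
        (Finset.univ.filter (fun w => I R w)).biUnion fun w => ball I n w).card ≤
        D * (D * (D ^ 2 + 1) ^ n) := by
      refine (Finset.card_biUnion_le_card_mul _ _ (D * (D ^ 2 + 1) ^ n) ?_).trans
        (Nat.mul_le_mul_right _ (e2 v))
      intro R _
      exact (Finset.card_biUnion_le_card_mul _ _ ((D ^ 2 + 1) ^ n) (fun w _ => ih w)).trans
        (Nat.mul_le_mul_right _ (e1 R))
    have h4 : 1 ≤ (D ^ 2 + 1) ^ n := Nat.one_le_pow _ _ (by positivity)
    calc _ ≤ 1 + D * (D * (D ^ 2 + 1) ^ n) := Nat.add_le_add (by simp) h3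
      _ ≤ (D ^ 2 + 1) ^ n + D * (D * (D ^ 2 + 1) ^ n) := Nat.add_le_add_right h4 _
      _ = (D ^ 2 + 1) ^ (n + 1) := by ring

end

/-- number of dependent rows -/
theorem prove_DEP : St_DEP := by
  classical
  intro V W _ _ I D h1 h2 n R
  have e1 : ∀ R, {v | I R v}.ncard ≤ D := by
    intro R
    rw [Set.ncard_eq_toFinset_card', Set.toFinset_ofPred]
    convert h1 R
  have e2 : ∀ v, {R | I R v}.ncard ≤ D := by
    intro v
    rw [Set.ncard_eq_toFinset_card', Set.toFinset_ofPred]
    convert h2 v
  have hsub : (Finset.univ.filter (fun R' => ¬ Disjoint (rball I n R) (rball I n R'))) ⊆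
      (Finset.univ.filter (fun v => I R v)).biUnion fun v =>
        (ball I (2 * n) v).biUnion fun v' => Finset.univ.filter (fun R' => I R' v') := by
    intro R' hR'
    have h3 := (Finset.mem_filter.mp hR').2
    rw [Finset.not_disjoint_iff] at h3
    obtain ⟨u, hu, hu'⟩ := h3
    obtain ⟨v, hv, hvu⟩ := (Finset.mem_filter.mp hu).2
    obtain ⟨v', hv', hvu'⟩ := (Finset.mem_filter.mp hu').2
    obtain ⟨l, hl, hc⟩ := (Finset.mem_filter.mp hvu).2
    obtain ⟨l', hl', hc'⟩ := (Finset.mem_filter.mp hvu').2
    rw [Finset.mem_biUnion]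
    refine ⟨v, Finset.mem_filter.mpr ⟨Finset.mem_univ _, hv⟩, ?_⟩
    rw [Finset.mem_biUnion]
    refine ⟨v', Finset.mem_filter.mpr ⟨Finset.mem_univ _, l ++ l'.reverse, ?_, ?_⟩,
      Finset.mem_filter.mpr ⟨Finset.mem_univ _, hv'⟩⟩
    · rw [List.length_append, List.length_reverse]
      omega
    · exact DEP.append hc (DEP.symm hc')
  have h5 := (Finset.card_le_card hsub).trans
    (Finset.card_biUnion_le_card_mul _ _ ((D ^ 2 + 1) ^ (2 * n) * D) (fun v _ =>
      (Finset.card_biUnion_le_card_mul _ _ D (fun v' _ => by convert h2 v')).trans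
        (Nat.mul_le_mul_right _ (DEP.card_ball e1 e2 (2 * n) v))))
  refine le_trans (by convert h5) ?_
  calc _ ≤ D * ((D ^ 2 + 1) ^ (2 * n) * D) := Nat.mul_le_mul_right _ (by convert h1 R)
    _ ≤ (D ^ 2 + 1) ^ (2 * n + 1) := by
      have : (D ^ 2 + 1) ^ (2 * n + 1) =
        D * ((D ^ 2 + 1) ^ (2 * n) * D) + (D ^ 2 + 1) ^ (2 * n) := by ring
      rw [this]
      exact Nat.le_add_right _ _

end Pool.Agent.H320R2.LD
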