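import Pool.Agent.H320R2.LD.Defs

set_option autoImplicit false

open MeasureTheory

namespace Pool.Agent.H320R2.LD

namespace EX

variable {V W : Type} [Fintype V] [Fintype W]

/-- the functional -/
noncomputable def J (b : W → V → ℝ) (p : ℝ → ℝ) (y z : V → ℝ) : ℝ :=
  ∑ v, (z v - y v) ^ 2 / 2 + ∑ R, ∫ u in (0:ℝ)..(eta b z R), p u

theorem hasDeriv (p : ℝ → ℝ) (hp : Continuous p) (x : ℝ) :
    HasDerivAt (fun x => ∫ u in (0:ℝ)..x, p u) (p x) x :=
  intervalIntegral.integral_hasDerivAt_right (hp.intervalIntegrable _ _)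
    (hp.stronglyMeasurableAtFilter _ _) hp.continuousAt

theorem J_cont (b : W → V → ℝ) (p : ℝ → ℝ) (hp : Continuous p) (y : V → ℝ) :
    Continuous (J b p y) := by
  unfold J
  refine Continuous.add (by fun_prop) (continuous_finset_sum _ fun R _ => ?_)
  have h1 : Continuous (fun x => ∫ u in (0:ℝ)..x, p u) :=
    continuous_iff_continuousAt.mpr fun x => (hasDeriv p hp x).continuousAt
  exact h1.comp (by unfold eta; fun_prop)

end EX

open EX in
theorem prove_EX : St_EX := by
  classical
  intro V W _ _ b p hp _ y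
  have hK : IsCompact (Set.pi Set.univ (fun _ : V => Set.Icc (-1 : ℝ) 1)) :=
    isCompact_univ_pi fun _ => isCompact_Icc
  obtain ⟨z, hz, hmin⟩ := hK.exists_isMinOn ⟨fun _ => 0, fun v _ => by simp⟩
    (J_cont b p hp y).continuousOn
  have hz1 : ∀ v, |z v| ≤ 1 := fun v => abs_le.mpr (hz v (Set.mem_univ v))
  refine ⟨z, hz1, fun v c hc => ?_⟩
  -- the path
  set g : ℝ → V → ℝ := fun e u => z u + e * (if u = v then c - z v else 0) with hg
  have hgv : ∀ e u, HasDerivAt (fun e => g e u) (if u = v then c - z v else 0) e := by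
    intro e u
    have h1 : HasDerivAt (fun e : ℝ => e * (if u = v then c - z v else 0))
      (1 * (if u = v then c - z v else 0)) e := (hasDerivAt_id e).mul_const _
    rw [one_mul] at h1
    exact h1.const_add (z u)
  have hd1 : HasDerivAt (fun e => ∑ u, (g e u - y u) ^ 2 / 2)
      (∑ u, (g 0 u - y u) * (if u = v then c - z v else 0)) 0 := by
    refine HasDerivAt.fun_sum fun u _ => ?_
    have h1 := (((hgv 0 u).sub_const (y u)).pow 2).div_const 2
    refine h1.congr_deriv ?_
    simp only [Nat.cast_ofNat, Nat.add_one_sub_one, pow_one]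
    ring
  have heta : ∀ R, HasDerivAt (fun e => eta b (g e) R) (b R v * (c - z v)) 0 := by
    intro R
    have h1 : HasDerivAt (fun e => ∑ u, b R u * g e u)
        (∑ u, b R u * (if u = v then c - z v else 0)) 0 :=
      HasDerivAt.fun_sum fun u _ => (hgv 0 u).const_mul (b R u)
    have h2 : ∑ u, b R u * (if u = v then c - z v else 0) = b R v * (c - z v) := by
      simp
    rw [h2] at h1
    exact h1
  have hg0 : g 0 = z := by funext u; simp [hg]
  have hd2 : HasDerivAt (fun e => ∑ R, ∫ u in (0:ℝ)..(eta b (g e) R), p u)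
      (∑ R, p (eta b z R) * (b R v * (c - z v))) 0 := by
    refine HasDerivAt.fun_sum fun R _ => ?_
    have h1 := (hasDeriv p hp (eta b (g 0) R)).comp 0 (heta R)
    rw [hg0] at h1
    exact h1
  have hd := hd1.add hd2
  have hdval : (∑ u, (g 0 u - y u) * (if u = v then c - z v else 0)) +
      ∑ R, p (eta b z R) * (b R v * (c - z v)) =
      (z v - y v + ∑ R, b R v * p (eta b z R)) * (c - z v) := by
    rw [hg0]
    simp only [mul_ite, mul_zero, Finset.sum_ite_eq', Finset.mem_univ, if_true]
    rw [add_mul, Finset.sum_mul]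
    congr 1
    exact Finset.sum_congr rfl fun R _ => by ring
  rw [hdval] at hd
  have hJ : (fun e => ∑ u, (g e u - y u) ^ 2 / 2) +
      (fun e => ∑ R, ∫ u in (0:ℝ)..(eta b (g e) R), p u) = fun e => J b p y (g e) := by
    funext e; rfl
  rw [hJ] at hd
  -- derivative nonneg
  by_contra hneg
  push Not at hneg
  have hslope := hd.hasDerivWithinAt (s := Set.Ioi 0)
  have hlt := (hasDerivWithinAt_iff_tendsto_slope' (by simp)).mp hslope
  have hev := hlt.eventually (gt_mem_nhds hneg)
  have hev2 : ∀ᶠ e : ℝ in nhdsWithin 0 (Set.Ioi 0), e < 1 :=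
    (gt_mem_nhds (show (0:ℝ) < 1 by norm_num)).filter_mono nhdsWithin_le_nhds
  have hev3 : ∀ᶠ e : ℝ in nhdsWithin 0 (Set.Ioi 0), 0 < e := self_mem_nhdsWithin
  obtain ⟨e, ⟨he1, he2⟩, he3⟩ := ((hev.and hev2).and hev3).exists
  have hge : g e ∈ Set.pi Set.univ (fun _ : V => Set.Icc (-1 : ℝ) 1) := by
    intro u _
    have hzu := hz u (Set.mem_univ u)
    have hcc := abs_le.mp hc
    simp only [hg]
    split_ifs with hu
    · subst hu
      constructor
      · nlinarith [hzu.1, hcc.1]
      · nlinarith [hzu.2, hcc.2]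
    · simpa using hzu
  have hmin' := hmin hge
  simp only [Set.mem_setOf_eq] at hmin'
  have hslope' : slope (fun e => J b p y (g e)) 0 e = (J b p y (g e) - J b p y z) / e := by
    rw [slope_def_field, hg0, sub_zero]
  rw [hslope'] at he1
  have : 0 ≤ (J b p y (g e) - J b p y z) / e := div_nonneg (sub_nonneg.mpr hmin') he3.le
  linarith

end Pool.Agent.H320R2.LD
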