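import Pool.Agent.H320R2.LD.Defs

set_option autoImplicit false

/-!
# GEX: progress at one vertex
-/

open MeasureTheory ProbabilityTheory

namespace Pool.Agent.H320R2.LD

namespace GEX

theorem gam_neg (V : Type) [Fintype V] :
    MeasurePreserving (fun x : V → ℝ => -x) (gam V) (gam V) := by
  unfold gam
  have h : ∀ _ : V, MeasurePreserving (fun x : ℝ => -x) (gaussianReal 0 1) (gaussianReal 0 1) := by
    intro _
    refine ⟨measurable_neg, ?_⟩
    rw [gaussianReal_map_neg, neg_zero]
  exact measurePreserving_pi _ _ h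

theorem Gp_sum {x : ℝ} (_hx : |x| ≤ 1) : Gp x + Gp (-x) ≤ Real.sqrt 2 + (1/40 + 10 * (1 - |x|)) := by
  unfold Gp
  rcases le_total 0 x with h | h
  · rw [abs_of_nonneg h]
    have h1 := min_le_right (Real.sqrt 2) (1/40 + 10 * (1 - x))
    have h2 := min_le_left (Real.sqrt 2) (1/40 + 10 * (1 - -x))
    linarith
  · rw [abs_of_nonpos h]
    have h1 := min_le_left (Real.sqrt 2) (1/40 + 10 * (1 - x))
    have h2 := min_le_right (Real.sqrt 2) (1/40 + 10 * (1 - -x))
    linarith

theorem Gp_bound {x : ℝ} (hx : |x| ≤ 1) : ‖Gp x‖ ≤ Real.sqrt 2 := by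
  have h := abs_le.mp hx
  have h0 : 0 ≤ Gp x := le_min (Real.sqrt_nonneg _) (by linarith)
  rw [Real.norm_of_nonneg h0]
  exact min_le_left _ _

theorem Gp_cont : Continuous Gp := by
  unfold Gp
  fun_prop

end GEX

open GEX in
theorem prove_GEX : St_GEX := by
  intro V _ f hf hb hodd hint σ hσ
  have hσ1 : |σ| = 1 := by
    rcases hσ with h | h <;> simp [h]
  have hbd : ∀ x, |σ * f x| ≤ 1 := fun x => by rw [abs_mul, hσ1, one_mul]; exact hb x
  have hc1 : Continuous fun x => Gp (σ * f x) := Gp_cont.comp (continuous_const.mul hf)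
  have hc2 : Continuous fun x => Gp (-(σ * f x)) := Gp_cont.comp (continuous_const.mul hf).neg
  have hi1 : Integrable (fun x => Gp (σ * f x)) (gam V) :=
    Integrable.of_bound hc1.aestronglyMeasurable (Real.sqrt 2)
      (Filter.Eventually.of_forall fun x => Gp_bound (hbd x))
  have hi2 : Integrable (fun x => Gp (-(σ * f x))) (gam V) :=
    Integrable.of_bound hc2.aestronglyMeasurable (Real.sqrt 2)
      (Filter.Eventually.of_forall fun x => Gp_bound (by rw [abs_neg]; exact hbd x))
  have hi3 : Integrable (fun x => 1 - |f x|) (gam V) :=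
    Integrable.of_bound (continuous_const.sub hf.abs).aestronglyMeasurable 1
      (Filter.Eventually.of_forall fun x => by
        have h1 := hb x
        have h2 := abs_nonneg (f x)
        rw [Real.norm_of_nonneg (by linarith)]
        linarith)
  have hsym : ∫ x, Gp (σ * f x) ∂(gam V) = ∫ x, Gp (-(σ * f x)) ∂(gam V) := by
    have h1 := (gam_neg V).integral_comp (MeasurableEquiv.neg (V → ℝ)).measurableEmbedding
      (fun x => Gp (σ * f x))
    rw [← h1]
    refine integral_congr_ae (Filter.Eventually.of_forall fun x => ?_)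
    simp only [hodd, mul_neg]
  have hsum : ∫ x, (Gp (σ * f x) + Gp (-(σ * f x))) ∂(gam V) ≤
      ∫ x, ((Real.sqrt 2 + 1/40) + 10 * (1 - |f x|)) ∂(gam V) := by
    refine integral_mono (hi1.add hi2)
      ((integrable_const (Real.sqrt 2 + 1/40)).add (hi3.const_mul 10)) fun x => ?_
    have := Gp_sum (hbd x)
    rw [abs_mul, hσ1, one_mul] at this
    simp only [Pi.add_apply]
    linarith
  have e1 : ∫ x, (Gp (σ * f x) + Gp (-(σ * f x))) ∂(gam V) =
      ∫ x, Gp (σ * f x) ∂(gam V) + ∫ x, Gp (-(σ * f x)) ∂(gam V) := integral_add hi1 hi2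
  have e2 : ∫ x, ((Real.sqrt 2 + 1/40) + 10 * (1 - |f x|)) ∂(gam V) =
      ∫ _, (Real.sqrt 2 + 1/40) ∂(gam V) + ∫ x, 10 * (1 - |f x|) ∂(gam V) :=
    integral_add (integrable_const (Real.sqrt 2 + 1/40)) (hi3.const_mul 10)
  rw [e1, ← hsym, e2, integral_const_mul] at hsum
  simp only [integral_const, probReal_univ, one_smul] at hsum
  have h2 : Real.sqrt 2 ≤ 14143/10000 := by
    rw [Real.sqrt_le_left (by norm_num)]
    norm_num
  linarith

end Pool.Agent.H320R2.LD
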