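import Pool.Agent.H320R2.LD.Defs

set_option autoImplicit false

/-!
# HOTP: many given rows are rarely hot together
-/

open MeasureTheory ProbabilityTheory

namespace Pool.Agent.H320R2.LD

namespace HOTP

theorem nrm_smul {V : Type} [Fintype V] (M : ℝ) (hM : 0 < M) (x : V → ℝ) :
    nrm (M • x) = M * nrm x := by
  unfold nrm nsq
  have h : ∑ v, (M • x) v ^ 2 = M ^ 2 * ∑ v, x v ^ 2 := by
    rw [Finset.mul_sum]
    refine Finset.sum_congr rfl fun v _ => ?_
    simp only [Pi.smul_apply, smul_eq_mul]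
    ring
  rw [h, Real.sqrt_mul (by positivity), Real.sqrt_sq hM.le]

theorem wf_neg (K w0 x : ℝ) : wf K w0 (-x) = wf K w0 x := by
  unfold wf
  rw [abs_neg]

theorem th_neg (K w0 x : ℝ) : th K w0 (-x) = - th K w0 x := by
  unfold th
  have h := intervalIntegral.integral_comp_neg (a := (0 : ℝ)) (b := x)
    (fun u => ((wf K w0 u)⁻¹) ^ 2)
  simp only [wf_neg, neg_zero] at h
  rw [h, intervalIntegral.integral_symm]

theorem eta_neg {V W : Type} [Fintype V] (b : W → V → ℝ) (z : V → ℝ) (R : W) :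
    eta b (-z) R = - eta b z R := by
  unfold eta
  rw [← Finset.sum_neg_distrib]
  refine Finset.sum_congr rfl fun v _ => ?_
  simp

end HOTP

open HOTP in
theorem prove_HOTP (hSOL : St_SOL) (hCONC : St_CONC) (hMGF : St_MGF) (hMOM : St_MOM)
    (hPOT2 : St_POT2) : St_HOTP := by
  intro V W _ _ b K w0 M q z hK hw0 hw1 hz hM hq hwq N
  obtain ⟨C8, -, hMOM⟩ := hMOM
  obtain ⟨hodd, -, -, -, hT, hf⟩ := hSOL V W b K w0 z hK hw0 hw1 hz
  have hM2 : 0 < M / 2 := by positivity
  -- the individual functions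
  have hfR : ∀ R, Lip (M / 2) (fun g : V → ℝ => th K w0 (eta b (z (M • g)) R)) := by
    intro R x y
    have h := hf R (M • y) (M • x)
    rw [← smul_sub, nrm_smul M hM] at h
    simp only
    linarith
  have hfodd : ∀ R, ∀ x : V → ℝ, th K w0 (eta b (z (M • (-x))) R) =
      - th K w0 (eta b (z (M • x)) R) := by
    intro R x
    rw [smul_neg, hodd, eta_neg, th_neg]
  set T : (V → ℝ) → ℝ := fun g => Real.sqrt (∑ R ∈ N, th K w0 (eta b (z (M • g)) R) ^ 2) with hTdef
  have hTlip : Lip (M / 2) T := by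
    intro x y
    have h := hT N (M • y) (M • x)
    rw [← smul_sub, nrm_smul M hM] at h
    simp only [hTdef]
    linarith
  have hTint : Integrable T (gam V) := (hMGF V T (M / 2) hM2 hTlip).1
  have hTsq : ∀ x, T x ^ 2 = ∑ R ∈ N, th K w0 (eta b (z (M • x)) R) ^ 2 := by
    intro x
    simp only [hTdef]
    exact Real.sq_sqrt (Finset.sum_nonneg fun R _ => sq_nonneg _)
  have hT2int : Integrable (fun x => T x ^ 2) (gam V) := by
    have : (fun x => T x ^ 2) = fun x => ∑ R ∈ N, th K w0 (eta b (z (M • x)) R) ^ 2 :=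
      funext hTsq
    rw [this]
    exact integrable_finsetSum _ fun R _ => (hMOM V _ (M / 2) hM2 (hfR R) (hfodd R)).2.2.2.1
  have hT2 : ∫ x, T x ^ 2 ∂(gam V) ≤ N.card * (4 * M ^ 2) := by
    have : (fun x => T x ^ 2) = fun x => ∑ R ∈ N, th K w0 (eta b (z (M • x)) R) ^ 2 :=
      funext hTsq
    rw [this, integral_finsetSum _ fun R _ =>
      (hMOM V _ (M / 2) hM2 (hfR R) (hfodd R)).2.2.2.1]
    rw [← nsmul_eq_mul]
    refine Finset.sum_le_card_nsmul _ _ _ fun R _ => ?_
    refine (hMOM V _ (M / 2) hM2 (hfR R) (hfodd R)).2.2.2.2.trans (le_of_eq ?_)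
    ring
  have hmean : (∫ x, T x ∂(gam V)) ^ 2 ≤ ∫ x, T x ^ 2 ∂(gam V) := by
    set c := ∫ x, T x ∂(gam V) with hc
    have h0 : 0 ≤ ∫ x, (T x - c) ^ 2 ∂(gam V) := integral_nonneg fun x => sq_nonneg _
    have h1 : ∫ x, (T x - c) ^ 2 ∂(gam V) = ∫ x, T x ^ 2 ∂(gam V) - 2 * c * c + c ^ 2 := by
      have h2 : (fun x => (T x - c) ^ 2) = fun x => T x ^ 2 - (2 * c) * T x + c ^ 2 := by
        funext x
        ring
      have h3 : Integrable (fun x => (2 * c) * T x) (gam V) := hTint.const_mul _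
      have h4 : Integrable (fun x => T x ^ 2 - (2 * c) * T x) (gam V) := hT2int.sub h3
      rw [h2, integral_add h4 (integrable_const _), integral_sub hT2int h3,
        integral_const_mul, integral_const, ← hc]
      simp
    rw [h1] at h0
    nlinarith
  have hN0 : (0 : ℝ) ≤ N.card := Nat.cast_nonneg _
  have hmean2 : ∫ x, T x ∂(gam V) ≤ 2 * M * Real.sqrt N.card := by
    refine le_of_sq_le_sq ?_ (by positivity)
    rw [mul_pow, Real.sq_sqrt hN0]
    nlinarith [hmean.trans hT2]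
  -- the event
  have hq1 : 1 ≤ q := by nlinarith
  set u : ℝ := Real.sqrt N.card * (q - 1 - 2 * M) with hu
  have hu0 : 0 ≤ u := mul_nonneg (Real.sqrt_nonneg _) (by nlinarith)
  have hsub : {g : V → ℝ | ∀ R ∈ N, wf K w0 (eta b (z (M • g)) R) ≤ q⁻¹} ⊆
      {x | (∫ y, T y ∂(gam V)) + u ≤ T x} := by
    intro g hg
    have hg' : ∀ R ∈ N, wf K w0 (eta b (z (M • g)) R) ≤ q⁻¹ := hg
    have h1 : Real.sqrt N.card * (q - 1) ≤ T g := by
      simp only [hTdef]
      refine Real.le_sqrt_of_sq_le ?_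
      rw [mul_pow, Real.sq_sqrt hN0, ← nsmul_eq_mul]
      refine Finset.card_nsmul_le_sum _ _ _ fun R hR => ?_
      have h2 := (hPOT2 K w0 hK hw0 hw1).2.1 _ q hq1 hwq (hg' R hR)
      rw [← sq_abs (th K w0 (eta b (z (M • g)) R))]
      have h3 : 0 ≤ q - 1 := by linarith
      exact pow_le_pow_left₀ h3 h2 2
    show (∫ y, T y ∂(gam V)) + u ≤ T g
    have h4 : u = Real.sqrt N.card * (q - 1) - 2 * M * Real.sqrt N.card := by
      rw [hu]
      ring
    linarith
  refine (measureReal_mono hsub).trans ((hCONC V T (M / 2) hM2 hTlip u hu0).trans ?_)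
  apply Real.exp_le_exp.2
  have hqq : q / 2 ≤ q - 1 - 2 * M := by linarith
  have hu2 : (N.card : ℝ) * (q / 2) ^ 2 ≤ u ^ 2 := by
    rw [hu, mul_pow, Real.sq_sqrt hN0]
    refine mul_le_mul_of_nonneg_left ?_ hN0
    exact pow_le_pow_left₀ (by positivity) hqq 2
  have e1 : 4 * (M / 2) ^ 2 = M ^ 2 := by ring
  rw [e1]
  have e2 : -(N.card : ℝ) * q ^ 2 / (4 * M ^ 2) = (-((N.card : ℝ) * (q / 2) ^ 2)) / M ^ 2 := by
    field_simp
    ring
  rw [e2]
  exact div_le_div_of_nonneg_right (by linarith) (by positivity)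

end Pool.Agent.H320R2.LD
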