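import Pool.Agent.H320R2.LD.Defs

set_option autoImplicit false

/-!
# ITER: iteration of the phases
-/

open MeasureTheory ProbabilityTheory Filter

namespace Pool.Agent.H320R2.LD

namespace ITER

theorem exists_T : ∃ T : ℝ, 3 ≤ T ∧ ∀ t : ℝ, T ≤ t → t ^ (-(1/100) : ℝ) ≤ 1 / Real.log t := by
  have h := (isLittleO_log_rpow_atTop (show (0 : ℝ) < 1/100 by norm_num)).bound
    (show (0 : ℝ) < 1 by norm_num)
  obtain ⟨T, hT⟩ := eventually_atTop.mp h
  refine ⟨max 3 T, le_max_left _ _, fun t ht => ?_⟩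
  have h3 : 3 ≤ t := (le_max_left _ _).trans ht
  have hb := hT t ((le_max_right _ _).trans ht)
  have hlog : 0 < Real.log t := Real.log_pos (by linarith)
  have hpow : 0 < t ^ (1/100 : ℝ) := Real.rpow_pos_of_pos (by linarith) _
  rw [Real.norm_of_nonneg hlog.le, Real.norm_of_nonneg hpow.le, one_mul] at hb
  rw [Real.rpow_neg (by linarith), ← one_div]
  exact one_div_le_one_div_of_le hlog hb

end ITER

open ITER in
theorem prove_ITER (h1 : St_PHASE) : St_ITER := by
  obtain ⟨C, t0, hC, ht0, hph⟩ := h1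
  obtain ⟨T, hT3, hT⟩ := exists_T
  set ρ : ℝ := (4/5 : ℝ) ^ (1/4 : ℝ) with hρ
  have hρ0 : 0 < ρ := Real.rpow_pos_of_pos (by norm_num) _
  have hρ1 : ρ < 1 := Real.rpow_lt_one (by norm_num) (by norm_num) (by norm_num)
  have hgeo : ∀ j : ℕ, ∑ i ∈ Finset.range j, ρ ^ i ≤ 1 / (1 - ρ) := by
    intro j
    rw [geom_sum_eq hρ1.ne, ← neg_div_neg_eq, neg_sub, neg_sub]
    exact div_le_div_of_nonneg_right (by linarith [pow_pos hρ0 j]) (by linarith)
  refine ⟨C * (1 / (1 - ρ)), max t0 T, mul_pos hC (one_div_pos.mpr (by linarith)),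
    le_trans ht0 (le_max_left _ _), ?_⟩
  intro t ht V W _ _ A hA
  have htt0 : t0 ≤ t := (le_max_left _ _).trans ht
  have htT : T ≤ t := (le_max_right _ _).trans ht
  have ht3 : 3 ≤ t := hT3.trans htT
  have hlog : 0 < Real.log t := Real.log_pos (by linarith)
  have hex : ∃ n : ℕ, (4/5 : ℝ) ^ n ≤ 1 / Real.log t := by
    obtain ⟨n, hn⟩ := exists_pow_lt_of_lt_one (one_div_pos.mpr hlog) (show (4/5 : ℝ) < 1 by norm_num)
    exact ⟨n, hn.le⟩
  classical
  set n := Nat.find hex with hn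
  have hn1 : (4/5 : ℝ) ^ n ≤ 1 / Real.log t := Nat.find_spec hex
  have hn2 : ∀ j < n, 1 / Real.log t < (4/5 : ℝ) ^ j := fun j hj =>
    not_le.mp (Nat.find_min hex hj)
  have key : ∀ j : ℕ, j ≤ n → ∃ a : V → ℝ, (∀ v, |a v| ≤ 1) ∧ (∀ R, Phi A a R ≤ (4/5 : ℝ) ^ j) ∧
      ∀ R, |∑ v, A R v * a v| ≤ C * ∑ i ∈ Finset.range j, ρ ^ i := by
    intro j
    induction j with
    | zero =>
      intro _
      refine ⟨fun _ => 0, fun v => by simp, fun R => ?_, fun R => by simp⟩
      unfold Phi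
      simpa using hA.2.1 R
    | succ j ih =>
      intro hj
      obtain ⟨a, ha1, ha2, ha3⟩ := ih (by omega)
      have hjn : j < n := by omega
      obtain ⟨a', ha1', ha2', ha3'⟩ := hph t ((4/5 : ℝ) ^ j) htt0
        ((hT t htT).trans (hn2 j hjn).le) (pow_le_one₀ (by norm_num) (by norm_num)) V W A a hA ha1 ha2
      refine ⟨a', ha1', fun R => ?_, fun R => ?_⟩
      · have := ha2' R
        rw [pow_succ]
        linarith
      · have h1 := ha3 R
        have h2 := ha3' R
        have h3 : ∑ v, A R v * a' v = ∑ v, A R v * a v + ∑ v, A R v * (a' v - a v) := by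
          rw [← Finset.sum_add_distrib]
          exact Finset.sum_congr rfl fun v _ => by ring
        have h4 : ((4/5 : ℝ) ^ j) ^ (1/4 : ℝ) = ρ ^ j := by
          rw [hρ, ← Real.rpow_natCast, ← Real.rpow_natCast, ← Real.rpow_mul (by norm_num),
            ← Real.rpow_mul (by norm_num), mul_comm]
        rw [h4] at h2
        rw [h3, Finset.sum_range_succ, mul_add]
        exact (abs_add_le _ _).trans (add_le_add h1 h2)
  obtain ⟨a, ha1, ha2, ha3⟩ := key n le_rfl
  refine ⟨a, ha1, fun R => (ha2 R).trans hn1, fun R => (ha3 R).trans ?_⟩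
  exact mul_le_mul_of_nonneg_left (hgeo n) hC.le

end Pool.Agent.H320R2.LD
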