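import Pool.Agent.H320R2.LD.Defs

set_option autoImplicit false

/-!
# Task LLL: symmetric local lemma on a product space
-/

open MeasureTheory ProbabilityTheory

namespace Pool.Agent.H320R2.LD

namespace LLL

/-- `E` depends only on the coordinates in `S` -/
def Dep {V : Type} (E : Set (V → ℝ)) (S : Finset V) : Prop :=
  ∀ x y : V → ℝ, (∀ v ∈ S, x v = y v) → (x ∈ E → y ∈ E)

open Classical in
theorem indep (hmix : St_MIX) {V : Type} [Fintype V] (ν : V → Measure ℝ)
    [∀ v, IsProbabilityMeasure (ν v)] {E F : Set (V → ℝ)} (hE : MeasurableSet E)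
    (hF : MeasurableSet F) {S T : Finset V} (hES : Dep E S) (hFT : Dep F T)
    (hST : Disjoint S T) :
    (Measure.pi ν).real (E ∩ F) = (Measure.pi ν).real E * (Measure.pi ν).real F := by
  have hm := hmix V ν S
  have h1 : (Measure.pi ν) (E ∩ F) = (Measure.pi ν) E * (Measure.pi ν) F := by
    rw [← hm.measure_preimage (hE.inter hF).nullMeasurableSet, ← Measure.prod_prod]
    congr 1
    ext ⟨g, g'⟩
    simp only [Set.mem_preimage, Set.mem_inter_iff, Set.mem_prod]
    have e1 : ∀ v ∈ S, mix S g g' v = g v := fun v hv => by simp [mix, hv]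
    have e2 : ∀ v ∈ T, mix S g g' v = g' v := fun v hv => by
      have : v ∉ S := fun h => (Finset.disjoint_left.1 hST h) hv
      simp [mix, this]
    constructor
    · rintro ⟨h1, h2⟩
      exact ⟨hES _ _ e1 h1, hFT _ _ e2 h2⟩
    · rintro ⟨h1, h2⟩
      exact ⟨hES _ _ (fun v hv => (e1 v hv).symm) h1, hFT _ _ (fun v hv => (e2 v hv).symm) h2⟩
  unfold Measure.real
  rw [h1, ENNReal.toReal_mul]

/-- no event of `X` happens -/
def Av {V J : Type} (E : J → Set (V → ℝ)) (X : Finset J) : Set (V → ℝ) :=
  {x | ∀ j ∈ X, x ∉ E j}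

theorem Av_meas {V J : Type} [Fintype V] {E : J → Set (V → ℝ)} (hE : ∀ i, MeasurableSet (E i))
    (X : Finset J) : MeasurableSet (Av E X) := by
  have : Av E X = ⋂ j ∈ X, (E j)ᶜ := by
    ext x
    simp [Av]
  rw [this]
  exact X.measurableSet_biInter fun j _ => (hE j).compl

open Classical in
theorem Av_dep {V J : Type} {E : J → Set (V → ℝ)} {S : J → Finset V}
    (hdep : ∀ i, Dep (E i) (S i)) (X : Finset J) : Dep (Av E X) (X.biUnion S) := by
  intro x y hxy hx j hj hy
  refine hx j hj (hdep j y x (fun v hv => (hxy v ?_).symm) hy)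
  exact Finset.mem_biUnion.2 ⟨j, hj, hv⟩

theorem Av_anti {V J : Type} {E : J → Set (V → ℝ)} {X Y : Finset J} (h : X ⊆ Y) :
    Av E Y ⊆ Av E X := fun _ hx j hj => hx j (h hj)

open Classical in
theorem key (hmix : St_MIX) {V J : Type} [Fintype V] [Fintype J] (ν : V → Measure ℝ)
    [∀ v, IsProbabilityMeasure (ν v)] (E : J → Set (V → ℝ)) (S : J → Finset V)
    (hE : ∀ i, MeasurableSet (E i)) (hdep : ∀ i, Dep (E i) (S i))
    (p : ℝ) (N : ℕ) (hp : 0 ≤ p) (hp1 : ∀ i, (Measure.pi ν).real (E i) ≤ p)
    (hN : ∀ i, (Finset.univ.filter (fun j => ¬ Disjoint (S i) (S j))).card ≤ N)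
    (h4 : 4 * p * N ≤ 1) (n : ℕ) :
    ∀ X : Finset J, X.card = n → ∀ i,
      (Measure.pi ν).real (E i ∩ Av E X) ≤ 2 * p * (Measure.pi ν).real (Av E X) := by
  induction n using Nat.strong_induction_on with
  | _ n ih =>
    intro X hX i
    set μ := Measure.pi ν with hμ
    set X1 := X.filter (fun j => ¬ Disjoint (S i) (S j)) with hX1
    set X2 := X.filter (fun j => Disjoint (S i) (S j)) with hX2
    have hX2X : X2 ⊆ X := Finset.filter_subset _ _
    have h1 : μ.real (E i ∩ Av E X) ≤ p * μ.real (Av E X2) := by
      calc μ.real (E i ∩ Av E X) ≤ μ.real (E i ∩ Av E X2) :=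
            measureReal_mono (Set.inter_subset_inter_right _ (Av_anti hX2X))
        _ = μ.real (E i) * μ.real (Av E X2) := by
            refine indep hmix ν (hE i) (Av_meas hE X2) (hdep i) (Av_dep hdep X2) ?_
            rw [Finset.disjoint_biUnion_right]
            intro j hj
            exact (Finset.mem_filter.1 hj).2
        _ ≤ p * μ.real (Av E X2) := mul_le_mul_of_nonneg_right (hp1 i) measureReal_nonneg
    have h2 : μ.real (Av E X2) ≤ 2 * μ.real (Av E X) := by
      by_cases hX1e : X1 = ∅
      · have : X2 = X := by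
          rw [hX2, Finset.filter_eq_self]
          intro j hj
          by_contra hnd
          have : j ∈ X1 := Finset.mem_filter.2 ⟨hj, hnd⟩
          rw [hX1e] at this
          exact Finset.notMem_empty _ this
        rw [this]
        have := measureReal_nonneg (μ := μ) (s := Av E X)
        linarith
      · obtain ⟨j0, hj0⟩ := Finset.nonempty_iff_ne_empty.2 hX1e
        have hlt : X2.card < n := by
          rw [← hX]
          refine Finset.card_lt_card ((Finset.ssubset_iff_of_subset hX2X).2 ⟨j0, ?_, ?_⟩)
          · exact (Finset.mem_filter.1 hj0).1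
          · intro h
            exact (Finset.mem_filter.1 hj0).2 (Finset.mem_filter.1 h).2
        have hih := ih X2.card hlt X2 rfl
        have hsub : Av E X2 ⊆ Av E X ∪ ⋃ j ∈ X1, (E j ∩ Av E X2) := by
          intro x hx
          by_cases hxX : x ∈ Av E X
          · exact Or.inl hxX
          · right
            unfold Av at hxX
            simp only [Set.mem_setOf_eq, not_forall, not_not] at hxX
            obtain ⟨j, hj, hxj⟩ := hxX
            have hj1 : j ∈ X1 := by
              rw [hX1, Finset.mem_filter]
              refine ⟨hj, fun hd => ?_⟩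
              exact hx j (Finset.mem_filter.2 ⟨hj, hd⟩) hxj
            exact Set.mem_biUnion (Finset.mem_coe.2 hj1) ⟨hxj, hx⟩
        have h3 : μ.real (Av E X2) ≤ μ.real (Av E X) +
            ∑ j ∈ X1, μ.real (E j ∩ Av E X2) := by
          calc μ.real (Av E X2) ≤ μ.real (Av E X ∪ ⋃ j ∈ X1, (E j ∩ Av E X2)) :=
                measureReal_mono hsub
            _ ≤ μ.real (Av E X) + μ.real (⋃ j ∈ X1, (E j ∩ Av E X2)) :=
                measureReal_union_le _ _
            _ ≤ μ.real (Av E X) + ∑ j ∈ X1, μ.real (E j ∩ Av E X2) := by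
                gcongr
                exact measureReal_biUnion_finset_le _ _
        have h5 : ∑ j ∈ X1, μ.real (E j ∩ Av E X2) ≤ (N : ℝ) * (2 * p * μ.real (Av E X2)) := by
          calc ∑ j ∈ X1, μ.real (E j ∩ Av E X2) ≤ ∑ _j ∈ X1, 2 * p * μ.real (Av E X2) :=
                Finset.sum_le_sum fun j _ => hih j
            _ = (X1.card : ℝ) * (2 * p * μ.real (Av E X2)) := by
                rw [Finset.sum_const, nsmul_eq_mul]
            _ ≤ (N : ℝ) * (2 * p * μ.real (Av E X2)) := by
                refine mul_le_mul_of_nonneg_right ?_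
                  (mul_nonneg (by positivity) measureReal_nonneg)
                have h6 : X1.card ≤ N := by
                  refine le_trans (Finset.card_le_card ?_) (hN i)
                  intro j hj
                  rw [Finset.mem_filter]
                  exact ⟨Finset.mem_univ _, (Finset.mem_filter.1 hj).2⟩
                exact_mod_cast h6
        have h6 : (N : ℝ) * (2 * p * μ.real (Av E X2)) ≤ μ.real (Av E X2) / 2 := by
          have h7 : 0 ≤ μ.real (Av E X2) := measureReal_nonneg
          nlinarith
        linarith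
    calc μ.real (E i ∩ Av E X) ≤ p * μ.real (Av E X2) := h1
      _ ≤ p * (2 * μ.real (Av E X)) := mul_le_mul_of_nonneg_left h2 hp
      _ = 2 * p * μ.real (Av E X) := by ring

end LLL

open LLL in
theorem prove_LLL (hmix : St_MIX) : St_LLL := by
  classical
  intro V J _ _ ν _ E S hE hdep p N hp hN1 hp1 hN h4
  have hN' : ∀ i, (Finset.univ.filter (fun j => ¬ Disjoint (S i) (S j))).card ≤ N := by
    intro i
    convert hN i
  have hk := fun X : Finset J => key hmix ν E S hE hdep p N hp hp1 hN' h4 X.card X rfl
  have hp4 : 4 * p ≤ 1 := by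
    have h1 : (1 : ℝ) ≤ N := by exact_mod_cast hN1
    nlinarith
  have hpos : ∀ X : Finset J, 0 < (Measure.pi ν).real (Av E X) := by
    intro X
    induction X using Finset.induction_on with
    | empty =>
      have : Av E (∅ : Finset J) = Set.univ := by
        ext x; simp [Av]
      rw [this, probReal_univ]
      exact one_pos
    | insert i X _ ih =>
      have hsub : Av E X ⊆ Av E (insert i X) ∪ (E i ∩ Av E X) := by
        intro x hx
        by_cases hxi : x ∈ E i
        · exact Or.inr ⟨hxi, hx⟩
        · left
          intro j hj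
          rw [Finset.mem_insert] at hj
          rcases hj with rfl | hj
          · exact hxi
          · exact hx j hj
      have h1 : (Measure.pi ν).real (Av E X) ≤ (Measure.pi ν).real (Av E (insert i X)) +
          (Measure.pi ν).real (E i ∩ Av E X) :=
        (measureReal_mono hsub).trans (measureReal_union_le _ _)
      have h2 := hk X i
      nlinarith
  have h := hpos Finset.univ
  have hne : (Av E Finset.univ).Nonempty := by
    by_contra hcon
    rw [Set.not_nonempty_iff_eq_empty] at hcon
    rw [hcon, measureReal_empty] at h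
    exact lt_irrefl _ h
  obtain ⟨x, hx⟩ := hne
  exact ⟨x, fun i => hx i (Finset.mem_univ i)⟩

end Pool.Agent.H320R2.LD
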