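import Pool.Agent.H320R2.LD.Defs

set_option autoImplicit false

open MeasureTheory ProbabilityTheory

namespace Pool.Agent.H320R2.LD

namespace LOC

theorem length_of_mem_chains {V W : Type} [Fintype V] [Fintype W] (I : W → V → Prop) :
    ∀ (n : ℕ) (v : V) (l : List W), l ∈ chains I n v → l.length = n := by
  intro n
  induction n with
  | zero =>
    intro v l hl
    simp only [chains, Finset.mem_singleton] at hl
    simp [hl]
  | succ n ih =>
    intro v l hl
    simp only [chains, Finset.mem_biUnion, Finset.mem_image] at hl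
    obtain ⟨R, _, w, _, l', hl', rfl⟩ := hl
    simp [ih w l' hl']

theorem continuous_nrm {V : Type} [Fintype V] : Continuous (nrm : (V → ℝ) → ℝ) := by
  unfold nrm nsq
  fun_prop

theorem cont_of_lip {V : Type} [Fintype V] (f : (V → ℝ) → ℝ)
    (h : ∀ y y', |f y' - f y| ≤ nrm (y' - y)) : Continuous f := by
  rw [continuous_iff_continuousAt]
  intro y
  rw [ContinuousAt, tendsto_iff_dist_tendsto_zero]
  refine squeeze_zero (fun _ => dist_nonneg) (fun y' => ?_) (g := fun y' => nrm (y' - y)) ?_
  · rw [Real.dist_eq]; exact h y y'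
  · have h1 : Continuous (fun y' : V → ℝ => nrm (y' - y)) :=
      continuous_nrm.comp (continuous_id.sub continuous_const)
    have h2 := h1.tendsto y
    simpa [nrm, nsq] using h2

theorem nrm_smul {V : Type} [Fintype V] (M : ℝ) (hM : 0 ≤ M) (x y : V → ℝ) :
    nrm (M • x - M • y) = M * nrm (x - y) := by
  have h : nsq (M • x - M • y) = M ^ 2 * nsq (x - y) := by
    unfold nsq
    rw [Finset.mul_sum]
    refine Finset.sum_congr rfl fun v _ => ?_
    simp only [Pi.sub_apply, Pi.smul_apply, smul_eq_mul]
    ring
  unfold nrm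
  rw [h, Real.sqrt_mul (by positivity), Real.sqrt_sq hM]

theorem nrm_symm {V : Type} [Fintype V] (x y : V → ℝ) : nrm (x - y) = nrm (y - x) := by
  unfold nrm nsq
  congr 1
  refine Finset.sum_congr rfl fun v _ => ?_
  simp only [Pi.sub_apply]
  ring

open Classical in
theorem meas_countP {Ω W : Type} [MeasurableSpace Ω] (hot : Ω → W → Prop)
    (hm : ∀ R, MeasurableSet {g | hot g R}) (l : List W) :
    Measurable (fun g => l.countP (fun R => decide (hot g R))) := by
  induction l with
  | nil => simp only [List.countP_nil]; exact measurable_const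
  | cons R l ih =>
    simp only [List.countP_cons, decide_eq_true_eq]
    exact ih.add (Measurable.ite (hm R) measurable_const measurable_const)

theorem countP_or {W : Type} (p q r : W → Bool) (h : ∀ R, r R = true → p R = true ∨ q R = true)
    (l : List W) : l.countP r ≤ l.countP p + l.countP q := by
  induction l with
  | nil => simp
  | cons R l ih =>
    simp only [List.countP_cons]
    have hR := h R
    cases h1 : r R <;> cases h2 : p R <;> cases h3 : q R <;> simp_all <;> omega

open Classical in
theorem card_filter_countP {W : Type} (p : W → Prop) (l : List W) (hl : l.Nodup) :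
    (l.toFinset.filter p).card = l.countP (fun R => decide (p R)) := by
  rw [List.countP_eq_length_filter, ← List.toFinset_card_of_nodup (hl.filter _)]
  congr 1
  ext R
  simp

theorem cold {K w0 q x : ℝ} (hq : 0 < q) (h : ¬ wf K w0 x ≤ q⁻¹) : hf K w0 x ≤ q ^ 4 := by
  rw [not_le] at h
  unfold hf
  have h1 : 0 < q⁻¹ := inv_pos.2 hq
  have h2 : (wf K w0 x)⁻¹ ≤ q := by
    have := inv_anti₀ h1 h.le
    rwa [inv_inv] at this
  have h3 : 0 ≤ (wf K w0 x)⁻¹ := inv_nonneg.2 (h1.le.trans h.le)
  exact pow_le_pow_left₀ h3 h2 4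

end LOC

open LOC in
open Classical in
theorem prove_LOC (h1 : St_HOTP) (h2 : St_PATH) (h3 : St_CH) (h4 : St_CT) (h5 : St_SOL)
    (h6 : St_COND) : St_LOC := by
  intro V W _ _ _ b K w0 M α q qb ε N1 D m z I hK hw0 hw01 hz hI hD1 hD2 hM hα hα1 hq hw0q
    hN1 hop h8 hqb hqb1 hε hm hbig v0
  have hq0 : 0 < q := by linarith
  obtain ⟨-, -, hlip, -, -, -⟩ := h5 V W b K w0 z hK hw0 hw01 hz
  have hzc : ∀ v, Continuous (fun g : V → ℝ => z (M • g) v) := by
    intro v
    exact (cont_of_lip (fun y => z y v) (hlip v)).comp (continuous_const_smul M)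
  have hetac : ∀ R, Continuous (fun g : V → ℝ => eta b (z (M • g)) R) := by
    intro R
    unfold eta
    exact continuous_finsetSum _ fun v _ => continuous_const.mul (hzc v)
  set hot : (V → ℝ) → W → Prop := fun g R => wf K w0 (eta b (z (M • g)) R) ≤ q⁻¹ with hhot
  have hhm : ∀ R, MeasurableSet {g | hot g R} := by
    intro R
    have hc : Continuous (fun g : V → ℝ => wf K w0 (eta b (z (M • g)) R)) := by
      unfold wf
      exact (continuous_const.sub (hetac R).abs).max continuous_const
    exact (isClosed_le hc continuous_const).measurableSet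
  set G : Set (V → ℝ) := {g | ∀ l ∈ chains I (4 * m) v0, l.Nodup →
    l.countP (fun R => decide (hot g R)) ≤ m} with hG
  have hGm : MeasurableSet G := by
    have : G = ⋂ l ∈ chains I (4 * m) v0, {g | l.Nodup →
        l.countP (fun R => decide (hot g R)) ≤ m} := by
      ext g; simp [hG]
    rw [this]
    refine Finset.measurableSet_biInter _ fun l _ => ?_
    by_cases hl : l.Nodup
    · simp only [hl, true_imp_iff]
      exact measurableSet_le (meas_countP hot hhm l) measurable_const
    · simp only [hl, false_imp_iff]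
      exact MeasurableSet.univ
  have hGc : (gam V).real Gᶜ ≤ qb ^ 2 := by
    refine le_trans ?_ hbig
    set E : ℝ := Real.exp (-(m : ℝ) * q ^ 2 / (4 * M ^ 2)) with hE
    have hsub : Gᶜ ⊆ ⋃ l ∈ chains I (4 * m) v0,
        ⋃ N ∈ l.toFinset.powerset.filter (fun N => m ≤ N.card), {g | ∀ R ∈ N, hot g R} := by
      intro g hg
      simp only [hG, Set.mem_compl_iff, Set.mem_ofPred_eq, not_forall, not_le] at hg
      obtain ⟨l, hl, hnd, hlt⟩ := hg
      simp only [Set.mem_iUnion, Finset.mem_filter, Finset.mem_powerset]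
      refine ⟨l, hl, l.toFinset.filter (hot g), ⟨Finset.filter_subset _ _, ?_⟩, ?_⟩
      · rw [card_filter_countP _ _ hnd]; exact hlt.le
      · intro R hR
        exact (Finset.mem_filter.1 hR).2
    have hN : ∀ l ∈ chains I (4 * m) v0,
        (gam V).real (⋃ N ∈ l.toFinset.powerset.filter (fun N => m ≤ N.card),
          {g | ∀ R ∈ N, hot g R}) ≤ 2 ^ (4 * m) * E := by
      intro l hl
      refine le_trans (measureReal_biUnion_finset_le _ _) ?_
      have hterm : ∀ N ∈ l.toFinset.powerset.filter (fun N => m ≤ N.card),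
          (gam V).real {g | ∀ R ∈ N, hot g R} ≤ E := by
        intro N hN
        have hNc : m ≤ N.card := (Finset.mem_filter.1 hN).2
        refine le_trans (h1 V W b K w0 M q z hK hw0 hw01 hz hM hq hw0q N) ?_
        apply Real.exp_le_exp.2
        have hNc' : (m : ℝ) ≤ N.card := by exact_mod_cast hNc
        apply div_le_div_of_nonneg_right _ (by positivity)
        nlinarith [sq_nonneg q]
      refine le_trans (Finset.sum_le_sum hterm) ?_
      rw [Finset.sum_const, nsmul_eq_mul]
      apply mul_le_mul_of_nonneg_right _ (Real.exp_pos _).le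
      have hc1 : (l.toFinset.powerset.filter (fun N => m ≤ N.card)).card ≤ 2 ^ (4 * m) := by
        refine le_trans (Finset.card_filter_le _ _) ?_
        rw [Finset.card_powerset]
        apply Nat.pow_le_pow_right (by norm_num)
        exact le_trans (List.toFinset_card_le l) (length_of_mem_chains I _ _ _ hl).le
      exact_mod_cast hc1
    have hch : ((chains I (4 * m) v0).card : ℝ) ≤ ((D : ℝ) ^ 2) ^ (4 * m) := by
      have := h3 V W I D (fun R => by
          have := hD1 R
          rw [Set.ncard_eq_toFinset_card'] at this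
          refine le_trans (le_of_eq ?_) this
          congr 1
          ext v
          simp) (fun v => by
          have := hD2 v
          rw [Set.ncard_eq_toFinset_card'] at this
          refine le_trans (le_of_eq ?_) this
          congr 1
          ext v
          simp) (4 * m) v0
      exact_mod_cast this
    calc (gam V).real Gᶜ ≤ (gam V).real (⋃ l ∈ chains I (4 * m) v0,
          ⋃ N ∈ l.toFinset.powerset.filter (fun N => m ≤ N.card), {g | ∀ R ∈ N, hot g R}) :=
          measureReal_mono hsub (measure_ne_top _ _)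
      _ ≤ ∑ l ∈ chains I (4 * m) v0, (gam V).real
          (⋃ N ∈ l.toFinset.powerset.filter (fun N => m ≤ N.card), {g | ∀ R ∈ N, hot g R}) :=
          measureReal_biUnion_finset_le _ _
      _ ≤ ∑ l ∈ chains I (4 * m) v0, 2 ^ (4 * m) * E := Finset.sum_le_sum hN
      _ = (chains I (4 * m) v0).card * (2 ^ (4 * m) * E) := by
          rw [Finset.sum_const, nsmul_eq_mul]
      _ ≤ ((D : ℝ) ^ 2) ^ (4 * m) * (2 ^ (4 * m) * E) := by
          apply mul_le_mul_of_nonneg_right hch
          exact mul_nonneg (by positivity) (Real.exp_pos _).le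
      _ = (2 * (D : ℝ) ^ 2) ^ (4 * m) * E := by
          rw [mul_pow 2 ((D : ℝ) ^ 2)]; ring
  have hL0 : 0 < 2 * M * Real.exp (-(α * (2 * m))) := by positivity
  have hloc : ∀ x ∈ G, ∀ y ∈ G, (∀ v ∈ ball I (4 * m) v0, x v = y v) →
      |z (M • x) v0 - z (M • y) v0| ≤ 2 * M * Real.exp (-(α * (2 * m))) * nrm (x - y) := by
    intro x hx y hy hxy
    obtain ⟨d, hd0, hd1, hd2, hd3⟩ := h2 V W I (fun R => hot y R ∨ hot x R) v0 m (by
      intro l hl hnd
      refine le_trans (countP_or (fun R => decide (hot y R)) (fun R => decide (hot x R)) _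
        (fun R hR => by simpa using hR) l) ?_
      have e1 := hx l hl hnd
      have e2 := hy l hl hnd
      omega)
    have hct := h4 V W b K w0 hK hw0 hw01 (M • y) (M • x) (z (M • y)) (z (M • x)) (hz _) (hz _)
      I hI (fun R => hot y R ∨ hot x R) d α (q ^ 4) N1 hα hα1 (by positivity) hN1 hop h8
      (fun R hR => by
        rw [not_or] at hR
        exact ⟨cold hq0 hR.1, cold hq0 hR.2⟩) hd1 hd2 v0 (2 * m) hd0 (by
        intro u hu
        have hub : u ∈ ball I (4 * m) v0 := by
          by_contra hcon
          have := hd3 u hcon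
          omega
        simp only [Pi.smul_apply, hxy u hub])
    rw [nrm_smul M hM.le] at hct
    refine le_trans hct (le_of_eq ?_)
    push_cast
    ring
  have hfin := h6 V (fun g => z (M • g) v0) G (ball I (4 * m) v0)
    (2 * M * Real.exp (-(α * (2 * m)))) ε qb (hzc v0) (fun x => (hz _).1 v0) hGm hL0 hε hqb hqb1
    hGc hloc
  have hexp : -ε ^ 2 / (4 * (2 * M * Real.exp (-(α * (2 * m)))) ^ 2) =
      -(ε ^ 2 * Real.exp (4 * α * m) / (16 * M ^ 2)) := by
    have e1 : Real.exp (-(α * (2 * m))) ^ 2 * Real.exp (4 * α * m) = 1 := by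
      rw [← Real.exp_nat_mul, ← Real.exp_add]
      have : (↑(2 : ℕ) : ℝ) * -(α * (2 * m)) + 4 * α * m = 0 := by push_cast; ring
      rw [this, Real.exp_zero]
    have e2 : Real.exp (-(α * (2 * m))) ≠ 0 := (Real.exp_pos _).ne'
    have e3 : Real.exp (4 * α * m) = (Real.exp (-(α * (2 * m))) ^ 2)⁻¹ :=
      eq_inv_of_mul_eq_one_right e1
    rw [e3]
    generalize Real.exp (-(α * (2 * m))) = X at e2
    field_simp
    ring
  rw [hexp] at hfin
  exact hfin

end Pool.Agent.H320R2.LD
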