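import Pool.Agent.H320R2.LD.Defs

/-! Task MAIN (helper204): the main theorem from ITER and ROUND. -/

set_option autoImplicit false

open MeasureTheory ProbabilityTheory Finset

namespace Pool.Agent.H320R2.LD

theorem prove_MAIN (h1 : St_ITER) (h2 : St_ROUND) : St_MAIN := by
  obtain ⟨C, t0, hC, ht0, hI⟩ := h1
  obtain ⟨t1, ht1, hR⟩ := h2
  have hmax : 0 ≤ max t0 t1 := le_trans (by linarith) (le_max_left t0 t1)
  have hmax' : 0 ≤ (max t0 t1) ^ (3 / 2 : ℝ) := Real.rpow_nonneg hmax _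
  refine ⟨C + 10 + (max t0 t1) ^ (3 / 2 : ℝ), by linarith, ?_⟩
  intro t ht V W _ _ A hA
  classical
  by_cases hbig : max t0 t1 ≤ t
  · obtain ⟨a, ha1, ha2, ha3⟩ := hI t ((le_max_left _ _).trans hbig) V W A hA
    have hsq : ∀ R, ∑ v, A R v ^ 2 * (1 - |a v|) ≤ 1 / Real.log t := by
      intro R
      refine le_trans (Finset.sum_le_sum fun v _ => ?_) (ha2 R)
      apply mul_le_mul_of_nonneg_left _ (sq_nonneg _)
      have h0 : 0 ≤ 1 - |a v| := by linarith [ha1 v]
      have h1 : 1 - |a v| ≤ 1 := by linarith [abs_nonneg (a v)]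
      calc 1 - |a v| = Real.sqrt ((1 - |a v|) ^ 2) := (Real.sqrt_sq h0).symm
        _ ≤ Real.sqrt (1 - |a v|) := Real.sqrt_le_sqrt (by nlinarith)
    obtain ⟨x, hx1, hx2⟩ := hR t ((le_max_right _ _).trans hbig) V W A a hA ha1 hsq
    refine ⟨x, hx1, fun R => ?_⟩
    have h3 : ∑ v, A R v * x v = ∑ v, A R v * (x v - a v) + ∑ v, A R v * a v := by
      rw [← Finset.sum_add_distrib]
      exact Finset.sum_congr rfl fun v _ => by ring
    rw [h3]
    refine (abs_add_le _ _).trans ?_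
    linarith [hx2 R, ha3 R]
  · push Not at hbig
    refine ⟨fun _ => 1, fun _ => Or.inl rfl, fun R => ?_⟩
    obtain ⟨hA1, _, _, hA4, _⟩ := hA
    have h1 : ∀ v, |A R v| ≤ 1 := by
      intro v
      have h2 := hA1 R v
      have h3 : A R v ^ 2 ≤ 1 := by nlinarith [sq_nonneg (A R v)]
      exact abs_le_one_iff_mul_self_le_one.2 (by nlinarith)
    have h2 : |∑ v, A R v * 1| ≤ ∑ v ∈ Finset.univ.filter (fun v => A R v ≠ 0), (1 : ℝ) := by
      calc |∑ v, A R v * 1| ≤ ∑ v, |A R v * 1| := Finset.abs_sum_le_sum_abs _ _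
        _ = ∑ v ∈ Finset.univ.filter (fun v => A R v ≠ 0), |A R v * 1| := by
            rw [Finset.sum_filter]
            refine Finset.sum_congr rfl fun v _ => ?_
            split_ifs with h
            · rfl
            · push Not at h
              rw [h]; simp
        _ ≤ _ := Finset.sum_le_sum fun v _ => by rw [mul_one]; exact h1 v
    rw [Finset.sum_const, nsmul_eq_mul, mul_one] at h2
    have h3 : ((Finset.univ.filter (fun v => A R v ≠ 0)).card : ℝ) ≤ t ^ (3 / 2 : ℝ) := by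
      convert hA4 R
    have h4 : t ^ (3 / 2 : ℝ) ≤ (max t0 t1) ^ (3 / 2 : ℝ) :=
      Real.rpow_le_rpow (by linarith) hbig.le (by norm_num)
    linarith

end Pool.Agent.H320R2.LD
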