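import Pool.Agent.H320R2.LD.Defs

set_option autoImplicit false

open MeasureTheory ProbabilityTheory

namespace Pool.Agent.H320R2.LD

theorem MIX.measurable_mix {V : Type} [Fintype V] [DecidableEq V] (S : Finset V) :
    Measurable (fun p : (V → ℝ) × (V → ℝ) => mix S p.1 p.2) := by
  refine measurable_pi_iff.mpr fun v => ?_
  by_cases h : v ∈ S
  · simp only [mix, h, if_true]
    exact (measurable_pi_apply v).comp measurable_fst
  · simp only [mix, h, if_false]
    exact (measurable_pi_apply v).comp measurable_snd

/-- mixing two independent samples -/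
theorem prove_MIX : St_MIX := by
  intro V _ _ ν _ S
  refine ⟨MIX.measurable_mix S, ?_⟩
  symm
  refine Measure.pi_eq fun A hA => ?_
  rw [Measure.map_apply (MIX.measurable_mix S) (MeasurableSet.univ_pi hA)]
  have h1 : (fun p : (V → ℝ) × (V → ℝ) => mix S p.1 p.2) ⁻¹' Set.pi Set.univ A =
      (Set.pi Set.univ fun v => if v ∈ S then A v else Set.univ) ×ˢ
        (Set.pi Set.univ fun v => if v ∈ S then Set.univ else A v) := by
    ext p
    simp only [Set.mem_preimage, Set.mem_pi, Set.mem_univ, true_implies, Set.mem_prod, mix]
    constructor
    · intro h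
      constructor
      · intro v
        have := h v
        by_cases hv : v ∈ S
        · simpa [hv] using this
        · simp [hv]
      · intro v
        have := h v
        by_cases hv : v ∈ S
        · simp [hv]
        · simpa [hv] using this
    · rintro ⟨h, h'⟩ v
      by_cases hv : v ∈ S
      · simpa [hv] using h v
      · simpa [hv] using h' v
  rw [h1, Measure.prod_prod, Measure.pi_pi, Measure.pi_pi, ← Finset.prod_mul_distrib]
  refine Finset.prod_congr rfl fun v _ => ?_
  by_cases hv : v ∈ S
  · simp [hv]
  · simp [hv]

end Pool.Agent.H320R2.LD
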