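import Pool.Agent.H320R2.LD.Defs

set_option autoImplicit false

/-! Task MOM: moments of odd Lipschitz functions. -/

open MeasureTheory ProbabilityTheory

namespace Pool.Agent.H320R2.LD

namespace MOM

theorem neg_preserving (V : Type) [Fintype V] :
    MeasurePreserving (fun x : V → ℝ => -x) (gam V) (gam V) := by
  have h1 : ∀ _ : V, MeasurePreserving (fun x : ℝ => -x) (gaussianReal 0 1) (gaussianReal 0 1) := by
    intro _
    refine ⟨measurable_neg, ?_⟩
    have h2 := gaussianReal_map_neg (μ := 0) (v := 1)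
    simpa using h2
  have h3 := measurePreserving_pi (fun _ : V => gaussianReal 0 1) (fun _ : V => gaussianReal 0 1)
    (f := fun _ x => -x) h1
  exact h3

theorem pow_le_exp (k : ℕ) (x : ℝ) : |x| ^ k ≤ (k.factorial : ℝ) * (Real.exp x + Real.exp (-x)) := by
  have h1 := Real.pow_div_factorial_le_exp |x| (abs_nonneg x) k
  have hk : (0 : ℝ) < k.factorial := by exact_mod_cast k.factorial_pos
  rw [div_le_iff₀ hk] at h1
  have h2 : Real.exp |x| ≤ Real.exp x + Real.exp (-x) := by
    rcases le_total 0 x with h | h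
    · rw [abs_of_nonneg h]; linarith [Real.exp_pos (-x)]
    · rw [abs_of_nonpos h]; linarith [Real.exp_pos x]
  calc |x| ^ k ≤ Real.exp |x| * k.factorial := h1
    _ ≤ (Real.exp x + Real.exp (-x)) * k.factorial := by gcongr
    _ = _ := by ring

end MOM

theorem prove_MOM (h1 : St_MGF) : St_MOM := by
  refine ⟨(Nat.factorial 8 : ℝ) * (2 * Real.exp 1), by positivity, ?_⟩
  intro V _ f L hL hf hodd
  obtain ⟨hint, hexp, hmgf⟩ := h1 V f L hL hf
  have hmp := MOM.neg_preserving V
  have h0 : ∫ x, f x ∂(gam V) = 0 := by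
    have h2 : ∫ x, f (-x) ∂(gam V) = ∫ x, f x ∂(gam V) :=
      hmp.integral_comp (Homeomorph.neg (V → ℝ)).measurableEmbedding f
    simp_rw [hodd, integral_neg] at h2
    linarith
  have hL' : L ≠ 0 := hL.ne'
  have hp : Integrable (fun x => Real.exp (L⁻¹ * f x)) (gam V) := hexp L⁻¹
  have hm : Integrable (fun x => Real.exp (-(L⁻¹ * f x))) (gam V) := by
    have := hexp (-L⁻¹)
    simpa [neg_mul] using this
  have hpI : ∫ x, Real.exp (L⁻¹ * f x) ∂(gam V) ≤ Real.exp 1 := by
    have h2 := hmgf L⁻¹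
    rw [h0] at h2
    simp only [sub_zero] at h2
    have h3 : L⁻¹ ^ 2 * L ^ 2 = 1 := by field_simp
    rwa [h3] at h2
  have hmI : ∫ x, Real.exp (-(L⁻¹ * f x)) ∂(gam V) ≤ Real.exp 1 := by
    have h2 := hmgf (-L⁻¹)
    rw [h0] at h2
    simp only [sub_zero, neg_mul] at h2
    have h3 : (-L⁻¹) ^ 2 * L ^ 2 = 1 := by field_simp
    rwa [h3] at h2
  have hbd : ∀ k : ℕ, ∀ x, |f x| ^ k ≤
      L ^ k * ((k.factorial : ℝ) * (Real.exp (L⁻¹ * f x) + Real.exp (-(L⁻¹ * f x)))) := by
    intro k x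
    have h2 := MOM.pow_le_exp k (L⁻¹ * f x)
    have h3 : |L⁻¹ * f x| ^ k * L ^ k = |f x| ^ k := by
      rw [← mul_pow, abs_mul, abs_of_pos (inv_pos.2 hL)]
      congr 1
      field_simp
    rw [← h3, mul_comm]
    exact mul_le_mul_of_nonneg_left h2 (by positivity)
  have hIbd : ∀ k : ℕ, Integrable (fun x => L ^ k * ((k.factorial : ℝ) *
      (Real.exp (L⁻¹ * f x) + Real.exp (-(L⁻¹ * f x))))) (gam V) :=
    fun k => ((hp.add hm).const_mul _).const_mul _
  have hIabs : ∀ k : ℕ, Integrable (fun x => |f x| ^ k) (gam V) := by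
    intro k
    refine (hIbd k).mono' (hint.abs.aestronglyMeasurable.pow k) ?_
    refine Filter.Eventually.of_forall fun x => ?_
    rw [Real.norm_eq_abs, abs_of_nonneg (by positivity)]
    exact hbd k x
  have hval : ∀ k : ℕ, ∫ x, |f x| ^ k ∂(gam V) ≤ L ^ k * ((k.factorial : ℝ) * (2 * Real.exp 1)) := by
    intro k
    refine (integral_mono (hIabs k) (hIbd k) (hbd k)).trans ?_
    rw [integral_const_mul, integral_const_mul, integral_add hp hm]
    gcongr
    linarith
  have h8 : (fun x => f x ^ 8) = fun x => |f x| ^ 8 := by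
    funext x
    exact (Even.pow_abs (by decide) _).symm
  have h2' : (fun x => f x ^ 2) = fun x => |f x| ^ 2 := by
    funext x
    exact (Even.pow_abs (by decide) _).symm
  refine ⟨h0, ?_, ?_, ?_, ?_⟩
  · rw [h8]; exact hIabs 8
  · have h3 : ∫ x, f x ^ 8 ∂(gam V) = ∫ x, |f x| ^ 8 ∂(gam V) := by rw [h8]
    rw [h3]
    refine (hval 8).trans (le_of_eq ?_)
    ring
  · rw [h2']; exact hIabs 2
  · have h3 : ∫ x, f x ^ 2 ∂(gam V) = ∫ x, |f x| ^ 2 ∂(gam V) := by rw [h2']
    rw [h3]
    refine (hval 2).trans ?_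
    have he := Real.exp_one_lt_d9
    have hL2 : 0 < L ^ 2 := by positivity
    have hf2 : ((Nat.factorial 2 : ℕ) : ℝ) = 2 := by norm_num [Nat.factorial]
    rw [hf2]
    nlinarith

end Pool.Agent.H320R2.LD
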