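import Pool.Agent.H320R2.LD.Defs

set_option autoImplicit false

open Classical

namespace Pool.Agent.H320R2.LD

namespace OP

/-- sum of absolute values on a support of size at most `D` -/
theorem sum_abs_le {ι : Type} [Fintype ι] (f : ι → ℝ) (D c : ℝ) (hD : 0 ≤ D)
    (h1 : ((Finset.univ.filter (fun i => f i ≠ 0)).card : ℝ) ≤ D)
    (h2 : ∑ i, f i ^ 2 ≤ c) : ∑ i, |f i| ≤ Real.sqrt D * Real.sqrt c := by
  set S := Finset.univ.filter (fun i => f i ≠ 0) with hS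
  have e1 : ∑ i, |f i| = ∑ i ∈ S, |f i| := by
    rw [hS, Finset.sum_filter]
    refine Finset.sum_congr rfl fun i _ => ?_
    by_cases h : f i = 0 <;> simp [h]
  have e2 : (∑ i ∈ S, |f i|) ^ 2 ≤ D * c := by
    have h3 : (∑ i ∈ S, |f i|) ^ 2 ≤ (S.card : ℝ) * ∑ i ∈ S, |f i| ^ 2 :=
      sq_sum_le_card_mul_sum_sq
    have h4 : ∑ i ∈ S, |f i| ^ 2 ≤ c := by
      refine le_trans ?_ h2
      calc ∑ i ∈ S, |f i| ^ 2 = ∑ i ∈ S, f i ^ 2 := by simp
        _ ≤ ∑ i, f i ^ 2 :=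
          Finset.sum_le_univ_sum_of_nonneg (fun i => sq_nonneg _)
    have h5 : 0 ≤ ∑ i ∈ S, |f i| ^ 2 := Finset.sum_nonneg fun i _ => sq_nonneg _
    calc (∑ i ∈ S, |f i|) ^ 2 ≤ (S.card : ℝ) * ∑ i ∈ S, |f i| ^ 2 := h3
      _ ≤ D * c := mul_le_mul h1 h4 h5 hD
  rw [e1, ← Real.sqrt_mul hD]
  exact Real.le_sqrt_of_sq_le e2

end OP

open OP in
theorem prove_OP : St_OP := by
  intro V W _ _ b D c hD hc hR hV h1 h2 x
  have r1 : ∀ R, ∑ v, |b R v| ≤ Real.sqrt D := fun R => by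
    have := sum_abs_le (b R) D 1 hD (hR R) (h1 R)
    simpa using this
  have r2 : ∀ v, ∑ R, |b R v| ≤ Real.sqrt D * Real.sqrt c := fun v =>
    sum_abs_le (fun R => b R v) D c hD (hV v) (h2 v)
  have r3 : ∀ R, (∑ v, |b R v| * |x v|) ^ 2 ≤ Real.sqrt D * ∑ v, |b R v| * x v ^ 2 := by
    intro R
    have cs := Finset.sum_mul_sq_le_sq_mul_sq Finset.univ (fun v => Real.sqrt |b R v|)
      (fun v => Real.sqrt |b R v| * |x v|)
    have e1 : ∀ v, Real.sqrt |b R v| * (Real.sqrt |b R v| * |x v|) = |b R v| * |x v| := by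
      intro v
      rw [← mul_assoc, Real.mul_self_sqrt (abs_nonneg _)]
    have e2 : ∀ v, Real.sqrt |b R v| ^ 2 = |b R v| := fun v => Real.sq_sqrt (abs_nonneg _)
    have e3 : ∀ v, (Real.sqrt |b R v| * |x v|) ^ 2 = |b R v| * x v ^ 2 := by
      intro v
      rw [mul_pow, Real.sq_sqrt (abs_nonneg _), sq_abs]
    simp only [e1, e2, e3] at cs
    refine cs.trans ?_
    exact mul_le_mul_of_nonneg_right (r1 R)
      (Finset.sum_nonneg fun v _ => mul_nonneg (abs_nonneg _) (sq_nonneg _))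
  calc ∑ R, (∑ v, |b R v| * |x v|) ^ 2
      ≤ ∑ R, Real.sqrt D * ∑ v, |b R v| * x v ^ 2 := Finset.sum_le_sum fun R _ => r3 R
    _ = Real.sqrt D * ∑ v, (∑ R, |b R v|) * x v ^ 2 := by
        rw [← Finset.mul_sum, Finset.sum_comm]
        congr 1
        refine Finset.sum_congr rfl fun v _ => ?_
        rw [Finset.sum_mul]
    _ ≤ Real.sqrt D * ∑ v, (Real.sqrt D * Real.sqrt c) * x v ^ 2 := by
        refine mul_le_mul_of_nonneg_left ?_ (Real.sqrt_nonneg _)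
        exact Finset.sum_le_sum fun v _ => mul_le_mul_of_nonneg_right (r2 v) (sq_nonneg _)
    _ = (D * Real.sqrt c) * nsq x := by
        rw [← Finset.mul_sum, nsq, ← mul_assoc, ← mul_assoc, Real.mul_self_sqrt hD]

end Pool.Agent.H320R2.LD
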