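import Pool.Agent.H320R2.LD.Defs

set_option autoImplicit false
set_option linter.unusedSectionVars false

open MeasureTheory ProbabilityTheory

namespace Pool.Agent.H320R2.LD.PHASE

noncomputable section

lemma nsq_nonneg {V : Type} [Fintype V] (x : V → ℝ) : 0 ≤ nsq x :=
  Finset.sum_nonneg fun _ _ => sq_nonneg _

lemma nrm_nonneg {V : Type} [Fintype V] (x : V → ℝ) : 0 ≤ nrm x := Real.sqrt_nonneg _

lemma nrm_smul {V : Type} [Fintype V] (c : ℝ) (x : V → ℝ) : nrm (c • x) = |c| * nrm x := by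
  unfold nrm nsq
  rw [← Real.sqrt_sq_eq_abs, ← Real.sqrt_mul (sq_nonneg c)]
  congr 1
  rw [Finset.mul_sum]
  refine Finset.sum_congr rfl fun v _ => ?_
  simp [mul_pow]

lemma nrm_continuous {V : Type} [Fintype V] : Continuous (nrm (V := V)) := by
  unfold nrm nsq
  fun_prop

lemma lip_continuous {V : Type} [Fintype V] {L : ℝ} {f : (V → ℝ) → ℝ} (h : Lip L f) :
    Continuous f := by
  rw [continuous_iff_continuousAt]
  intro x
  rw [ContinuousAt, tendsto_iff_dist_tendsto_zero]
  have h1 : Filter.Tendsto (fun y : V → ℝ => L * nrm (y - x)) (nhds x) (nhds 0) := by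
    have h2 : Continuous (fun y : V → ℝ => L * nrm (y - x)) :=
      continuous_const.mul (nrm_continuous.comp (continuous_id.sub continuous_const))
    have h3 := h2.tendsto x
    have h4 : L * nrm (x - x) = 0 := by
      simp [nrm, nsq]
    rwa [h4] at h3
  refine squeeze_zero (fun y => dist_nonneg) (fun y => ?_) h1
  rw [Real.dist_eq]
  exact h y x

lemma mix_sub {V : Type} [Fintype V] [DecidableEq V] (S : Finset V) (g g' h : V → ℝ) :
    nrm (mix S g h - mix S g' h) ≤ nrm (g - g') := by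
  unfold nrm nsq
  refine Real.sqrt_le_sqrt (Finset.sum_le_sum fun v _ => ?_)
  simp only [mix, Pi.sub_apply]
  split_ifs
  · exact le_rfl
  · simp [sq_nonneg]

lemma mix_continuous {V : Type} [Fintype V] [DecidableEq V] (S : Finset V) (g : V → ℝ) :
    Continuous (fun g' => mix S g g') := by
  refine continuous_pi fun v => ?_
  unfold mix
  split_ifs
  · exact continuous_const
  · exact continuous_apply v

lemma Gp_lip (x y : ℝ) : |Gp x - Gp y| ≤ 10 * |x - y| := by
  unfold Gp
  refine (abs_min_sub_min_le_max _ _ _ _).trans ?_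
  rw [sub_self, abs_zero]
  refine max_le (by positivity) ?_
  rw [show (1/40 + 10 * (1 - x) - (1/40 + 10 * (1 - y)) : ℝ) = -(10 * (x - y)) by ring, abs_neg,
    abs_mul, abs_of_pos (by norm_num : (0:ℝ) < 10)]

lemma sqrt_le_Gp (x : ℝ) (h1 : -1 ≤ x) (h2 : x ≤ 1) : Real.sqrt (1 - x) ≤ Gp x := by
  unfold Gp
  refine le_min (Real.sqrt_le_sqrt (by linarith)) ?_
  have h3 : 0 ≤ 1 - x := by linarith
  have h4 := Real.sq_sqrt h3
  nlinarith [sq_nonneg (Real.sqrt (1 - x) - 1/20), Real.sqrt_nonneg (1 - x)]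

lemma Gp_bdd (x : ℝ) (h2 : |x| ≤ 1) : |Gp x| ≤ 2 := by
  have h3 := sqrt_le_Gp x (abs_le.1 h2).1 (abs_le.1 h2).2
  have h4 : 0 ≤ Gp x := (Real.sqrt_nonneg _).trans h3
  rw [abs_of_nonneg h4]
  unfold Gp
  refine (min_le_left _ _).trans ?_
  rw [Real.sqrt_le_left (by norm_num)]
  norm_num

lemma Gp_continuous : Continuous Gp := by
  unfold Gp
  fun_prop

/-- Cauchy–Schwarz in the form used below. -/
lemma abs_sum_mul_le {V : Type} [Fintype V] (c x : V → ℝ) (B : ℝ) (hB : 0 ≤ B)
    (hc : ∑ v, c v ^ 2 ≤ B ^ 2) :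
    |∑ v, c v * x v| ≤ B * nrm x := by
  have h1 : (∑ v, c v * x v) ^ 2 ≤ (∑ v, c v ^ 2) * ∑ v, x v ^ 2 :=
    Finset.sum_mul_sq_le_sq_mul_sq _ _ _
  have h2 : (∑ v, c v * x v) ^ 2 ≤ (B * nrm x) ^ 2 := by
    refine h1.trans ?_
    rw [mul_pow]
    unfold nrm
    rw [Real.sq_sqrt (nsq_nonneg x)]
    exact mul_le_mul_of_nonneg_right hc (nsq_nonneg x)
  exact abs_le_of_sq_le_sq h2 (mul_nonneg hB (nrm_nonneg x))

section setup

variable {V W : Type} [Fintype V] [Fintype W] (A : W → V → ℝ) (a : V → ℝ) (t s : ℝ)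

def rho (v : V) : ℝ := 1 - |a v|

open Classical in
def sg (v : V) : ℝ := if 0 ≤ a v then 1 else -1

def bb (R : W) (v : V) : ℝ := A R v * rho a v / Real.sqrt s

lemma sg_cases (v : V) : sg a v = 1 ∨ sg a v = -1 := by
  unfold sg; split_ifs <;> simp

lemma sg_mul (v : V) : sg a v * a v = |a v| := by
  unfold sg
  split_ifs with h
  · rw [one_mul, abs_of_nonneg h]
  · rw [abs_of_neg (not_le.1 h)]; ring

lemma sg_abs (v : V) : |sg a v| = 1 := by
  rcases sg_cases a v with h | h <;> rw [h] <;> simp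

variable {a}

lemma rho_nonneg (ha : ∀ v, |a v| ≤ 1) (v : V) : 0 ≤ rho a v := by
  unfold rho; linarith [ha v]

lemma rho_le_one (v : V) : rho a v ≤ 1 := by
  unfold rho; linarith [abs_nonneg (a v)]

lemma rho_le_sqrt (ha : ∀ v, |a v| ≤ 1) (v : V) : rho a v ≤ Real.sqrt (rho a v) := by
  have h1 := rho_nonneg ha v
  have h2 := rho_le_one (a := a) v
  have h3 : Real.sqrt (rho a v) ≤ 1 := by rw [Real.sqrt_le_one]; exact h2
  have h4 := Real.sq_sqrt h1
  nlinarith [Real.sqrt_nonneg (rho a v)]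

lemma rho_sq_le_sqrt (ha : ∀ v, |a v| ≤ 1) (v : V) : rho a v ^ 2 ≤ Real.sqrt (rho a v) := by
  have h1 := rho_nonneg ha v
  have h2 := rho_le_one (a := a) v
  have h3 := rho_le_sqrt ha v
  nlinarith

variable {A s}

lemma bb_row (ha : ∀ v, |a v| ≤ 1) (hs : 0 < s) (R : W) (h : Phi A a R ≤ s) :
    ∑ v, bb A a s R v ^ 2 ≤ 1 := by
  have h1 : ∑ v, bb A a s R v ^ 2 = (∑ v, A R v ^ 2 * rho a v ^ 2) / s := by
    rw [Finset.sum_div]
    refine Finset.sum_congr rfl fun v _ => ?_
    unfold bb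
    rw [div_pow, Real.sq_sqrt hs.le, mul_pow]
  rw [h1, div_le_one hs]
  refine le_trans (Finset.sum_le_sum fun v _ => ?_) h
  exact mul_le_mul_of_nonneg_left (rho_sq_le_sqrt ha v) (sq_nonneg _)

lemma bb_col (ha : ∀ v, |a v| ≤ 1) (hs : 0 < s) (v : V) (h : ∑ R, A R v ^ 2 ≤ 1) :
    ∑ R, bb A a s R v ^ 2 ≤ 1 / s := by
  have h1 : ∑ R, bb A a s R v ^ 2 = (∑ R, A R v ^ 2 * rho a v ^ 2) / s := by
    rw [Finset.sum_div]
    refine Finset.sum_congr rfl fun R _ => ?_
    unfold bb
    rw [div_pow, Real.sq_sqrt hs.le, mul_pow]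
  rw [h1]
  gcongr
  refine le_trans (Finset.sum_le_sum fun R _ => ?_) h
  have h1 := rho_nonneg ha v
  have h2 := rho_le_one (a := a) v
  exact mul_le_of_le_one_right (sq_nonneg _) (by nlinarith)

lemma bb_supp (R : W) (v : V) (h : bb A a s R v ≠ 0) : A R v ≠ 0 := by
  intro h0
  apply h
  unfold bb
  rw [h0]; simp

/-- progress functional -/
def FF (A : W → V → ℝ) (a : V → ℝ) (R : W) (x : V → ℝ) : ℝ :=
  ∑ v, A R v ^ 2 * Real.sqrt (rho a v) * Gp (sg a v * x v)

lemma FF_lip (ht : 0 < t) (ha : ∀ v, |a v| ≤ 1) (hs : 0 < s) (hA : ∀ R v, A R v ^ 2 * t ≤ 1)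
    (R : W) (h : Phi A a R ≤ s) (x y : V → ℝ) :
    |FF A a R x - FF A a R y| ≤ 10 * Real.sqrt (s / t) * nrm (x - y) := by
  have h1 : |FF A a R x - FF A a R y| ≤
      abs (∑ v, (10 * (A R v ^ 2 * Real.sqrt (rho a v))) * abs (x v - y v)) := by
    refine le_trans ?_ (le_abs_self _)
    unfold FF
    rw [← Finset.sum_sub_distrib]
    refine (Finset.abs_sum_le_sum_abs _ _).trans (Finset.sum_le_sum fun v _ => ?_)
    rw [← mul_sub, abs_mul, abs_of_nonneg (by positivity :
      0 ≤ A R v ^ 2 * Real.sqrt (rho a v))]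
    have h2 := Gp_lip (sg a v * x v) (sg a v * y v)
    rw [← mul_sub, abs_mul, sg_abs, one_mul] at h2
    have h3 : 0 ≤ A R v ^ 2 * Real.sqrt (rho a v) := by positivity
    nlinarith
  refine h1.trans ?_
  have h4 := abs_sum_mul_le (fun v => 10 * (A R v ^ 2 * Real.sqrt (rho a v)))
    (fun v => |x v - y v|) (10 * Real.sqrt (s / t)) (by positivity) ?_
  · refine h4.trans (le_of_eq ?_)
    congr 1
    unfold nrm nsq
    congr 1
    refine Finset.sum_congr rfl fun v _ => ?_
    simp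
  · rw [mul_pow, Real.sq_sqrt (by positivity)]
    have h5 : ∑ v, (10 * (A R v ^ 2 * Real.sqrt (rho a v))) ^ 2 ≤
        ∑ v, 10 ^ 2 * ((1 / t) * (A R v ^ 2 * Real.sqrt (1 - |a v|))) := by
      refine Finset.sum_le_sum fun v _ => ?_
      have h6 : (A R v ^ 2) ≤ 1 / t := by
        rw [le_div_iff₀ ht]; exact hA R v
      have h7 := rho_le_sqrt ha v
      have h8 := Real.sq_sqrt (rho_nonneg ha v)
      have h9 : 0 ≤ A R v ^ 2 := sq_nonneg _
      rw [mul_pow, mul_pow, h8]
      have h10 : rho a v ≤ Real.sqrt (1 - |a v|) := h7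
      have h11 := rho_nonneg ha v
      have h12 : (A R v ^ 2) ^ 2 * rho a v ≤ (1 / t) * (A R v ^ 2 * Real.sqrt (1 - |a v|)) := by
        calc (A R v ^ 2) ^ 2 * rho a v = (A R v ^ 2) * (A R v ^ 2 * rho a v) := by ring
          _ ≤ (1 / t) * (A R v ^ 2 * rho a v) :=
              mul_le_mul_of_nonneg_right h6 (mul_nonneg h9 h11)
          _ ≤ (1 / t) * (A R v ^ 2 * Real.sqrt (1 - |a v|)) :=
              mul_le_mul_of_nonneg_left (mul_le_mul_of_nonneg_left h10 h9) (by positivity)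
      linarith
    refine h5.trans ?_
    rw [← Finset.mul_sum, ← Finset.mul_sum]
    have h13 : ∑ v, A R v ^ 2 * Real.sqrt (1 - |a v|) ≤ s := h
    have h14 : (1 / t) * ∑ v, A R v ^ 2 * Real.sqrt (1 - |a v|) ≤ s / t := by
      rw [div_mul_eq_mul_div, one_mul]
      gcongr
    linarith

/-- the new state -/
def nw (a : V → ℝ) (x : V → ℝ) (v : V) : ℝ := a v + rho a v * x v

lemma nw_abs (ha : ∀ v, |a v| ≤ 1) (x : V → ℝ) (hx : ∀ v, |x v| ≤ 1) (v : V) :
    |nw a x v| ≤ 1 := by
  unfold nw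
  have h1 := rho_nonneg ha v
  calc |a v + rho a v * x v| ≤ |a v| + |rho a v * x v| := abs_add_le _ _
    _ ≤ |a v| + rho a v * 1 := by
        rw [abs_mul, abs_of_nonneg h1]
        have := mul_le_mul_of_nonneg_left (hx v) h1
        linarith
    _ = 1 := by unfold rho; ring

lemma nw_Phi (ha : ∀ v, |a v| ≤ 1) (x : V → ℝ) (hx : ∀ v, |x v| ≤ 1) (R : W) :
    Phi A (nw a x) R ≤ FF A a R x := by
  unfold Phi FF
  refine Finset.sum_le_sum fun v _ => ?_
  rw [mul_assoc]
  refine mul_le_mul_of_nonneg_left ?_ (sq_nonneg _)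
  have h1 := rho_nonneg ha v
  have hsx : |sg a v * x v| ≤ 1 := by rw [abs_mul, sg_abs, one_mul]; exact hx v
  have h2 : 1 - |nw a x v| ≤ rho a v * (1 - sg a v * x v) := by
    have h3 : sg a v * nw a x v ≤ |nw a x v| := by
      have := le_abs_self (sg a v * nw a x v)
      rwa [abs_mul, sg_abs, one_mul] at this
    have h4 : sg a v * nw a x v = |a v| + rho a v * (sg a v * x v) := by
      unfold nw
      rw [mul_add, sg_mul]; ring
    rw [h4] at h3
    unfold rho at *
    nlinarith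
  calc Real.sqrt (1 - |nw a x v|) ≤ Real.sqrt (rho a v * (1 - sg a v * x v)) :=
        Real.sqrt_le_sqrt h2
    _ = Real.sqrt (rho a v) * Real.sqrt (1 - sg a v * x v) := Real.sqrt_mul h1 _
    _ ≤ Real.sqrt (rho a v) * Gp (sg a v * x v) :=
        mul_le_mul_of_nonneg_left (sqrt_le_Gp _ (abs_le.1 hsx).1 (abs_le.1 hsx).2)
          (Real.sqrt_nonneg _)

lemma nw_disc (hs : 0 < s) (x : V → ℝ) (R : W) :
    ∑ v, A R v * (nw a x v - a v) = Real.sqrt s * eta (bb A a s) x R := by
  unfold eta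
  rw [Finset.mul_sum]
  refine Finset.sum_congr rfl fun v _ => ?_
  unfold nw bb
  have : Real.sqrt s ≠ 0 := (Real.sqrt_pos.2 hs).ne'
  field_simp
  ring

end setup

section core

variable {V W : Type} [Fintype V] [Fintype W] [DecidableEq V]

/-- the local approximation -/
def XX (z : (V → ℝ) → (V → ℝ)) (M : ℝ) (B : Finset V) (v : V) (g : V → ℝ) : ℝ :=
  ∫ g', z (M • mix B g g') v ∂(gam V)

variable {z : (V → ℝ) → (V → ℝ)} {M : ℝ}

lemma zM_lip (hM : 0 < M) (hz : ∀ v y y', |z y' v - z y v| ≤ nrm (y' - y)) (v : V) :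
    Lip M (fun g => z (M • g) v) := by
  intro x y
  have h1 := hz v (M • y) (M • x)
  rw [← smul_sub, nrm_smul, abs_of_pos hM] at h1
  exact h1

lemma XX_int (hM : 0 < M) (hz : ∀ v y y', |z y' v - z y v| ≤ nrm (y' - y))
    (hb : ∀ y v, |z y v| ≤ 1) (B : Finset V) (v : V) (g : V → ℝ) :
    Integrable (fun g' => z (M • mix B g g') v) (gam V) := by
  refine Integrable.of_bound (C := 1) ?_ ?_
  · exact (((lip_continuous (zM_lip hM hz v)).comp (mix_continuous B g))).aestronglyMeasurable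
  · exact Filter.Eventually.of_forall fun g' => by rw [Real.norm_eq_abs]; exact hb _ _

lemma XX_lip (hM : 0 < M) (hz : ∀ v y y', |z y' v - z y v| ≤ nrm (y' - y))
    (hb : ∀ y v, |z y v| ≤ 1) (B : Finset V) (v : V) : Lip M (XX z M B v) := by
  intro x y
  unfold XX
  rw [← integral_sub (XX_int hM hz hb B v x) (XX_int hM hz hb B v y), ← Real.norm_eq_abs]
  refine (norm_integral_le_of_norm_le_const (μ := gam V) (C := M * nrm (x - y)) ?_).trans ?_
  · refine Filter.Eventually.of_forall fun g' => ?_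
    have h1 := zM_lip hM hz v (mix B x g') (mix B y g')
    rw [Real.norm_eq_abs]
    refine h1.trans ?_
    exact mul_le_mul_of_nonneg_left (mix_sub B x y g') hM.le
  · simp

lemma XX_abs (hb : ∀ y v, |z y v| ≤ 1) (B : Finset V) (v : V) (g : V → ℝ) :
    |XX z M B v g| ≤ 1 := by
  unfold XX
  rw [← Real.norm_eq_abs]
  refine (norm_integral_le_of_norm_le_const (μ := gam V) (C := 1) ?_).trans ?_
  · exact Filter.Eventually.of_forall fun g' => by rw [Real.norm_eq_abs]; exact hb _ _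
  · simp

lemma XX_dep (B : Finset V) (v : V) (x y : V → ℝ) (h : ∀ u ∈ B, x u = y u) :
    XX z M B v x = XX z M B v y := by
  unfold XX
  congr 1
  funext g'
  congr 2
  funext u
  unfold mix
  split_ifs with hu
  · exact h u hu
  · rfl

end core

open Classical in
/-- The assembly with explicit parameters. -/
theorem core_phase (hSOL : St_SOL) (hLOC : St_LOC) (hOP : St_OP)
    (hDEP : St_DEP) (hLLL : St_LLL) (hFAR : St_FAR) (hMEAN : St_MEAN) (hGEX : St_GEX)
    (hCONC : St_CONC)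
    {V W : Type} [Fintype V] [Fintype W] (A : W → V → ℝ) (a : V → ℝ) (t s : ℝ)
    (hA : Adm t A) (ha : ∀ v, |a v| ≤ 1) (hPhi : ∀ R, Phi A a R ≤ s)
    (ht : 1000 ≤ t) (hs : 0 < s) (hs1 : s ≤ 1) (M K w0 α q qb ε c Ch : ℝ) (D m : ℕ)
    (hM : M = 400) (hK : 1 ≤ K) (hw0 : 0 < w0) (hw1 : w0 ≤ 1) (hw2 : w0 ≤ 1/1000)
    (hc : c = 1 / 10 ^ 12)
    (hq : 2 * (1 + 2 * M) ≤ q) (hqw : w0 ≤ q⁻¹) (hα : 0 < α) (hα1 : α ≤ 1) (hm : 1 ≤ m)
    (hD : (D : ℕ) = ⌊t ^ (3/2 : ℝ)⌋₊)
    (hCT : 8 * α ^ 2 * q ^ 4 * ((D : ℝ) * Real.sqrt (1 / s)) ≤ 1)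
    (hqb : 0 < qb) (hqb1 : qb ≤ 1) (hε : 0 < ε)
    (hpath : (2 * (D : ℝ) ^ 2) ^ (4 * m) * Real.exp (-(m : ℝ) * q ^ 2 / (4 * M ^ 2)) ≤ qb ^ 2)
    (hεq : ε + 2 * qb ≤ 1 / t)
    (hDt : Real.sqrt D / t ≤ 1)
    (hCh : 0 < Ch) (hEH : ∀ (z : (V → ℝ) → (V → ℝ)),
      (∀ y, VI (bb A a s) (pf K w0) y (z y)) → ∀ R,
      Integrable (fun g => hf K w0 (eta (bb A a s) (z (M • g)) R)) (gam V) ∧
      ∫ g, hf K w0 (eta (bb A a s) (z (M • g)) R) ∂(gam V) ≤ Ch * (K⁻¹) ^ 4)
    (hKs : 16 * ((1 / s) * (Ch * (K⁻¹) ^ 4)) ≤ 1 / 1000)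
    (hfin : 4 * (Real.exp (-(c * (s * t))) + 2 * Real.exp (-((w0⁻¹) ^ 4 / M ^ 2))
      + D * (2 * qb + 2 * Real.exp (-(ε ^ 2 * Real.exp (4 * α * m) / (16 * M ^ 2)))))
      * (((D ^ 2 + 1) ^ (2 * (4 * m) + 1) : ℕ) : ℝ) ≤ 1)
    (z : (V → ℝ) → (V → ℝ)) (hz : ∀ y, VI (bb A a s) (pf K w0) y (z y)) :
    ∃ a' : V → ℝ, (∀ v, |a' v| ≤ 1) ∧ (∀ R, Phi A a' R ≤ 77/100 * s) ∧
      ∀ R, |∑ v, A R v * (a' v - a v)| ≤ (K + 3) * Real.sqrt s := by
  have hM0 : 0 < M := by rw [hM]; norm_num
  have ht0 : 0 < t := by linarith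
  obtain ⟨hA1, hA2, hA3, hA4, hA5⟩ := hA
  set b := bb A a s with hb
  have hbrow : ∀ R, ∑ v, b R v ^ 2 ≤ 1 := fun R => bb_row ha hs R (hPhi R)
  have hbcol : ∀ v, ∑ R, b R v ^ 2 ≤ 1 / s := fun v => bb_col ha hs v (hA3 v)
  obtain ⟨hodd, hlip, hlipv, hlipR, -, -⟩ := hSOL V W b K w0 z hK hw0 hw1 hz
  have hzb : ∀ y v, |z y v| ≤ 1 := fun y v => (hz y).1 v
  -- supports
  obtain ⟨I, hI⟩ : ∃ I : W → V → Prop, ∀ R v, I R v ↔ A R v ≠ 0 := ⟨_, fun _ _ => Iff.rfl⟩
  have hbI : ∀ R v, b R v ≠ 0 → I R v := fun R v h => (hI R v).2 (bb_supp R v h)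
  have hAI : ∀ R v, ¬ I R v → A R v = 0 := fun R v h => by
    by_contra h0
    exact h ((hI R v).2 h0)
  have hcardR : ∀ R, (Finset.univ.filter (fun v => I R v)).card ≤ D := by
    intro R
    rw [hD]
    refine Nat.le_floor ?_
    simp_rw [hI]
    convert hA4 R using 2
  have hcardV : ∀ v, (Finset.univ.filter (fun R => I R v)).card ≤ D := by
    intro v
    rw [hD]
    refine Nat.le_floor ?_
    simp_rw [hI]
    convert hA5 v using 2
  have hncR : ∀ R, {v | I R v}.ncard ≤ D := by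
    intro R
    rw [Set.ncard_eq_toFinset_card']
    convert hcardR R using 2
    ext v; simp
  have hncV : ∀ v, {R | I R v}.ncard ≤ D := by
    intro v
    rw [Set.ncard_eq_toFinset_card']
    convert hcardV v using 2
    ext R; simp
  have hbcR : ∀ R, ((Finset.univ.filter (fun v => b R v ≠ 0)).card : ℝ) ≤ (D : ℝ) := by
    intro R
    have h1 : (Finset.univ.filter (fun v => b R v ≠ 0)).card ≤
        (Finset.univ.filter (fun v => I R v)).card :=
      Finset.card_le_card fun v hv => by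
        rw [Finset.mem_filter] at hv ⊢
        exact ⟨hv.1, hbI R v hv.2⟩
    exact_mod_cast h1.trans (hcardR R)
  have hbcV : ∀ v, ((Finset.univ.filter (fun R => b R v ≠ 0)).card : ℝ) ≤ (D : ℝ) := by
    intro v
    have h1 : (Finset.univ.filter (fun R => b R v ≠ 0)).card ≤
        (Finset.univ.filter (fun R => I R v)).card :=
      Finset.card_le_card fun R hR => by
        rw [Finset.mem_filter] at hR ⊢
        exact ⟨hR.1, hbI R v hR.2⟩
    exact_mod_cast h1.trans (hcardV v)
  have hOPb := hOP V W b D (1 / s) (Nat.cast_nonneg D) (by positivity) hbcR hbcV hbrow hbcol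
  -- locality
  set X : V → (V → ℝ) → ℝ := fun v => XX z M (ball I (4 * m) v) v with hX
  set δ1 : ℝ := 2 * qb + 2 * Real.exp (-(ε ^ 2 * Real.exp (4 * α * m) / (16 * M ^ 2))) with hδ1
  have hloc : ∀ v, (gam V).real {g | ε + 2 * qb < |X v g - z (M • g) v|} ≤ δ1 := by
    intro v
    exact hLOC V W b K w0 M α q qb ε ((D : ℝ) * Real.sqrt (1 / s)) D m z I hK hw0 hw1 hz hbI
      hncR hncV hM0 hα hα1 hq hqw (by positivity) hOPb hCT hqb hqb1 hε hm hpath v
  -- expected free mass
  have hfree : ∀ v, ∫ g, (1 - |z (M • g) v|) ∂(gam V) ≤ 6 / 1000 := by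
    intro v
    have h1 := hMEAN V W b K w0 M (w0 / 2) z hK hw0 hw1 hbrow hz hM0 (by positivity) le_rfl
      (fun R => (hEH z hz R).1) v
    have h2 : ∑ R, b R v ^ 2 * ∫ g, hf K w0 (eta b (z (M • g)) R) ∂(gam V) ≤
        (1 / s) * (Ch * (K⁻¹) ^ 4) := by
      calc ∑ R, b R v ^ 2 * ∫ g, hf K w0 (eta b (z (M • g)) R) ∂(gam V)
          ≤ ∑ R, b R v ^ 2 * (Ch * (K⁻¹) ^ 4) :=
            Finset.sum_le_sum fun R _ =>
              mul_le_mul_of_nonneg_left (hEH z hz R).2 (sq_nonneg _)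
        _ = (∑ R, b R v ^ 2) * (Ch * (K⁻¹) ^ 4) := by rw [Finset.sum_mul]
        _ ≤ (1 / s) * (Ch * (K⁻¹) ^ 4) :=
            mul_le_mul_of_nonneg_right (hbcol v) (by positivity)
    have h3 : (1 : ℝ) / M = 1 / 400 := by rw [hM]
    rw [h3] at h1
    linarith
  have hzc : ∀ v, Continuous (fun g => z (M • g) v) := fun v =>
    lip_continuous (zM_lip hM0 hlipv v)
  have hG : ∀ v, ∫ g, Gp (sg a v * z (M • g) v) ∂(gam V) ≤ 3 / 4 := by
    intro v
    refine hGEX V (fun g => z (M • g) v) (hzc v) (fun g => hzb _ _) ?_ (hfree v) (sg a v)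
      (sg_cases a v)
    intro g
    have h1 : M • (-g) = -(M • g) := smul_neg _ _
    show z (M • (-g)) v = - z (M • g) v
    rw [h1, hodd]; rfl
  -- progress
  set F : W → (V → ℝ) → ℝ := fun R g => FF A a R (z (M • g)) with hF
  have hEF : ∀ R, ∫ g, F R g ∂(gam V) ≤ 3 / 4 * s := by
    intro R
    have h1 : ∫ g, F R g ∂(gam V) = ∑ v, A R v ^ 2 * Real.sqrt (rho a v) *
        ∫ g, Gp (sg a v * z (M • g) v) ∂(gam V) := by
      rw [hF]
      unfold FF
      rw [integral_finsetSum]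
      · refine Finset.sum_congr rfl fun v _ => ?_
        rw [integral_const_mul]
      · intro v _
        refine Integrable.const_mul ?_ _
        refine Integrable.of_bound (C := 2) ?_ ?_
        · exact (Gp_continuous.comp (continuous_const.mul (hzc v))).aestronglyMeasurable
        · refine Filter.Eventually.of_forall fun g => ?_
          rw [Real.norm_eq_abs]
          refine Gp_bdd _ ?_
          rw [abs_mul, sg_abs, one_mul]; exact hzb _ _
    rw [h1]
    have h2 : ∑ v, A R v ^ 2 * Real.sqrt (rho a v) *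
        ∫ g, Gp (sg a v * z (M • g) v) ∂(gam V) ≤
        ∑ v, A R v ^ 2 * Real.sqrt (rho a v) * (3 / 4) :=
      Finset.sum_le_sum fun v _ => mul_le_mul_of_nonneg_left (hG v) (by positivity)
    refine h2.trans ?_
    rw [← Finset.sum_mul]
    have h3 : ∑ v, A R v ^ 2 * Real.sqrt (rho a v) ≤ s := hPhi R
    linarith
  have hFlip : ∀ R, Lip (10 * Real.sqrt (s / t) * M) (F R) := by
    intro R x y
    refine (FF_lip t ht0 ha hs hA1 R (hPhi R) (z (M • x)) (z (M • y))).trans ?_
    rw [mul_assoc (10 * Real.sqrt (s / t))]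
    refine mul_le_mul_of_nonneg_left ?_ (by positivity)
    refine (hlip (M • y) (M • x)).trans ?_
    rw [← smul_sub, nrm_smul, abs_of_pos hM0]
  have hFP : ∀ R, (gam V).real {g | (∫ y, F R y ∂(gam V)) + s / 100 ≤ F R g}
      ≤ Real.exp (-(c * (s * t))) := by
    intro R
    have hL : 0 < 10 * Real.sqrt (s / t) * M := by positivity
    refine (hCONC V (F R) _ hL (hFlip R) (s / 100) (by positivity)).trans ?_
    rw [Real.exp_le_exp]
    have h1 : (10 * Real.sqrt (s / t) * M) ^ 2 = 100 * (s / t) * 160000 := by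
      rw [mul_pow, mul_pow, Real.sq_sqrt (by positivity), hM]; norm_num
    rw [h1, hc, neg_div, neg_le_neg_iff, le_div_iff₀ (by positivity)]
    have h2 : (1 / 10 ^ 12 * (s * t)) * (4 * (100 * (s / t) * 160000)) = 64 / 10 ^ 6 * s ^ 2 := by
      field_simp
      ring
    rw [h2]
    nlinarith [sq_nonneg s]
  -- the events
  have hfar := fun R => hFAR V W b K w0 M z hK hw0 hw1 hz hM0 R
  set E : W → Set (V → ℝ) := fun R => {g | 77/100 * s < FF A a R (fun v => X v g) ∨
    K + 3 < |eta b (fun v => X v g) R|} with hE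
  have hXc : ∀ v, Continuous (X v) := fun v => lip_continuous (XX_lip hM0 hlipv hzb _ v)
  have hXb : ∀ v g, |X v g| ≤ 1 := fun v g => XX_abs hzb _ v g
  have hEm : ∀ R, MeasurableSet (E R) := by
    intro R
    have hER : E R = {g | 77/100 * s < FF A a R (fun v => X v g)} ∪
      {g | K + 3 < |eta b (fun v => X v g) R|} := rfl
    rw [hER]
    refine MeasurableSet.union ?_ ?_
    · refine measurableSet_lt measurable_const (Continuous.measurable ?_)
      unfold FF
      refine continuous_finsetSum _ fun v _ => ?_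
      exact continuous_const.mul (Gp_continuous.comp (continuous_const.mul (hXc v)))
    · refine measurableSet_lt measurable_const (Continuous.measurable ?_)
      refine Continuous.abs ?_
      unfold eta
      exact continuous_finsetSum _ fun v _ => continuous_const.mul (hXc v)
  have hball : ∀ R v, I R v → ball I (4 * m) v ⊆ rball I (4 * m) R := by
    intro R v hv u hu
    unfold rball
    rw [Finset.mem_filter]
    exact ⟨Finset.mem_univ _, v, hv, hu⟩
  have hXdep : ∀ R v, I R v → ∀ x y : V → ℝ, (∀ u ∈ rball I (4 * m) R, x u = y u) →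
      X v x = X v y := by
    intro R v hv x y hxy
    exact XX_dep _ v x y fun u hu => hxy u (hball R v hv hu)
  have hEdep : ∀ R, ∀ x y : V → ℝ, (∀ u ∈ rball I (4 * m) R, x u = y u) →
      (x ∈ E R → y ∈ E R) := by
    intro R x y hxy hx
    have h1 : FF A a R (fun v => X v x) = FF A a R (fun v => X v y) := by
      unfold FF
      refine Finset.sum_congr rfl fun v _ => ?_
      by_cases hv : I R v
      · show A R v ^ 2 * Real.sqrt (rho a v) * Gp (sg a v * X v x)
          = A R v ^ 2 * Real.sqrt (rho a v) * Gp (sg a v * X v y)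
        rw [hXdep R v hv x y hxy]
      · have : A R v = 0 := hAI R v hv
        rw [this]; simp
    have h2 : eta b (fun v => X v x) R = eta b (fun v => X v y) R := by
      unfold eta
      refine Finset.sum_congr rfl fun v _ => ?_
      by_cases hv : I R v
      · show b R v * X v x = b R v * X v y
        rw [hXdep R v hv x y hxy]
      · have : b R v = 0 := by
          by_contra h0
          exact hv (hbI R v h0)
        rw [this]; simp
    show 77/100 * s < FF A a R (fun v => X v y) ∨ K + 3 < |eta b (fun v => X v y) R|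
    rw [← h1, ← h2]
    exact hx
  have hEp : ∀ R, (gam V).real (E R) ≤ Real.exp (-(c * (s * t)))
      + 2 * Real.exp (-((w0⁻¹) ^ 4 / M ^ 2)) + D * δ1 := by
    intro R
    set S := Finset.univ.filter (fun v => I R v) with hS
    have hsub : E R ⊆ ({g | (∫ y, F R y ∂(gam V)) + s / 100 ≤ F R g} ∪
        {g | K + 2 ≤ |eta b (z (M • g)) R|}) ∪
        ⋃ v ∈ S, {g | ε + 2 * qb < |X v g - z (M • g) v|} := by
      intro g hg
      by_contra hng
      rw [Set.mem_union, Set.mem_union, not_or, not_or] at hng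
      obtain ⟨⟨h1, h2⟩, h3⟩ := hng
      have h1' : F R g < (∫ y, F R y ∂(gam V)) + s / 100 := not_le.1 h1
      have h2' : |eta b (z (M • g)) R| < K + 2 := not_le.1 h2
      have h3' : ∀ v, I R v → |X v g - z (M • g) v| ≤ 1 / t := by
        intro v hv
        by_contra h4
        apply h3
        rw [Set.mem_iUnion₂]
        refine ⟨v, by rw [hS, Finset.mem_filter]; exact ⟨Finset.mem_univ _, hv⟩, ?_⟩
        show ε + 2 * qb < |X v g - z (M • g) v|
        exact lt_of_le_of_lt hεq (not_le.1 h4)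
      -- first alternative
      have h5 : FF A a R (fun v => X v g) ≤ F R g + s / 100 := by
        have h6 : FF A a R (fun v => X v g) - F R g ≤
            ∑ v, A R v ^ 2 * Real.sqrt (rho a v) * (1 / 100) := by
          rw [hF]
          unfold FF
          rw [← Finset.sum_sub_distrib]
          refine Finset.sum_le_sum fun v _ => ?_
          rw [← mul_sub]
          by_cases hv : I R v
          · refine mul_le_mul_of_nonneg_left ?_ (by positivity)
            have h7 := (le_abs_self _).trans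
              (Gp_lip (sg a v * X v g) (sg a v * z (M • g) v))
            rw [← mul_sub, abs_mul, sg_abs, one_mul] at h7
            refine h7.trans ?_
            have h8 := h3' v hv
            have h9 : 1 / t ≤ 1 / 1000 := one_div_le_one_div_of_le (by norm_num) ht
            linarith
          · have : A R v = 0 := hAI R v hv
            rw [this]; simp
        rw [← Finset.sum_mul] at h6
        have h10 : ∑ v, A R v ^ 2 * Real.sqrt (rho a v) ≤ s := hPhi R
        linarith
      have h11 : |eta b (fun v => X v g) R| ≤ |eta b (z (M • g)) R| + 1 := by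
        have h12 : |eta b (fun v => X v g) R - eta b (z (M • g)) R| ≤ 1 := by
          unfold eta
          rw [← Finset.sum_sub_distrib]
          have h13 : ∑ v, (b R v * X v g - b R v * z (M • g) v) =
              ∑ v, (b R v * (if I R v then 1 / t else 0)) *
                (if I R v then t * (X v g - z (M • g) v) else 0) := by
            refine Finset.sum_congr rfl fun v _ => ?_
            split_ifs with hv
            · field_simp
            · have : b R v = 0 := by
                by_contra h0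
                exact hv (hbI R v h0)
              rw [this]; simp
          rw [h13]
          have h14 : |∑ v, (b R v * (if I R v then 1 / t else 0)) *
                (if I R v then t * (X v g - z (M • g) v) else 0)| ≤
              (1 / t) * nrm (fun v => if I R v then t * (X v g - z (M • g) v) else 0) := by
            refine abs_sum_mul_le _ _ _ (by positivity) ?_
            calc ∑ v, (b R v * (if I R v then 1 / t else 0)) ^ 2
                ≤ ∑ v, b R v ^ 2 * (1 / t) ^ 2 := by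
                  refine Finset.sum_le_sum fun v _ => ?_
                  split_ifs
                  · rw [mul_pow]
                  · simp; positivity
              _ ≤ (1 / t) ^ 2 := by
                  rw [← Finset.sum_mul]
                  exact mul_le_of_le_one_left (by positivity) (hbrow R)
          refine h14.trans ?_
          have h15 : nrm (fun v => if I R v then t * (X v g - z (M • g) v) else 0) ≤
              Real.sqrt D := by
            unfold nrm nsq
            refine Real.sqrt_le_sqrt ?_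
            calc ∑ v, (if I R v then t * (X v g - z (M • g) v) else 0) ^ 2
                ≤ ∑ v, (if I R v then (1 : ℝ) else 0) := by
                  refine Finset.sum_le_sum fun v _ => ?_
                  split_ifs with hv
                  · have h16 := h3' v hv
                    rw [le_div_iff₀ ht0] at h16
                    have h17 : |t * (X v g - z (M • g) v)| ≤ 1 := by
                      rw [abs_mul, abs_of_pos ht0, mul_comm]; exact h16
                    exact (sq_le_one_iff_abs_le_one _).2 h17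
                  · simp
              _ = (S.card : ℝ) := by
                  rw [Finset.sum_boole]
              _ ≤ D := by exact_mod_cast hcardR R
          calc (1 / t) * nrm (fun v => if I R v then t * (X v g - z (M • g) v) else 0)
              ≤ (1 / t) * Real.sqrt D := mul_le_mul_of_nonneg_left h15 (by positivity)
            _ = Real.sqrt D / t := by ring
            _ ≤ 1 := hDt
        have h18 := abs_sub_abs_le_abs_sub (eta b (fun v => X v g) R) (eta b (z (M • g)) R)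
        linarith
      rcases hg with hg | hg
      · have := hEF R
        have hg' : 77/100 * s < FF A a R (fun v => X v g) := hg
        linarith
      · have hg' : K + 3 < |eta b (fun v => X v g) R| := hg
        linarith
    calc (gam V).real (E R) ≤ (gam V).real (({g | (∫ y, F R y ∂(gam V)) + s / 100 ≤ F R g} ∪
        {g | K + 2 ≤ |eta b (z (M • g)) R|}) ∪
        ⋃ v ∈ S, {g | ε + 2 * qb < |X v g - z (M • g) v|}) := measureReal_mono hsub
      _ ≤ (gam V).real ({g | (∫ y, F R y ∂(gam V)) + s / 100 ≤ F R g} ∪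
        {g | K + 2 ≤ |eta b (z (M • g)) R|}) +
        (gam V).real (⋃ v ∈ S, {g | ε + 2 * qb < |X v g - z (M • g) v|}) :=
          measureReal_union_le _ _
      _ ≤ (Real.exp (-(c * (s * t))) + 2 * Real.exp (-((w0⁻¹) ^ 4 / M ^ 2))) + D * δ1 := by
          refine add_le_add ?_ ?_
          · refine (measureReal_union_le _ _).trans ?_
            exact add_le_add (hFP R) (hfar R)
          · refine (measureReal_biUnion_finset_le _ _).trans ?_
            calc ∑ v ∈ S, (gam V).real {g | ε + 2 * qb < |X v g - z (M • g) v|}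
                ≤ ∑ v ∈ S, δ1 := Finset.sum_le_sum fun v _ => hloc v
              _ = S.card * δ1 := by rw [Finset.sum_const, nsmul_eq_mul]
              _ ≤ D * δ1 := by
                  refine mul_le_mul_of_nonneg_right ?_ (by positivity)
                  exact_mod_cast hcardR R
  -- local lemma
  have hδ0 : 0 ≤ δ1 := by positivity
  obtain ⟨g, hg⟩ := hLLL V W (fun _ => gaussianReal 0 1) E (fun R => rball I (4 * m) R) hEm
    hEdep (Real.exp (-(c * (s * t))) + 2 * Real.exp (-((w0⁻¹) ^ 4 / M ^ 2)) + D * δ1)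
    ((D ^ 2 + 1) ^ (2 * (4 * m) + 1)) (by positivity) (Nat.one_le_pow _ _ (by positivity))
    hEp (fun R => hDEP V W I D hcardR hcardV (4 * m) R) hfin
  -- the new state
  refine ⟨nw a (fun v => X v g), nw_abs ha _ (fun v => hXb v g), fun R => ?_, fun R => ?_⟩
  · refine (nw_Phi ha _ (fun v => hXb v g) R).trans ?_
    by_contra h1
    exact hg R (Or.inl (not_le.1 h1))
  · rw [nw_disc hs, abs_mul, abs_of_nonneg (Real.sqrt_nonneg s), mul_comm]
    refine mul_le_mul_of_nonneg_right ?_ (Real.sqrt_nonneg s)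
    by_contra h1
    exact hg R (Or.inr (not_le.1 h1))

end

end Pool.Agent.H320R2.LD.PHASE

namespace Pool.Agent.H320R2.LD

open PHASE

/-- The phase lemma. -/
theorem prove_PHASE (hEX : St_EX) (hSOL : St_SOL) (hLOC : St_LOC) (hOP : St_OP)
    (hDEP : St_DEP) (hLLL : St_LLL) (hFAR : St_FAR) (hEH : St_EH) (hMEAN : St_MEAN)
    (hGEX : St_GEX) (hCONC : St_CONC) (hPOT1 : St_POT1) (hPARAM : St_PARAM) : St_PHASE := by
  obtain ⟨Ch, hCh, hEH'⟩ := hEH 400 (by norm_num)
  obtain ⟨t0, ht02, hpar⟩ := hPARAM 400 (1 / 10 ^ 12) (by norm_num) (by norm_num)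
  set CK : ℝ := 1 + 16000 * Ch with hCK
  have hCK1 : 1 ≤ CK := by linarith
  refine ⟨CK + 3, t0, by positivity, ht02, ?_⟩
  intro t s ht hts hs1 V W _ _ A a hA ha hPhi
  obtain ⟨p1, p2, p3, p4, p5, p6, p7, p8, p9, p10, p11⟩ :=
    hpar t ht s hts hs1 ⌊t ^ (3/2 : ℝ)⌋₊ ⌈5 * t ^ (9/10 : ℝ) * Real.log t⌉₊ rfl rfl
  have ht0 : 0 < t := by linarith
  have hs : 0 < s := lt_of_lt_of_le (Real.rpow_pos_of_pos ht0 _) hts
  set K : ℝ := CK * s ^ (-(1/4) : ℝ) with hK
  have hsK : 1 ≤ s ^ (-(1/4) : ℝ) := Real.one_le_rpow_of_pos_of_le_one_of_nonpos hs hs1 (by norm_num)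
  have hK1 : 1 ≤ K := by
    rw [hK]
    nlinarith
  have hs4 : (s ^ (-(1/4) : ℝ)) ^ 4 = 1 / s := by
    rw [← Real.rpow_natCast, ← Real.rpow_mul hs.le]
    norm_num
    rw [Real.rpow_neg_one]
  have hKs : 16 * ((1 / s) * (Ch * (K⁻¹) ^ 4)) ≤ 1 / 1000 := by
    rw [inv_pow, hK, mul_pow, hs4]
    have h1 : (1 / s) * (Ch * (CK ^ 4 * (1 / s))⁻¹) = Ch / CK ^ 4 := by
      field_simp
    rw [h1, mul_div_assoc', div_le_div_iff₀ (by positivity) (by norm_num)]
    have h2 : CK ≤ CK ^ 4 := by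
      calc CK = CK ^ 1 := (pow_one _).symm
        _ ≤ CK ^ 4 := pow_le_pow_right₀ hCK1 (by norm_num)
    linarith
  have hpow : (0 : ℝ) < t ^ (-(1/4) : ℝ) := Real.rpow_pos_of_pos ht0 _
  have hcont := (hPOT1 K (t ^ (-(1/4) : ℝ)) hK1 hpow (by linarith)).1
  have hmono := (hPOT1 K (t ^ (-(1/4) : ℝ)) hK1 hpow (by linarith)).2.2.1
  choose z hz using fun y => hEX V W (bb A a s) (pf K (t ^ (-(1/4) : ℝ))) hcont hmono y
  have hq0 : (0 : ℝ) < t ^ (1/16 : ℝ) := Real.rpow_pos_of_pos ht0 _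
  obtain ⟨a', h1, h2, h3⟩ := core_phase hSOL hLOC hOP hDEP hLLL hFAR hMEAN hGEX hCONC A a t s
    hA ha hPhi p1 hs hs1 400 K (t ^ (-(1/4) : ℝ)) (t ^ (-(9/10) : ℝ)) (t ^ (1/16 : ℝ))
    (Real.exp (-t)) (1 / (2 * t)) (1 / 10 ^ 12) Ch ⌊t ^ (3/2 : ℝ)⌋₊
    ⌈5 * t ^ (9/10 : ℝ) * Real.log t⌉₊ rfl hK1 hpow (by linarith) p3 rfl p4 p5
    (Real.rpow_pos_of_pos ht0 _) p6 p2 rfl p7 (Real.exp_pos _)
    (by rw [Real.exp_le_one_iff]; linarith) (by positivity) p8 p9 p10 hCh
    (fun z hz R => hEH' V W (bb A a s) K (t ^ (-(1/4) : ℝ)) z hK1 hpow (by linarith) hz R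
      (bb_row ha hs R (hPhi R))) hKs p11 z hz
  refine ⟨a', h1, fun R => (h2 R).trans ?_, fun R => (h3 R).trans ?_⟩
  · nlinarith
  · have hs14 : 0 < s ^ (1/4 : ℝ) := Real.rpow_pos_of_pos hs _
    have e1 : Real.sqrt s = s ^ (1/4 : ℝ) * s ^ (1/4 : ℝ) := by
      rw [← Real.rpow_add hs, Real.sqrt_eq_rpow]; norm_num
    have e2 : s ^ (-(1/4) : ℝ) * s ^ (1/4 : ℝ) = 1 := by
      rw [← Real.rpow_add hs]; norm_num
    have e3 : s ^ (1/4 : ℝ) ≤ 1 := Real.rpow_le_one hs.le hs1 (by norm_num)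
    rw [e1, hK]
    calc (CK * s ^ (-(1/4) : ℝ) + 3) * (s ^ (1/4 : ℝ) * s ^ (1/4 : ℝ))
        = CK * (s ^ (-(1/4) : ℝ) * s ^ (1/4 : ℝ)) * s ^ (1/4 : ℝ)
          + 3 * (s ^ (1/4 : ℝ)) * s ^ (1/4 : ℝ) := by ring
      _ = CK * s ^ (1/4 : ℝ) + 3 * (s ^ (1/4 : ℝ)) * s ^ (1/4 : ℝ) := by rw [e2]; ring
      _ ≤ (CK + 3) * s ^ (1/4 : ℝ) := by nlinarith

end Pool.Agent.H320R2.LD
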