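import Pool.Agent.H320R2.LD.Defs

set_option autoImplicit false

open MeasureTheory

namespace Pool.Agent.H320R2.LD

namespace POT1

variable {K w0 : ℝ}

lemma wf_pos (h0 : 0 < w0) (x : ℝ) : 0 < wf K w0 x := lt_of_lt_of_le h0 (le_max_right _ _)

lemma wf_cont : Continuous (wf K w0) := by
  unfold wf; fun_prop

lemma winv_cont (h0 : 0 < w0) : Continuous (fun x => (wf K w0 x)⁻¹) :=
  wf_cont.inv₀ (fun x => (wf_pos h0 x).ne')

lemma hf_cont (h0 : 0 < w0) : Continuous (hf K w0) := by
  unfold hf; exact (winv_cont h0).pow 4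

lemma s_cont (h0 : 0 < w0) : Continuous (fun x => ((wf K w0 x)⁻¹) ^ 2) := (winv_cont h0).pow 2

lemma hf_nonneg (x : ℝ) : 0 ≤ hf K w0 x := by
  unfold hf; positivity

lemma pf_sub (h0 : 0 < w0) (x y : ℝ) :
    pf K w0 y - pf K w0 x = ∫ u in x..y, hf K w0 u := by
  unfold pf
  exact intervalIntegral.integral_interval_sub_left
    ((hf_cont h0).intervalIntegrable _ _) ((hf_cont h0).intervalIntegrable _ _)

lemma th_sub (h0 : 0 < w0) (x y : ℝ) :
    th K w0 y - th K w0 x = ∫ u in x..y, ((wf K w0 u)⁻¹) ^ 2 := by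
  unfold th
  exact intervalIntegral.integral_interval_sub_left
    ((s_cont h0).intervalIntegrable _ _) ((s_cont h0).intervalIntegrable _ _)

lemma wf_even (x : ℝ) : wf K w0 (-x) = wf K w0 x := by
  unfold wf; rw [abs_neg]

lemma hf_even (x : ℝ) : hf K w0 (-x) = hf K w0 x := by
  unfold hf; rw [wf_even]

lemma pf_odd (x : ℝ) : pf K w0 (-x) = - pf K w0 x := by
  unfold pf
  have h : ∫ u in (0:ℝ)..x, hf K w0 u = ∫ u in (0:ℝ)..x, hf K w0 (-u) := by
    simp only [hf_even]
  rw [h, intervalIntegral.integral_comp_neg (fun u => hf K w0 u), neg_zero,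
    intervalIntegral.integral_symm 0 (-x), neg_neg]

lemma th_odd (x : ℝ) : th K w0 (-x) = - th K w0 x := by
  unfold th
  have h : ∫ u in (0:ℝ)..x, ((wf K w0 u)⁻¹) ^ 2 = ∫ u in (0:ℝ)..x, ((wf K w0 (-u))⁻¹) ^ 2 := by
    simp only [wf_even]
  rw [h, intervalIntegral.integral_comp_neg (fun u => ((wf K w0 u)⁻¹) ^ 2), neg_zero,
    intervalIntegral.integral_symm 0 (-x), neg_neg]

lemma wf_anti {x y : ℝ} (h : |x| ≤ |y|) : wf K w0 y ≤ wf K w0 x := by
  unfold wf
  apply max_le_max _ le_rfl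
  linarith

lemma hf_mono (h0 : 0 < w0) {x y : ℝ} (h : |x| ≤ |y|) : hf K w0 x ≤ hf K w0 y := by
  unfold hf
  have h1 := wf_anti (K := K) (w0 := w0) h
  have h2 : (wf K w0 x)⁻¹ ≤ (wf K w0 y)⁻¹ := inv_anti₀ (wf_pos h0 y) h1
  exact pow_le_pow_left₀ (inv_nonneg.mpr (wf_pos h0 x).le) h2 4

lemma pf_mono (h0 : 0 < w0) : Monotone (pf K w0) := by
  intro x y hxy
  have h := pf_sub (K := K) h0 x y
  have h1 : 0 ≤ ∫ u in x..y, hf K w0 u :=
    intervalIntegral.integral_nonneg hxy (fun u _ => hf_nonneg u)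
  linarith

lemma th_mono (h0 : 0 < w0) : Monotone (th K w0) := by
  intro x y hxy
  have h := th_sub (K := K) h0 x y
  have h1 : 0 ≤ ∫ u in x..y, ((wf K w0 u)⁻¹) ^ 2 :=
    intervalIntegral.integral_nonneg hxy (fun u _ => by positivity)
  linarith

lemma pf_bound (h0 : 0 < w0) (x y : ℝ) (hxy : x ≤ y) :
    pf K w0 y - pf K w0 x ≤ max (hf K w0 x) (hf K w0 y) * (y - x) := by
  rw [pf_sub h0]
  have h1 : ∫ u in x..y, hf K w0 u ≤ ∫ _u in x..y, max (hf K w0 x) (hf K w0 y) := by
    apply intervalIntegral.integral_mono_on hxy ((hf_cont h0).intervalIntegrable _ _)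
      (continuous_const.intervalIntegrable _ _)
    intro u hu
    have hu2 : |u| ≤ max |x| |y| := abs_le_max_abs_abs hu.1 hu.2
    rcases le_max_iff.mp hu2 with h | h
    · exact le_trans (hf_mono h0 h) (le_max_left _ _)
    · exact le_trans (hf_mono h0 h) (le_max_right _ _)
  rw [intervalIntegral.integral_const, smul_eq_mul] at h1
  linarith [h1, mul_comm (y - x) (max (hf K w0 x) (hf K w0 y))]

lemma cs_aux (h0 : 0 < w0) (x y : ℝ) (hxy : x < y) :
    (th K w0 y - th K w0 x) ^ 2 ≤ (y - x) * (pf K w0 y - pf K w0 x) := by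
  rw [pf_sub h0, th_sub h0]
  set A := ∫ u in x..y, ((wf K w0 u)⁻¹) ^ 2 with hA
  set B := ∫ u in x..y, hf K w0 u with hB
  have hL : 0 < y - x := by linarith
  set c := A / (y - x) with hc
  have hcA : c * (y - x) = A := by rw [hc]; field_simp
  have h1 : 0 ≤ ∫ u in x..y, (((wf K w0 u)⁻¹) ^ 2 - c) ^ 2 :=
    intervalIntegral.integral_nonneg hxy.le (fun u _ => sq_nonneg _)
  have h2 : ∫ u in x..y, (((wf K w0 u)⁻¹) ^ 2 - c) ^ 2 = B - 2 * c * A + c ^ 2 * (y - x) := by
    have e : (fun u => (((wf K w0 u)⁻¹) ^ 2 - c) ^ 2)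
        = fun u => (hf K w0 u - 2 * c * ((wf K w0 u)⁻¹) ^ 2) + c ^ 2 := by
      funext u; unfold hf; ring
    rw [e, intervalIntegral.integral_add, intervalIntegral.integral_sub,
      intervalIntegral.integral_const_mul, intervalIntegral.integral_const, smul_eq_mul, ← hA,
      ← hB]
    · ring
    · exact (hf_cont h0).intervalIntegrable _ _
    · exact (continuous_const.mul (s_cont h0)).intervalIntegrable _ _
    · exact ((hf_cont h0).sub (continuous_const.mul (s_cont h0))).intervalIntegrable _ _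
    · exact continuous_const.intervalIntegrable _ _
  rw [h2] at h1
  have h3 : c ^ 2 * (y - x) = c * A := by rw [← hcA]; ring
  rw [h3] at h1
  have h4 : c * A ≤ B := by linarith
  have h5 : A ^ 2 = (y - x) * (c * A) := by
    calc A ^ 2 = (c * (y - x)) * A := by rw [hcA]; ring
      _ = (y - x) * (c * A) := by ring
  rw [h5]
  exact mul_le_mul_of_nonneg_left h4 hL.le

end POT1

open POT1 in
theorem prove_POT1 : St_POT1 := by
  intro K w0 _ h0 _
  refine ⟨?_, ?_, pf_mono h0, th_mono h0, pf_odd, th_odd, pf_bound h0, ?_⟩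
  · unfold pf
    exact intervalIntegral.continuous_primitive (fun a b => (hf_cont h0).intervalIntegrable a b) 0
  · unfold th
    exact intervalIntegral.continuous_primitive (fun a b => (s_cont h0).intervalIntegrable a b) 0
  · intro x y
    rcases lt_trichotomy x y with h | h | h
    · exact cs_aux h0 x y h
    · subst h; simp
    · have := cs_aux (K := K) h0 y x h
      nlinarith [this]

end Pool.Agent.H320R2.LD
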