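import Pool.Agent.H320R2.LD.POT1

set_option autoImplicit false

open MeasureTheory

namespace Pool.Agent.H320R2.LD

namespace POT2

open POT1

variable {K w0 : ℝ}

lemma th_zero : th K w0 0 = 0 := by unfold th; simp

lemma abs_th (h0 : 0 < w0) (x : ℝ) : |th K w0 x| = th K w0 |x| := by
  rcases le_total 0 x with h | h
  · rw [abs_of_nonneg h, abs_of_nonneg]
    have := th_mono (K := K) h0 h
    rwa [th_zero] at this
  · rw [abs_of_nonpos h, th_odd, abs_of_nonpos]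
    have := th_mono (K := K) h0 h
    rwa [th_zero] at this

/-- explicit value before the cut -/
lemma th_val (h0 : 0 < w0) (hK : 1 ≤ K) (a : ℝ) (ha0 : 0 ≤ a) (ha : a ≤ K + 1 - w0) :
    th K w0 a = (K + 1 - a)⁻¹ - (K + 1)⁻¹ := by
  unfold th
  have h1 : ∫ u in (0:ℝ)..a, ((wf K w0 u)⁻¹) ^ 2 = ∫ u in (0:ℝ)..a, ((K + 1 - u) ^ 2)⁻¹ := by
    apply intervalIntegral.integral_congr
    intro u hu
    rw [Set.uIcc_of_le ha0] at hu
    have : wf K w0 u = K + 1 - u := by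
      unfold wf
      rw [abs_of_nonneg hu.1]
      apply max_eq_left
      linarith [hu.2]
    simp only [this, inv_pow]
  rw [h1]
  have h2 : ∀ u ∈ Set.uIcc (0:ℝ) a, HasDerivAt (fun u : ℝ => (K + 1 - u)⁻¹)
      (((K + 1 - u) ^ 2)⁻¹) u := by
    intro u hu
    rw [Set.uIcc_of_le ha0] at hu
    have hne : K + 1 - u ≠ 0 := by
      have := hu.2
      apply ne_of_gt
      linarith
    have hd : HasDerivAt (fun u : ℝ => K + 1 - u) (-1) u := by
      simpa using (hasDerivAt_id u).const_sub (K + 1)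
    have := hd.inv hne
    rw [neg_neg, one_div] at this
    exact this
  rw [intervalIntegral.integral_eq_sub_of_hasDerivAt h2]
  · simp
  · apply ContinuousOn.intervalIntegrable
    apply ContinuousOn.inv₀ (by fun_prop)
    intro u hu
    rw [Set.uIcc_of_le ha0] at hu
    have hne : 0 < K + 1 - u := by
      have := hu.2
      linarith
    positivity

lemma item1 (hK : 1 ≤ K) (h0 : 0 < w0) (x : ℝ) (hx : K + 2 ≤ |x|) :
    (w0⁻¹) ^ 2 ≤ |th K w0 x| := by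
  rw [abs_th h0]
  have h1 : th K w0 (K + 2) ≤ th K w0 |x| := th_mono h0 hx
  have h2 := th_sub (K := K) h0 (K + 1) (K + 2)
  have h3 : ∫ u in (K+1)..(K+2), ((wf K w0 u)⁻¹) ^ 2 = ∫ _u in (K+1)..(K+2), (w0⁻¹) ^ 2 := by
    apply intervalIntegral.integral_congr
    intro u hu
    rw [Set.uIcc_of_le (by linarith)] at hu
    have : wf K w0 u = w0 := by
      unfold wf
      rw [abs_of_nonneg (by linarith [hu.1])]
      apply max_eq_right
      linarith [hu.1]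
    simp only [this]
  rw [h3, intervalIntegral.integral_const, smul_eq_mul] at h2
  have h4 : (0:ℝ) ≤ th K w0 (K + 1) := by
    have := th_mono (K := K) h0 (show (0:ℝ) ≤ K + 1 by linarith)
    rwa [th_zero] at this
  have h5 : (K + 2 - (K + 1)) * (w0⁻¹) ^ 2 = (w0⁻¹) ^ 2 := by ring
  rw [h5] at h2
  linarith

lemma item2 (hK : 1 ≤ K) (h0 : 0 < w0) (x q : ℝ) (hq : 1 ≤ q) (hwq : w0 ≤ q⁻¹)
    (hx : wf K w0 x ≤ q⁻¹) : q - 1 ≤ |th K w0 x| := by
  rw [abs_th h0]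
  have h1 : K + 1 - |x| ≤ q⁻¹ := le_trans (le_max_left _ _) hx
  have hq0 : 0 < q := by linarith
  have hq1 : q⁻¹ ≤ 1 := inv_le_one_of_one_le₀ hq
  have h2 : th K w0 (K + 1 - q⁻¹) ≤ th K w0 |x| := th_mono h0 (by linarith)
  have h3 := th_val (K := K) h0 hK (K + 1 - q⁻¹) (by linarith) (by linarith)
  have h4 : (K + 1 - (K + 1 - q⁻¹))⁻¹ = q := by
    rw [sub_sub_cancel, inv_inv]
  rw [h4] at h3
  have h5 : (K + 1)⁻¹ ≤ 1 := inv_le_one_of_one_le₀ (by linarith)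
  linarith

lemma item3 (h0 : 0 < w0) (x y : ℝ) (h : |x - y| ≤ w0 / 2) :
    hf K w0 x ≤ 16 * hf K w0 y := by
  have h1 : wf K w0 y ≤ 2 * wf K w0 x := by
    have h2 : w0 ≤ wf K w0 x := le_max_right _ _
    have h3 : K + 1 - |x| ≤ wf K w0 x := le_max_left _ _
    have h4 : |x| - |y| ≤ |x - y| := abs_sub_abs_le_abs_sub x y
    unfold wf at *
    apply max_le
    · linarith
    · linarith
  have hp := wf_pos (K := K) h0 y
  have hpx := wf_pos (K := K) h0 x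
  unfold hf
  have h5 : (wf K w0 x)⁻¹ ≤ 2 * (wf K w0 y)⁻¹ := by
    rw [← div_eq_mul_inv, inv_eq_one_div, div_le_div_iff₀ hpx hp]
    linarith
  calc ((wf K w0 x)⁻¹) ^ 4 ≤ (2 * (wf K w0 y)⁻¹) ^ 4 :=
        pow_le_pow_left₀ (inv_nonneg.mpr hpx.le) h5 4
    _ = 16 * ((wf K w0 y)⁻¹) ^ 4 := by ring

lemma item4 (hK : 1 ≤ K) (h0 : 0 < w0) (h1 : w0 ≤ 1) (x : ℝ) :
    hf K w0 x ≤ 16 * (K⁻¹) ^ 4 * (1 + x ^ 8 + (1 + |th K w0 x|) ^ 8) := by
  have hK0 : 0 < K := by linarith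
  have hpx := wf_pos (K := K) h0 x
  have hx8 : 0 ≤ x ^ 8 := by positivity
  have ht8 : 0 ≤ (1 + |th K w0 x|) ^ 8 := by positivity
  have hK4 : 0 ≤ 16 * (K⁻¹) ^ 4 := by positivity
  rcases le_or_gt |x| (K / 2) with h | h
  · have h2 : K / 2 ≤ wf K w0 x := le_trans (by linarith) (le_max_left _ _)
    have h3 : (wf K w0 x)⁻¹ ≤ (K / 2)⁻¹ := inv_anti₀ (by positivity) h2
    have h4 : hf K w0 x ≤ ((K / 2)⁻¹) ^ 4 :=
      pow_le_pow_left₀ (inv_nonneg.mpr hpx.le) h3 4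
    have h5 : ((K / 2)⁻¹) ^ 4 = 16 * (K⁻¹) ^ 4 := by
      rw [inv_div, div_eq_mul_inv]; ring
    rw [h5] at h4
    have h6 : 16 * (K⁻¹) ^ 4 * 1 ≤ 16 * (K⁻¹) ^ 4 * (1 + x ^ 8 + (1 + |th K w0 x|) ^ 8) := by
      apply mul_le_mul_of_nonneg_left _ hK4
      linarith
    linarith
  · have hinv : (wf K w0 x)⁻¹ ≤ 1 + |th K w0 x| := by
      rw [abs_th h0]
      rcases le_or_gt |x| (K + 1 - w0) with h2 | h2
      · have h3 : wf K w0 x = K + 1 - |x| := by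
          unfold wf; apply max_eq_left; linarith
        have h4 := th_val (K := K) h0 hK |x| (abs_nonneg x) h2
        rw [h3, h4]
        have h5 : (K + 1)⁻¹ ≤ 1 := inv_le_one_of_one_le₀ (by linarith)
        linarith
      · have h3 : wf K w0 x = w0 := by
          unfold wf; apply max_eq_right; linarith
        have h4 := th_val (K := K) h0 hK (K + 1 - w0) (by linarith) le_rfl
        have h6 : th K w0 (K + 1 - w0) ≤ th K w0 |x| := th_mono h0 h2.le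
        have h5 : (K + 1)⁻¹ ≤ 1 := inv_le_one_of_one_le₀ (by linarith)
        rw [h3]
        rw [sub_sub_cancel] at h4
        linarith
    have ht : 0 ≤ 1 + |th K w0 x| := by positivity
    have h2 : hf K w0 x ≤ (1 + |th K w0 x|) ^ 4 :=
      pow_le_pow_left₀ (inv_nonneg.mpr hpx.le) hinv 4
    have h3 : 1 ≤ 2 * K⁻¹ * |x| := by
      rw [show 2 * K⁻¹ * |x| = (2 * |x|) / K by rw [div_eq_mul_inv]; ring, le_div_iff₀ hK0]
      linarith
    have h4 : 1 ≤ (2 * K⁻¹ * |x|) ^ 4 := one_le_pow₀ h3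
    have h5 : (2 * K⁻¹ * |x|) ^ 4 = 16 * (K⁻¹) ^ 4 * x ^ 4 := by
      have : |x| ^ 4 = x ^ 4 := by
        rw [show (4:ℕ) = 2 * 2 by norm_num, pow_mul, pow_mul, sq_abs]
      rw [mul_pow, mul_pow, this]; norm_num
    rw [h5] at h4
    have h6 : (1 + |th K w0 x|) ^ 4 ≤ (16 * (K⁻¹) ^ 4 * x ^ 4) * (1 + |th K w0 x|) ^ 4 :=
      le_mul_of_one_le_left (by positivity) h4
    have h7 : x ^ 4 * (1 + |th K w0 x|) ^ 4 ≤ 1 + x ^ 8 + (1 + |th K w0 x|) ^ 8 := by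
      nlinarith [sq_nonneg (x ^ 4 - (1 + |th K w0 x|) ^ 4), sq_nonneg (x ^ 4),
        sq_nonneg ((1 + |th K w0 x|) ^ 4)]
    calc hf K w0 x ≤ (1 + |th K w0 x|) ^ 4 := h2
      _ ≤ (16 * (K⁻¹) ^ 4 * x ^ 4) * (1 + |th K w0 x|) ^ 4 := h6
      _ = 16 * (K⁻¹) ^ 4 * (x ^ 4 * (1 + |th K w0 x|) ^ 4) := by ring
      _ ≤ 16 * (K⁻¹) ^ 4 * (1 + x ^ 8 + (1 + |th K w0 x|) ^ 8) :=
          mul_le_mul_of_nonneg_left h7 hK4

end POT2

open POT2 in
theorem prove_POT2 : St_POT2 := by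
  intro K w0 hK h0 h1
  exact ⟨item1 hK h0, item2 hK h0, item3 h0, item4 hK h0 h1⟩

end Pool.Agent.H320R2.LD
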