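import Pool.Agent.H320R2.LD.Defs

set_option autoImplicit false

open MeasureTheory ProbabilityTheory

namespace Pool.Agent.H320R2.LD
namespace ROUND

noncomputable section

/-- sign -/
def sg (u : ℝ) : ℝ := if 0 ≤ u then 1 else -1

lemma sg_meas : Measurable sg :=
  Measurable.ite measurableSet_Ici measurable_const measurable_const

lemma sg_pm (u : ℝ) : sg u = 1 ∨ sg u = -1 := by
  unfold sg; split_ifs <;> simp

lemma sg_abs (u : ℝ) : |sg u| ≤ 1 := by
  rcases sg_pm u with h | h <;> rw [h] <;> norm_num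

/-- two point measure -/
def nu (a : ℝ) : Measure ℝ :=
  ENNReal.ofReal ((1 + a) / 2) • Measure.dirac 1
    + ENNReal.ofReal ((1 - a) / 2) • Measure.dirac (-1)

lemma nu_prob (a : ℝ) (ha : |a| ≤ 1) : IsProbabilityMeasure (nu a) := by
  constructor
  have h1 := (abs_le.mp ha).1
  have h2 := (abs_le.mp ha).2
  have e : (nu a) Set.univ = ENNReal.ofReal ((1 + a) / 2) + ENNReal.ofReal ((1 - a) / 2) := by
    simp [nu]
  rw [e, ← ENNReal.ofReal_add (by linarith) (by linarith)]
  have : (1 + a) / 2 + (1 - a) / 2 = 1 := by ring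
  rw [this, ENNReal.ofReal_one]

lemma nu_integral (a : ℝ) (ha : |a| ≤ 1) (f : ℝ → ℝ) :
    ∫ x, f x ∂(nu a) = (1 + a) / 2 * f 1 + (1 - a) / 2 * f (-1) := by
  have h1 := (abs_le.mp ha).1
  have h2 := (abs_le.mp ha).2
  unfold nu
  have i1 : Integrable f (ENNReal.ofReal ((1 + a) / 2) • Measure.dirac (1:ℝ)) :=
    (integrable_dirac (by simp)).smul_measure ENNReal.ofReal_ne_top
  have i2 : Integrable f (ENNReal.ofReal ((1 - a) / 2) • Measure.dirac (-1:ℝ)) :=
    (integrable_dirac (by simp)).smul_measure ENNReal.ofReal_ne_top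
  rw [integral_add_measure i1 i2, integral_smul_measure, integral_smul_measure, integral_dirac,
    integral_dirac, ENNReal.toReal_ofReal (by linarith), ENNReal.toReal_ofReal (by linarith)]
  simp

/-- one variable: moment generating function -/
lemma mgf_one (a c : ℝ) (ha : |a| ≤ 1) (hc : |c| ≤ 1 / 2) :
    ∫ x, Real.exp (c * (sg x - a)) ∂(nu a) ≤ Real.exp (2 * c ^ 2 * (1 - |a|)) := by
  have h1 := (abs_le.mp ha).1
  have h2 := (abs_le.mp ha).2
  rw [nu_integral a ha]
  have s1 : sg 1 = 1 := by unfold sg; norm_num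
  have s2 : sg (-1) = -1 := by unfold sg; norm_num
  rw [s1, s2]
  have b1 : Real.exp (c * (1 - a)) ≤ 1 + c * (1 - a) + (c * (1 - a)) ^ 2 := by
    have : |c * (1 - a)| ≤ 1 := by
      rw [abs_mul, abs_of_nonneg (by linarith : (0:ℝ) ≤ 1 - a)]
      nlinarith [abs_nonneg c]
    have := (abs_le.mp (Real.abs_exp_sub_one_sub_id_le this)).2
    linarith
  have b2 : Real.exp (c * (-1 - a)) ≤ 1 + c * (-1 - a) + (c * (-1 - a)) ^ 2 := by
    have : |c * (-1 - a)| ≤ 1 := by
      rw [abs_mul, abs_of_nonpos (by linarith : -1 - a ≤ (0:ℝ))]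
      nlinarith [abs_nonneg c]
    have := (abs_le.mp (Real.abs_exp_sub_one_sub_id_le this)).2
    linarith
  have b3 : (1 + a) / 2 * Real.exp (c * (1 - a)) + (1 - a) / 2 * Real.exp (c * (-1 - a))
      ≤ 1 + c ^ 2 * (1 - a ^ 2) := by
    have e1 := mul_le_mul_of_nonneg_left b1 (by linarith : (0:ℝ) ≤ (1 + a) / 2)
    have e2 := mul_le_mul_of_nonneg_left b2 (by linarith : (0:ℝ) ≤ (1 - a) / 2)
    nlinarith [e1, e2]
  have b4 : c ^ 2 * (1 - a ^ 2) ≤ 2 * c ^ 2 * (1 - |a|) := by
    have h3 : a ^ 2 = |a| ^ 2 := (sq_abs a).symm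
    rw [h3]
    have h4 : 0 ≤ |a| := abs_nonneg a
    nlinarith [sq_nonneg c, mul_nonneg (sq_nonneg c) (sq_nonneg (1 - |a|))]
  have b5 := Real.add_one_le_exp (2 * c ^ 2 * (1 - |a|))
  linarith

section
variable {V : Type} [Fintype V]

lemma mgf_sum (a c : V → ℝ) (ha : ∀ v, |a v| ≤ 1) (hc : ∀ v, |c v| ≤ 1 / 2) :
    ∫ x, Real.exp (∑ v, c v * (sg (x v) - a v)) ∂(Measure.pi fun v => nu (a v))
      ≤ Real.exp (∑ v, 2 * c v ^ 2 * (1 - |a v|)) := by
  haveI : ∀ v, IsProbabilityMeasure (nu (a v)) := fun v => nu_prob _ (ha v)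
  simp_rw [Real.exp_sum]
  rw [integral_fintype_prod_eq_prod (𝕜 := ℝ) (fun v u => Real.exp (c v * (sg u - a v)))]
  apply Finset.prod_le_prod
  · intro v _
    exact integral_nonneg fun x => (Real.exp_pos _).le
  · intro v _
    exact mgf_one _ _ (ha v) (hc v)

lemma meas_sum (a c : V → ℝ) : Measurable fun x : V → ℝ => ∑ v, c v * (sg (x v) - a v) := by
  apply Finset.measurable_sum
  intro v _
  exact ((sg_meas.comp (measurable_pi_apply v)).sub_const _).const_mul _

lemma tail (a c : V → ℝ) (ha : ∀ v, |a v| ≤ 1) (lam s : ℝ) (hl : 0 < lam)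
    (hc : ∀ v, |lam * c v| ≤ 1 / 2) :
    (Measure.pi fun v => nu (a v)).real {x | s < ∑ v, c v * (sg (x v) - a v)}
      ≤ Real.exp (∑ v, 2 * (lam * c v) ^ 2 * (1 - |a v|) - lam * s) := by
  haveI : ∀ v, IsProbabilityMeasure (nu (a v)) := fun v => nu_prob _ (ha v)
  set μ := Measure.pi fun v => nu (a v) with hμ
  haveI : IsProbabilityMeasure μ := by rw [hμ]; infer_instance
  have hI : Integrable (fun x : V → ℝ => Real.exp (∑ v, (lam * c v) * (sg (x v) - a v))) μ := by
    apply Integrable.of_bound (C := Real.exp (∑ v, |lam * c v| * 2))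
    · exact ((meas_sum a (fun v => lam * c v)).exp).aestronglyMeasurable
    · refine Filter.Eventually.of_forall fun x => ?_
      rw [Real.norm_eq_abs, abs_of_pos (Real.exp_pos _)]
      apply Real.exp_le_exp.mpr
      apply Finset.sum_le_sum
      intro v _
      refine (le_abs_self _).trans ?_
      rw [abs_mul (lam * c v) (sg (x v) - a v)]
      apply mul_le_mul_of_nonneg_left _ (abs_nonneg _)
      have h1 := sg_abs (x v)
      have h2 := ha v
      calc |sg (x v) - a v| ≤ |sg (x v)| + |a v| := abs_sub _ _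
        _ ≤ 2 := by linarith
  have hM := mul_meas_ge_le_integral_of_nonneg
    (Filter.Eventually.of_forall fun x => (Real.exp_pos _).le) hI (Real.exp (lam * s))
  have h1 := mgf_sum a (fun v => lam * c v) ha hc
  have hsub : μ.real {x | s < ∑ v, c v * (sg (x v) - a v)}
      ≤ μ.real {x | Real.exp (lam * s) ≤ Real.exp (∑ v, (lam * c v) * (sg (x v) - a v))} := by
    apply measureReal_mono _ (measure_ne_top _ _)
    intro x hx
    simp only [Set.mem_setOf_eq] at hx ⊢
    apply Real.exp_le_exp.mpr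
    have : ∑ v, (lam * c v) * (sg (x v) - a v) = lam * ∑ v, c v * (sg (x v) - a v) := by
      rw [Finset.mul_sum]; exact Finset.sum_congr rfl fun v _ => by ring
    rw [this]
    exact mul_le_mul_of_nonneg_left hx.le hl.le
  have hpos := Real.exp_pos (lam * s)
  have h3 : Real.exp (lam * s) * μ.real {x | s < ∑ v, c v * (sg (x v) - a v)}
      ≤ Real.exp (∑ v, 2 * (lam * c v) ^ 2 * (1 - |a v|)) :=
    le_trans (mul_le_mul_of_nonneg_left hsub hpos.le) (le_trans hM h1)
  rw [Real.exp_sub, le_div_iff₀ hpos, mul_comm]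
  exact h3

end

lemma log_bound (t : ℝ) (ht : 4096 ≤ t) : 2 * Real.log t ≤ Real.sqrt t := by
  have h0 : 0 < t := by linarith
  have hs : 64 ≤ Real.sqrt t := by
    rw [show (64:ℝ) = Real.sqrt (64 ^ 2) by rw [Real.sqrt_sq (by norm_num)]]
    exact Real.sqrt_le_sqrt (by linarith)
  have hs0 : 0 < Real.sqrt t := by linarith
  set r := Real.sqrt (Real.sqrt t) with hr
  have hr8 : 8 ≤ r := by
    rw [hr, show (8:ℝ) = Real.sqrt (8 ^ 2) by rw [Real.sqrt_sq (by norm_num)]]
    exact Real.sqrt_le_sqrt (by linarith)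
  have hr2 : r * r = Real.sqrt t := Real.mul_self_sqrt hs0.le
  have ht4 : t = (r * r) * (r * r) := by rw [hr2, Real.mul_self_sqrt h0.le]
  have hr0 : r ≠ 0 := by linarith
  have hl : Real.log t = 4 * Real.log r := by
    rw [ht4, Real.log_mul (by positivity) (by positivity), Real.log_mul hr0 hr0]; ring
  have hlr : Real.log r ≤ r - 1 := Real.log_le_sub_one_of_pos (by linarith)
  rw [hl, ← hr2]
  nlinarith

end

end ROUND

open ROUND in
theorem prove_ROUND (hL : St_LLL) : St_ROUND := by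
  classical
  refine ⟨4096, by norm_num, ?_⟩
  intro t ht V W _ _ A a hA ha hsum
  obtain ⟨hA1, hA2, hA3, hA4, hA5⟩ := hA
  have ht0 : 0 < t := by linarith
  have ht1 : 1 ≤ t := by linarith
  set lam := Real.log t with hlam
  have hlam0 : 0 < lam := Real.log_pos (by linarith)
  haveI : ∀ v, IsProbabilityMeasure (nu (a v)) := fun v => nu_prob _ (ha v)
  have hlb := log_bound t ht
  have hsm : ∀ R v, |lam * A R v| ≤ 1 / 2 := by
    intro R v
    have h1 := hA1 R v
    have h2 : |A R v| * Real.sqrt t ≤ 1 := by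
      have : (|A R v| * Real.sqrt t) ^ 2 ≤ 1 := by
        rw [mul_pow, sq_abs, Real.sq_sqrt ht0.le]; exact h1
      exact (sq_le_one_iff₀ (by positivity)).mp this
    rw [abs_mul, abs_of_pos hlam0]
    have h3 : |A R v| * (2 * lam) ≤ 1 := le_trans (mul_le_mul_of_nonneg_left hlb (abs_nonneg _)) h2
    linarith
  have key : ∀ R, ∀ σ : ℝ, (σ = 1 ∨ σ = -1) → (Measure.pi fun v => nu (a v)).real
      {x | 10 < ∑ v, (σ * A R v) * (sg (x v) - a v)} ≤ Real.exp (-8 * lam) := by
    intro R σ hσ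
    have hσ2 : σ ^ 2 = 1 := by rcases hσ with h | h <;> rw [h] <;> norm_num
    have hσa : |σ| = 1 := by rcases hσ with h | h <;> rw [h] <;> norm_num
    refine (tail a (fun v => σ * A R v) ha lam 10 hlam0 ?_).trans ?_
    · intro v
      have := hsm R v
      rw [show lam * (σ * A R v) = σ * (lam * A R v) by ring, abs_mul, hσa, one_mul]
      exact this
    · apply Real.exp_le_exp.mpr
      have h1 : ∑ v, 2 * (lam * (σ * A R v)) ^ 2 * (1 - |a v|)
          = 2 * lam ^ 2 * ∑ v, A R v ^ 2 * (1 - |a v|) := by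
        rw [Finset.mul_sum]
        refine Finset.sum_congr rfl fun v _ => ?_
        rw [show 2 * (lam * (σ * A R v)) ^ 2 * (1 - |a v|)
          = 2 * lam ^ 2 * (σ ^ 2) * (A R v ^ 2 * (1 - |a v|)) by ring, hσ2]; ring
      rw [h1]
      have h2 := hsum R
      have h3 : 2 * lam ^ 2 * ∑ v, A R v ^ 2 * (1 - |a v|) ≤ 2 * lam ^ 2 * (1 / lam) :=
        mul_le_mul_of_nonneg_left h2 (by positivity)
      have h4 : 2 * lam ^ 2 * (1 / lam) = 2 * lam := by field_simp
      linarith
  set S : W → Finset V := fun R => Finset.univ.filter (fun v => A R v ≠ 0) with hS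
  set E : W → Set (V → ℝ) := fun R => {x | 10 < |∑ v, A R v * (sg (x v) - a v)|} with hE
  have hEm : ∀ R, MeasurableSet (E R) := by
    intro R
    exact measurableSet_lt measurable_const ((meas_sum a (fun v => A R v)).abs)
  have hEp : ∀ R, (Measure.pi fun v => nu (a v)).real (E R) ≤ 2 * Real.exp (-8 * lam) := by
    intro R
    have h1 := key R 1 (Or.inl rfl)
    have h2 := key R (-1) (Or.inr rfl)
    have hsub : E R ⊆ {x | 10 < ∑ v, (1 * A R v) * (sg (x v) - a v)}
        ∪ {x | 10 < ∑ v, (-1 * A R v) * (sg (x v) - a v)} := by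
      intro x hx
      simp only [hE, Set.mem_setOf_eq] at hx
      rcases lt_abs.mp hx with h | h
      · left
        simp only [Set.mem_setOf_eq, one_mul]; exact h
      · right
        simp only [Set.mem_setOf_eq]
        have : ∑ v, (-1 * A R v) * (sg (x v) - a v) = -∑ v, A R v * (sg (x v) - a v) := by
          rw [← Finset.sum_neg_distrib]; exact Finset.sum_congr rfl fun v _ => by ring
        rw [this]; exact h
    calc (Measure.pi fun v => nu (a v)).real (E R)
        ≤ (Measure.pi fun v => nu (a v)).real ({x | 10 < ∑ v, (1 * A R v) * (sg (x v) - a v)}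
        ∪ {x | 10 < ∑ v, (-1 * A R v) * (sg (x v) - a v)}) :=
          measureReal_mono hsub (measure_ne_top _ _)
      _ ≤ _ := measureReal_union_le _ _
      _ ≤ 2 * Real.exp (-8 * lam) := by linarith
  have hcard : ∀ R, ((Finset.univ.filter (fun R' => ¬ Disjoint (S R) (S R'))).card : ℝ) ≤ t ^ 3 := by
    intro R
    have hsub : Finset.univ.filter (fun R' => ¬ Disjoint (S R) (S R'))
        ⊆ (S R).biUnion fun v => Finset.univ.filter (fun R' => A R' v ≠ 0) := by
      intro R' hR'
      simp only [Finset.mem_filter, Finset.mem_univ, true_and] at hR'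
      rw [Finset.not_disjoint_iff] at hR'
      obtain ⟨v, hv1, hv2⟩ := hR'
      rw [Finset.mem_biUnion]
      refine ⟨v, hv1, ?_⟩
      simp only [hS, Finset.mem_filter, Finset.mem_univ, true_and] at hv2 ⊢
      exact hv2
    have h1 : ((Finset.univ.filter (fun R' => ¬ Disjoint (S R) (S R'))).card : ℝ)
        ≤ ∑ v ∈ S R, ((Finset.univ.filter (fun R' => A R' v ≠ 0)).card : ℝ) := by
      exact_mod_cast (Finset.card_le_card hsub).trans Finset.card_biUnion_le
    have h2 : ∑ v ∈ S R, ((Finset.univ.filter (fun R' => A R' v ≠ 0)).card : ℝ)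
        ≤ ∑ v ∈ S R, t ^ (3/2 : ℝ) := Finset.sum_le_sum fun v _ => hA5 v
    rw [Finset.sum_const, nsmul_eq_mul] at h2
    have h3 : ((S R).card : ℝ) ≤ t ^ (3/2 : ℝ) := hA4 R
    have h4 : ((S R).card : ℝ) * t ^ (3/2 : ℝ) ≤ t ^ (3/2 : ℝ) * t ^ (3/2 : ℝ) :=
      mul_le_mul_of_nonneg_right h3 (by positivity)
    have h5 : t ^ (3/2 : ℝ) * t ^ (3/2 : ℝ) = t ^ 3 := by
      rw [← Real.rpow_add ht0, show (3/2 : ℝ) + 3/2 = ((3 : ℕ) : ℝ) by norm_num, Real.rpow_natCast]
    linarith
  have hN : 1 ≤ ⌊t ^ 3⌋₊ := by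
    apply Nat.le_floor
    simpa using one_le_pow₀ ht1 (n := 3)
  obtain ⟨x, hx⟩ := hL V W (fun v => nu (a v)) E S hEm (by
      intro R x y hxy hx
      simp only [hE, Set.mem_setOf_eq] at hx ⊢
      have : ∑ v, A R v * (sg (y v) - a v) = ∑ v, A R v * (sg (x v) - a v) := by
        refine Finset.sum_congr rfl fun v _ => ?_
        by_cases h : A R v = 0
        · rw [h]; ring
        · rw [hxy v (by simp [hS, h])]
      rw [this]; exact hx)
    (2 * Real.exp (-8 * lam)) ⌊t ^ 3⌋₊ (by positivity) hN hEp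
    (by
      intro R
      apply Nat.le_floor
      have := hcard R
      convert this using 3)
    (by
      have h1 : (⌊t ^ 3⌋₊ : ℝ) ≤ t ^ 3 := Nat.floor_le (by positivity)
      have h2 : Real.exp (-8 * lam) = (t ^ 8)⁻¹ := by
        rw [hlam, show -8 * Real.log t = -(8 * Real.log t) by ring, Real.exp_neg,
          show 8 * Real.log t = ((8 : ℕ) : ℝ) * Real.log t by norm_num, ← Real.log_pow,
          Real.exp_log (by positivity)]
      have h3 : (0:ℝ) ≤ 4 * (2 * Real.exp (-8 * lam)) := by positivity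
      refine (mul_le_mul_of_nonneg_left h1 h3).trans ?_
      rw [h2]
      have h5 : (8:ℝ) ≤ t ^ 5 := by
        calc (8:ℝ) ≤ t := by linarith
          _ ≤ t ^ 5 := le_self_pow₀ ht1 (by norm_num)
      have h6 : 4 * (2 * (t ^ 8)⁻¹) * t ^ 3 = 8 / t ^ 5 := by
        field_simp
        ring
      rw [h6, div_le_one (by positivity)]
      exact h5)
  refine ⟨fun v => sg (x v), fun v => sg_pm _, fun R => ?_⟩
  have := hx R
  simp only [hE, Set.mem_setOf_eq, not_lt] at this
  exact this

end Pool.Agent.H320R2.LD
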