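import Pool.Agent.H320R2.LD.Defs

/-!
# Shift of one Gaussian coordinate (task SH, helper439)
-/

set_option autoImplicit false

open MeasureTheory ProbabilityTheory

namespace Pool.Agent.H320R2.LD

namespace SH

/-- the interval integral of the difference of a bounded monotone function -/
theorem interval_bound (u : ℝ → ℝ) (hu : Monotone u) (hb : ∀ x, |u x| ≤ 1) (c T : ℝ)
    (hc : 0 ≤ c) :
    ∫ x in (-T)..T, (u (x + c) - u x) ≤ 2 * c := by
  have hi : ∀ a b : ℝ, IntervalIntegrable u volume a b := fun a b => hu.intervalIntegrable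
  have hi' : ∀ a b : ℝ, IntervalIntegrable (fun x => u (x + c)) volume a b := fun a b =>
    (hu.comp (fun x y h => by simpa using h)).intervalIntegrable
  rw [intervalIntegral.integral_sub (hi' _ _) (hi _ _),
    intervalIntegral.integral_comp_add_right (fun x => u x)]
  have h1 : (∫ x in (-T + c)..(T + c), u x) - ∫ x in (-T)..T, u x =
      (∫ x in T..(T + c), u x) - ∫ x in (-T)..(-T + c), u x := by
    have h2 := intervalIntegral.integral_add_adjacent_intervals (hi (-T) (-T + c)) (hi (-T + c) (T + c))
    have h3 := intervalIntegral.integral_add_adjacent_intervals (hi (-T) T) (hi T (T + c))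
    linarith
  rw [h1]
  have h4 : |∫ x in T..(T + c), u x| ≤ c := by
    have := intervalIntegral.norm_integral_le_of_norm_le_const (a := T) (b := T + c) (C := 1)
      (f := u) (fun x _ => by simpa using hb x)
    simpa [abs_of_nonneg hc] using this
  have h5 : |∫ x in (-T)..(-T + c), u x| ≤ c := by
    have := intervalIntegral.norm_integral_le_of_norm_le_const (a := -T) (b := -T + c) (C := 1)
      (f := u) (fun x _ => by simpa using hb x)
    simpa [abs_of_nonneg hc] using this
  have h6 := abs_le.1 h4
  have h7 := abs_le.1 h5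
  linarith [h6.2, h7.1]

/-- the one dimensional estimate -/
theorem one_dim (u : ℝ → ℝ) (hu : Monotone u) (hb : ∀ x, |u x| ≤ 1) (c : ℝ)
    (hc : 0 ≤ c) :
    ∫ x, (u (x + c) - u x) ∂(gaussianReal 0 1) ≤ c := by
  rw [integral_gaussianReal_eq_integral_smul (by norm_num : (1 : NNReal) ≠ 0)]
  have hmeas : Measurable fun x => u (x + c) - u x :=
    (hu.measurable.comp (measurable_id.add_const c)).sub hu.measurable
  have hint : Integrable (fun x => gaussianPDFReal 0 1 x • (u (x + c) - u x)) := by
    have h1 : Integrable (gaussianPDFReal 0 1) := integrable_gaussianPDFReal 0 1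
    refine (h1.mul_const 2).mono ?_ ?_
    · exact ((measurable_gaussianPDFReal 0 1).smul hmeas).aestronglyMeasurable
    · refine Filter.Eventually.of_forall (fun x => ?_)
      rw [smul_eq_mul, norm_mul, norm_mul]
      apply mul_le_mul_of_nonneg_left _ (norm_nonneg _)
      rw [Real.norm_eq_abs, Real.norm_eq_abs]
      have h2 := abs_le.1 (hb (x + c))
      have h3 := abs_le.1 (hb x)
      rw [abs_of_nonneg (by norm_num : (0 : ℝ) ≤ 2), abs_le]
      constructor <;> linarith [h2.1, h2.2, h3.1, h3.2]
  have hlim := intervalIntegral_tendsto_integral hint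
    (a := fun n : ℕ => -(n : ℝ)) (b := fun n : ℕ => (n : ℝ)) (l := Filter.atTop)
    (Filter.tendsto_neg_atTop_atBot.comp tendsto_natCast_atTop_atTop)
    tendsto_natCast_atTop_atTop
  refine le_of_tendsto hlim (Filter.Eventually.of_forall (fun n => ?_))
  have hn : -(n : ℝ) ≤ n := by
    have : (0 : ℝ) ≤ n := Nat.cast_nonneg n
    linarith
  have hi : ∀ a b : ℝ, IntervalIntegrable u volume a b := fun a b => hu.intervalIntegrable
  have hi' : ∀ a b : ℝ, IntervalIntegrable (fun x => u (x + c)) volume a b := fun a b =>
    (hu.comp (fun x y h => by simpa using h)).intervalIntegrable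
  have hpdf : ∀ x, gaussianPDFReal 0 1 x ≤ 1 / 2 := by
    intro x
    rw [gaussianPDFReal]
    have h1 : Real.exp (-(x - 0) ^ 2 / (2 * ((1 : NNReal) : ℝ))) ≤ 1 := by
      rw [Real.exp_le_one_iff]
      have : 0 ≤ (x - 0) ^ 2 := sq_nonneg _
      simp only [NNReal.coe_one]
      linarith
    have h2 : (Real.sqrt (2 * Real.pi * ((1 : NNReal) : ℝ)))⁻¹ ≤ 1 / 2 := by
      rw [NNReal.coe_one, mul_one, one_div]
      apply inv_anti₀ (by norm_num)
      rw [show (2 : ℝ) = Real.sqrt (2 ^ 2) by rw [Real.sqrt_sq (by norm_num)]]
      apply Real.sqrt_le_sqrt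
      rw [Real.sqrt_sq (by norm_num)]
      have := Real.pi_gt_three
      linarith
    calc _ ≤ (1 / 2 : ℝ) * 1 := by
          apply mul_le_mul h2 h1 (Real.exp_pos _).le (by norm_num)
      _ = 1 / 2 := by ring
  calc ∫ x in (-(n : ℝ))..n, gaussianPDFReal 0 1 x • (u (x + c) - u x)
      ≤ ∫ x in (-(n : ℝ))..n, (1 / 2 : ℝ) * (u (x + c) - u x) := by
        apply intervalIntegral.integral_mono_on hn
        · exact hint.intervalIntegrable
        · exact ((hi' _ _).sub (hi _ _)).const_mul _
        · intro x _
          rw [smul_eq_mul]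
          apply mul_le_mul_of_nonneg_right (hpdf x)
          have := hu (show x ≤ x + c by linarith)
          linarith
    _ = (1 / 2 : ℝ) * ∫ x in (-(n : ℝ))..n, (u (x + c) - u x) :=
        intervalIntegral.integral_const_mul _ _
    _ ≤ (1 / 2 : ℝ) * (2 * c) := by
        apply mul_le_mul_of_nonneg_left _ (by norm_num)
        exact interval_bound u hu hb c n hc
    _ = c := by ring

end SH

theorem prove_SH (hMIX : St_MIX) : St_SH := by
  classical
  intro V _ f v c hc hf hb hmono
  have hshift : ∀ (x : V → ℝ) (a : ℝ), (fun u => x u + if u = v then a else 0) =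
      Function.update x v (x v + a) := by
    intro x a
    funext u
    by_cases h : u = v
    · subst h
      simp
    · simp [h]
  have hmp : MeasurePreserving (fun p : (V → ℝ) × (V → ℝ) => mix {v} p.1 p.2)
    ((gam V).prod (gam V)) (gam V) := hMIX V (fun _ => gaussianReal 0 1) {v}
  have hmixu : ∀ x y : V → ℝ, mix {v} x y = Function.update y v (x v) := by
    intro x y
    funext u
    unfold mix
    by_cases h : u = v
    · subst h
      simp
    · simp [h]
  set F : (V → ℝ) → ℝ := fun x => f (fun u => x u + if u = v then c else 0) - f x with hF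
  have hFc : Continuous F := by
    refine Continuous.sub (hf.comp ?_) hf
    refine continuous_pi (fun u => ?_)
    exact (continuous_apply u).add continuous_const
  have hFb : ∀ x, ‖F x‖ ≤ 2 := by
    intro x
    have h2 := abs_le.1 (hb (fun u => x u + if u = v then c else 0))
    have h3 := abs_le.1 (hb x)
    rw [Real.norm_eq_abs, abs_le]
    simp only [hF]
    constructor <;> linarith [h2.1, h2.2, h3.1, h3.2]
  have h1 : ∫ x, F x ∂(gam V) =
      ∫ p, F (mix {v} p.1 p.2) ∂((gam V).prod (gam V)) := by
    have e := integral_map (μ := (gam V).prod (gam V)) (f := F) hmp.measurable.aemeasurable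
      hFc.measurable.aestronglyMeasurable
    rw [hmp.map_eq] at e
    exact e
  have hint : Integrable (fun p : (V → ℝ) × (V → ℝ) => F (mix {v} p.1 p.2))
      ((gam V).prod (gam V)) := by
    refine Integrable.of_bound ?_ 2 (Filter.Eventually.of_forall (fun p => hFb _))
    exact (hFc.measurable.comp hmp.measurable).aestronglyMeasurable
  rw [h1, integral_prod_symm _ hint]
  have h2 : ∀ y : V → ℝ, ∫ x, F (mix {v} x y) ∂(gam V) ≤ c := by
    intro y
    let u : ℝ → ℝ := fun a => f (Function.update y v a)
    have hu : Monotone u := by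
      intro a b hab
      have := hmono (Function.update y v a) (b - a) (by linarith)
      rw [hshift] at this
      simpa [u] using this
    have h3 : ∀ x : V → ℝ, F (mix {v} x y) = u (x v + c) - u (x v) := by
      intro x
      simp only [hF, u]
      rw [hshift, hmixu]
      simp
    have h4 : ∫ x, F (mix {v} x y) ∂(gam V) = ∫ x, (fun a => u (a + c) - u a) (x v) ∂(gam V) :=
      integral_congr_ae (Filter.Eventually.of_forall h3)
    have hev : MeasurePreserving (Function.eval v) (gam V) (gaussianReal 0 1) :=
      measurePreserving_eval (fun _ => gaussianReal 0 1) v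
    have h5 : ∫ x, (fun a => u (a + c) - u a) (x v) ∂(gam V) =
        ∫ a, (u (a + c) - u a) ∂(gaussianReal 0 1) := by
      have e := integral_map (μ := gam V) (f := fun a => u (a + c) - u a)
        hev.measurable.aemeasurable ((hu.measurable.comp (measurable_id.add_const c)).sub
          hu.measurable).aestronglyMeasurable
      rw [hev.map_eq] at e
      exact e.symm
    rw [h4, h5]
    exact SH.one_dim u hu (fun x => hb _) c hc
  calc ∫ y, ∫ x, F (mix {v} x y) ∂(gam V) ∂(gam V) ≤ ∫ _y : V → ℝ, c ∂(gam V) := by
        apply integral_mono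
        · exact hint.integral_prod_right
        · exact integrable_const c
        · exact h2
    _ = c := by simp

end Pool.Agent.H320R2.LD
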