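import Pool.Agent.H320R2.LD.Defs

set_option autoImplicit false

/-!
# Discrepancy of sparse matrices: response to a shift of one coordinate
-/

open MeasureTheory ProbabilityTheory

namespace Pool.Agent.H320R2.LD

namespace SHIFT

/-- Cauchy-Schwarz with a relation between the terms -/
theorem sum_cs {W : Type} (s : Finset W) (x f g : W → ℝ) (hf : ∀ R, 0 ≤ f R)
    (hg : ∀ R, 0 ≤ g R) (h : ∀ R, x R ^ 2 ≤ f R * g R) :
    (∑ R ∈ s, x R) ^ 2 ≤ (∑ R ∈ s, f R) * (∑ R ∈ s, g R) := by
  have h1 : |∑ R ∈ s, x R| ≤ ∑ R ∈ s, Real.sqrt (f R) * Real.sqrt (g R) := by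
    refine (Finset.abs_sum_le_sum_abs _ _).trans (Finset.sum_le_sum fun R _ => ?_)
    rw [← Real.sqrt_mul (hf R)]
    exact Real.abs_le_sqrt (h R)
  have h2 := Finset.sum_mul_sq_le_sq_mul_sq s (fun R => Real.sqrt (f R)) (fun R => Real.sqrt (g R))
  have h3 : (∑ R ∈ s, x R) ^ 2 ≤ (∑ R ∈ s, Real.sqrt (f R) * Real.sqrt (g R)) ^ 2 := by
    rw [← sq_abs (∑ R ∈ s, x R)]
    exact pow_le_pow_left₀ (abs_nonneg _) h1 2
  refine h3.trans (h2.trans (le_of_eq ?_))
  congr 1
  · exact Finset.sum_congr rfl fun R _ => Real.sq_sqrt (hf R)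
  · exact Finset.sum_congr rfl fun R _ => Real.sq_sqrt (hg R)

/-- the stiffness is nonnegative -/
theorem hf_nonneg (K w0 x : ℝ) : 0 ≤ hf K w0 x := by
  unfold hf
  positivity

/-- final algebra -/
theorem final {δ D X L E : ℝ} (hδ : 0 < δ) (hL : 0 ≤ L) (hE : 0 ≤ E) (h1 : δ = D + X)
    (h2 : X ^ 2 ≤ L * E) (h3 : D ^ 2 + E ≤ δ * D) : δ * (1 - L) ≤ D := by
  have h4 : (2 * D * X) ^ 2 ≤ (E + L * D ^ 2) ^ 2 := by
    have h5 : (2 * D * X) ^ 2 ≤ 4 * D ^ 2 * (L * E) := by
      have : (2 * D * X) ^ 2 = 4 * D ^ 2 * X ^ 2 := by ring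
      rw [this]
      exact mul_le_mul_of_nonneg_left h2 (by positivity)
    nlinarith [sq_nonneg (E - L * D ^ 2)]
  have h6 := (abs_le_of_sq_le_sq' h4 (by positivity)).2
  have h7 : δ ^ 2 ≤ (1 + L) * (D ^ 2 + E) := by
    rw [h1]
    nlinarith
  have h8 : δ ^ 2 ≤ (1 + L) * (δ * D) :=
    h7.trans (mul_le_mul_of_nonneg_left h3 (by positivity))
  have h9 : δ ≤ (1 + L) * D := by
    by_contra hc
    push Not at hc
    nlinarith
  have h10 : 0 < 1 + L := by positivity
  have h11 : δ * (1 - L) * (1 + L) ≤ D * (1 + L) := by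
    have : δ * (1 - L) * (1 + L) = δ - δ * L ^ 2 := by ring
    rw [this]
    have : 0 ≤ δ * L ^ 2 := by positivity
    linarith
  exact le_of_mul_le_mul_right h11 h10

end SHIFT

open SHIFT in
/-- response to a shift of one coordinate -/
theorem prove_SHIFT (hTWO : St_TWO) (hP1 : St_POT1) (hP2 : St_POT2) : St_SHIFT := by
  classical
  intro V W _ _ b K w0 hK hw0 hw1 hb δ hδ hδ2 v y z z' hz hz'
  obtain ⟨-, -, hmono, -, -, -, hlip, -⟩ := hP1 K w0 hK hw0 hw1
  obtain ⟨-, -, hcmp, -⟩ := hP2 K w0 hK hw0 hw1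
  set y' : V → ℝ := fun u => y u + if u = v then δ else 0 with hy'
  obtain ⟨-, hen, hnrm, -⟩ := hTWO V W b (pf K w0) hmono y y' z z' hz hz'
  set D : ℝ := z' v - z v with hD
  -- right hand side of the energy inequality
  have hrhs : ∑ u, (y' u - y u) * (z' u - z u) = δ * D := by
    have : ∀ u, (y' u - y u) * (z' u - z u) = if u = v then δ * D else 0 := by
      intro u
      simp only [hy']
      split_ifs with h
      · subst h; ring
      · ring
    rw [Finset.sum_congr rfl fun u _ => this u]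
    simp
  rw [hrhs] at hen
  set e : W → ℝ := fun R => (pf K w0 (eta b z' R) - pf K w0 (eta b z R)) *
    (eta b z' R - eta b z R) with he
  have he0 : ∀ R, 0 ≤ e R := by
    intro R
    simp only [he]
    rcases le_total (eta b z R) (eta b z' R) with h | h
    · exact mul_nonneg (sub_nonneg.2 (hmono h)) (sub_nonneg.2 h)
    · exact mul_nonneg_of_nonpos_of_nonpos (sub_nonpos.2 (hmono h)) (sub_nonpos.2 h)
  have hE0 : 0 ≤ ∑ R, e R := Finset.sum_nonneg fun R _ => he0 R
  have hDn : D ^ 2 ≤ nsq (z' - z) := by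
    unfold nsq
    have := Finset.single_le_sum (f := fun u => (z' - z) u ^ 2) (fun u _ => sq_nonneg _)
      (Finset.mem_univ v)
    simpa [hD] using this
  have hn0 : 0 ≤ nsq (z' - z) := Finset.sum_nonneg fun u _ => sq_nonneg _
  have h3 : D ^ 2 + ∑ R, e R ≤ δ * D := by linarith
  have hD0 : 0 ≤ D := by
    by_contra hc
    push Not at hc
    nlinarith [sq_nonneg D]
  -- the norm of the shift
  have hny : nrm (y' - y) = δ := by
    unfold nrm nsq
    have : ∀ u, (y' - y) u ^ 2 = if u = v then δ ^ 2 else 0 := by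
      intro u
      simp only [hy', Pi.sub_apply]
      split_ifs with h
      · ring
      · ring
    rw [Finset.sum_congr rfl fun u _ => this u]
    simp [Real.sqrt_sq hδ.le]
  rw [hny] at hnrm
  have hnsq : nsq (z' - z) ≤ δ ^ 2 := by
    have h1 : nsq (z' - z) = nrm (z' - z) ^ 2 := (Real.sq_sqrt hn0).symm
    rw [h1]
    exact pow_le_pow_left₀ (Real.sqrt_nonneg _) hnrm 2
  have hDδ : D ≤ δ := by
    have : D ^ 2 ≤ δ ^ 2 := hDn.trans hnsq
    exact (abs_le_of_sq_le_sq' this hδ.le).2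
  set L : ℝ := 16 * ∑ R, b R v ^ 2 * hf K w0 (eta b z R) with hL
  have hL0 : 0 ≤ L := by
    rw [hL]
    exact mul_nonneg (by norm_num)
      (Finset.sum_nonneg fun R _ => mul_nonneg (sq_nonneg _) (hf_nonneg _ _ _))
  -- the clipped cases
  rcases eq_or_lt_of_le (hz.1 v) with hzv | hzv
  · have : δ * (1 - |z v| - L - δ) ≤ 0 := by
      rw [hzv]
      nlinarith
    linarith
  rcases eq_or_lt_of_le (hz'.1 v) with hzv' | hzv'
  · have h5 : 1 - |z v| ≤ δ := by
      have h6 := abs_sub_abs_le_abs_sub (z' v) (z v)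
      rw [hzv', ← hD, abs_of_nonneg hD0] at h6
      linarith
    have : δ * (1 - |z v| - L - δ) ≤ 0 := by
      refine mul_nonpos_of_nonneg_of_nonpos hδ.le ?_
      linarith
    linarith
  -- the free case
  have hfree : ∀ (F c : ℝ), |c| < 1 → (∀ d : ℝ, |d| ≤ 1 → 0 ≤ F * (d - c)) → F = 0 := by
    intro F c hc h
    have h1 := h 1 (by norm_num)
    have h2 := h (-1) (by norm_num)
    rw [abs_lt] at hc
    rcases lt_trichotomy F 0 with hF | hF | hF
    · nlinarith
    · exact hF
    · nlinarith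
  have hF := hfree _ _ hzv (hz.2 v)
  have hF' := hfree _ _ hzv' (hz'.2 v)
  have hy'v : y' v = y v + δ := by simp [hy']
  have h1 : δ = D + ∑ R, b R v * (pf K w0 (eta b z' R) - pf K w0 (eta b z R)) := by
    have : ∑ R, b R v * (pf K w0 (eta b z' R) - pf K w0 (eta b z R)) =
        ∑ R, b R v * pf K w0 (eta b z' R) - ∑ R, b R v * pf K w0 (eta b z R) := by
      rw [← Finset.sum_sub_distrib]
      exact Finset.sum_congr rfl fun R _ => by ring
    rw [this, hD]
    rw [hy'v] at hF'
    linarith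
  -- the row sums move little
  have hη : ∀ R, |eta b z' R - eta b z R| ≤ w0 / 2 := by
    intro R
    have h4 : eta b z' R - eta b z R = ∑ u, b R u * (z' - z) u := by
      unfold eta
      rw [← Finset.sum_sub_distrib]
      exact Finset.sum_congr rfl fun u _ => by simp only [Pi.sub_apply]; ring
    have h5 := Finset.sum_mul_sq_le_sq_mul_sq Finset.univ (b R) (z' - z)
    rw [← h4] at h5
    have h6 : (eta b z' R - eta b z R) ^ 2 ≤ δ ^ 2 := by
      refine h5.trans ?_
      have h7 : (∑ u, b R u ^ 2) * ∑ u, (z' - z) u ^ 2 ≤ 1 * δ ^ 2 :=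
        mul_le_mul (hb R) hnsq hn0 (by norm_num)
      linarith
    have := abs_le_of_sq_le_sq h6 hδ.le
    linarith
  have hterm : ∀ R, (b R v * (pf K w0 (eta b z' R) - pf K w0 (eta b z R))) ^ 2 ≤
      (16 * (b R v ^ 2 * hf K w0 (eta b z R))) * e R := by
    intro R
    have hh := hf_nonneg K w0 (eta b z R)
    have hc1 : hf K w0 (eta b z' R) ≤ 16 * hf K w0 (eta b z R) := hcmp _ _ (hη R)
    have key : (pf K w0 (eta b z' R) - pf K w0 (eta b z R)) ^ 2 ≤
        16 * hf K w0 (eta b z R) * e R := by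
      simp only [he]
      rcases le_total (eta b z R) (eta b z' R) with h | h
      · have h7 := hlip _ _ h
        have h8 : max (hf K w0 (eta b z R)) (hf K w0 (eta b z' R)) ≤
            16 * hf K w0 (eta b z R) := max_le (by linarith) hc1
        have h9 := hmono h
        have h10 : pf K w0 (eta b z' R) - pf K w0 (eta b z R) ≤
            16 * hf K w0 (eta b z R) * (eta b z' R - eta b z R) :=
          h7.trans (mul_le_mul_of_nonneg_right h8 (sub_nonneg.2 h))
        have h11 : 0 ≤ pf K w0 (eta b z' R) - pf K w0 (eta b z R) := sub_nonneg.2 h9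
        nlinarith
      · have h7 := hlip _ _ h
        have h8 : max (hf K w0 (eta b z' R)) (hf K w0 (eta b z R)) ≤
            16 * hf K w0 (eta b z R) := max_le hc1 (by linarith)
        have h9 := hmono h
        have h10 : pf K w0 (eta b z R) - pf K w0 (eta b z' R) ≤
            16 * hf K w0 (eta b z R) * (eta b z R - eta b z' R) :=
          h7.trans (mul_le_mul_of_nonneg_right h8 (sub_nonneg.2 h))
        have h11 : 0 ≤ pf K w0 (eta b z R) - pf K w0 (eta b z' R) := sub_nonneg.2 h9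
        nlinarith
    calc (b R v * (pf K w0 (eta b z' R) - pf K w0 (eta b z R))) ^ 2
        = b R v ^ 2 * (pf K w0 (eta b z' R) - pf K w0 (eta b z R)) ^ 2 := by ring
      _ ≤ b R v ^ 2 * (16 * hf K w0 (eta b z R) * e R) :=
          mul_le_mul_of_nonneg_left key (sq_nonneg _)
      _ = (16 * (b R v ^ 2 * hf K w0 (eta b z R))) * e R := by ring
  have h2 := sum_cs Finset.univ _ (fun R => 16 * (b R v ^ 2 * hf K w0 (eta b z R))) e
    (fun R => mul_nonneg (by norm_num) (mul_nonneg (sq_nonneg _) (hf_nonneg _ _ _))) he0 hterm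
  rw [← Finset.mul_sum, ← hL] at h2
  have h12 := final hδ hL0 hE0 h1 h2 h3
  have h13 : δ * (1 - |z v| - L - δ) ≤ δ * (1 - L) := by
    refine mul_le_mul_of_nonneg_left ?_ hδ.le
    have := abs_nonneg (z v)
    linarith
  linarith

end Pool.Agent.H320R2.LD
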