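import Pool.Agent.H320R2.LD.Defs

/-! # Task TWO: two inputs (helper215) -/

set_option autoImplicit false

namespace Pool.Agent.H320R2.LD

theorem prove_TWO : St_TWO := by
  intro V W _ _ b p hp y y' z z' h h'
  have c1 : ∀ v, (z' v - z v) * ((z' v - z v) - (y' v - y v)
      + ∑ R, b R v * (p (eta b z' R) - p (eta b z R))) ≤ 0 := by
    intro v
    have e1 := h.2 v (z' v) (h'.1 v)
    have e2 := h'.2 v (z v) (h.1 v)
    have e3 : ∑ R, b R v * (p (eta b z' R) - p (eta b z R)) =
        (∑ R, b R v * p (eta b z' R)) - ∑ R, b R v * p (eta b z R) := by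
      rw [← Finset.sum_sub_distrib]
      exact Finset.sum_congr rfl fun R _ => by ring
    rw [e3]
    nlinarith
  have c2 : nsq (z' - z) + ∑ R, (p (eta b z' R) - p (eta b z R)) * (eta b z' R - eta b z R)
      ≤ ∑ v, (y' v - y v) * (z' v - z v) := by
    have e1 := Finset.sum_nonpos (s := Finset.univ) fun v _ => c1 v
    have e2 : ∑ v, (z' v - z v) * ((z' v - z v) - (y' v - y v)
        + ∑ R, b R v * (p (eta b z' R) - p (eta b z R))) =
        nsq (z' - z) - ∑ v, (y' v - y v) * (z' v - z v) +
          ∑ v, ∑ R, (p (eta b z' R) - p (eta b z R)) * (b R v * (z' v - z v)) := by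
      unfold nsq
      rw [← Finset.sum_sub_distrib, ← Finset.sum_add_distrib]
      refine Finset.sum_congr rfl fun v _ => ?_
      have e3 : ∑ R, (p (eta b z' R) - p (eta b z R)) * (b R v * (z' v - z v)) =
          (z' v - z v) * ∑ R, b R v * (p (eta b z' R) - p (eta b z R)) := by
        rw [Finset.mul_sum]
        exact Finset.sum_congr rfl fun R _ => by ring
      rw [e3, Pi.sub_apply]
      ring
    have e4 : ∑ v, ∑ R, (p (eta b z' R) - p (eta b z R)) * (b R v * (z' v - z v)) =
        ∑ R, (p (eta b z' R) - p (eta b z R)) * (eta b z' R - eta b z R) := by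
      rw [Finset.sum_comm]
      refine Finset.sum_congr rfl fun R _ => ?_
      rw [← Finset.mul_sum]
      congr 1
      unfold eta
      rw [← Finset.sum_sub_distrib]
      exact Finset.sum_congr rfl fun v _ => by ring
    rw [e2, e4] at e1
    linarith
  have c3 : 0 ≤ ∑ R, (p (eta b z' R) - p (eta b z R)) * (eta b z' R - eta b z R) := by
    apply Finset.sum_nonneg
    intro R _
    rcases le_total (eta b z R) (eta b z' R) with hle | hle
    · exact mul_nonneg (sub_nonneg.2 (hp hle)) (sub_nonneg.2 hle)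
    · exact mul_nonneg_of_nonpos_of_nonpos (sub_nonpos.2 (hp hle)) (sub_nonpos.2 hle)
  have hD : 0 ≤ nsq (z' - z) := by
    unfold nsq
    exact Finset.sum_nonneg fun v _ => sq_nonneg _
  refine ⟨c1, c2, ?_, ?_⟩
  · have e1 : ∑ v, (y' v - y v) * (z' v - z v) ≤ nrm (y' - y) * nrm (z' - z) := by
      have := Real.sum_mul_le_sqrt_mul_sqrt Finset.univ (fun v => y' v - y v)
        (fun v => z' v - z v)
      exact this
    have e2 : nrm (z' - z) ^ 2 = nsq (z' - z) := by
      unfold nrm
      rw [Real.sq_sqrt hD]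
    have e3 : 0 ≤ nrm (z' - z) := Real.sqrt_nonneg _
    have e4 : 0 ≤ nrm (y' - y) := Real.sqrt_nonneg _
    by_contra hcon
    push Not at hcon
    have e5 : 0 < nrm (z' - z) := lt_of_le_of_lt e4 hcon
    nlinarith
  · have e1 : ∑ v, (y' v - y v) * (z' v - z v) - nsq (z' - z) ≤ nsq (y' - y) / 4 := by
      unfold nsq
      rw [← Finset.sum_sub_distrib, Finset.sum_div]
      apply Finset.sum_le_sum
      intro v _
      rw [Pi.sub_apply, Pi.sub_apply]
      nlinarith [sq_nonneg ((y' v - y v) / 2 - (z' v - z v))]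
    linarith

end Pool.Agent.H320R2.LD
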