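import Pool.Agent.H320R2.LD.MGF
import Pool.Agent.H320R2.LD.CONC
import Pool.Agent.H320R2.LD.MOM
import Pool.Agent.H320R2.LD.POT1
import Pool.Agent.H320R2.LD.POT2
import Pool.Agent.H320R2.LD.EX
import Pool.Agent.H320R2.LD.TWO
import Pool.Agent.H320R2.LD.SOL
import Pool.Agent.H320R2.LD.SHIFT
import Pool.Agent.H320R2.LD.CT
import Pool.Agent.H320R2.LD.OP
import Pool.Agent.H320R2.LD.MIX
import Pool.Agent.H320R2.LD.LLL
import Pool.Agent.H320R2.LD.COND
import Pool.Agent.H320R2.LD.CH
import Pool.Agent.H320R2.LD.DEP
import Pool.Agent.H320R2.LD.PATH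
import Pool.Agent.H320R2.LD.HOTP
import Pool.Agent.H320R2.LD.FAR
import Pool.Agent.H320R2.LD.EH
import Pool.Agent.H320R2.LD.SH
import Pool.Agent.H320R2.LD.MEAN
import Pool.Agent.H320R2.LD.GEX
import Pool.Agent.H320R2.LD.LOC
import Pool.Agent.H320R2.LD.ITER
import Pool.Agent.H320R2.LD.ROUND
import Pool.Agent.H320R2.LD.MAIN
import Pool.Agent.H320R2.LD.PHASE

set_option autoImplicit false

namespace Pool.Agent.H320R2.LD

theorem chain (hPARAM : St_PARAM) : St_MAIN := by
  have mgf := prove_MGF
  have conc := prove_CONC mgf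
  have mom := prove_MOM mgf
  have pot1 := prove_POT1
  have pot2 := prove_POT2
  have two := prove_TWO
  have sol := prove_SOL pot1 two
  have mix := prove_MIX
  have lll := prove_LLL mix
  have cond := prove_COND conc mix
  have shift := prove_SHIFT two pot1 pot2
  have sh := prove_SH mix
  have mean := prove_MEAN shift sh two sol
  have far := prove_FAR sol conc mom pot2
  have eh := prove_EH sol mom pot2
  have hotp := prove_HOTP sol conc mgf mom pot2
  have ct := prove_CT two pot1
  have loc := prove_LOC hotp prove_PATH prove_CH ct sol cond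
  have phase := prove_PHASE prove_EX sol loc prove_OP prove_DEP lll far eh mean prove_GEX conc
    pot1 hPARAM
  exact prove_MAIN (prove_ITER phase) (prove_ROUND lll)

end Pool.Agent.H320R2.LD
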