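import Pool.Agent.H320R2.LD.Defs

set_option autoImplicit false

open MeasureTheory ProbabilityTheory Filter

namespace Pool.Agent.H320R2.LD
namespace PARAM

lemma ev_rpow (r K : ℝ) (hr : 0 < r) : ∀ᶠ t : ℝ in atTop, K ≤ t ^ r :=
  (tendsto_rpow_atTop hr).eventually_ge_atTop K

lemma ev_log (r K : ℝ) (hr : 0 < r) (hK : 0 < K) : ∀ᶠ t : ℝ in atTop, K * Real.log t ≤ t ^ r := by
  have h := (isLittleO_log_rpow_atTop hr).bound (show (0:ℝ) < 1 / K by positivity)
  filter_upwards [h, eventually_ge_atTop (1:ℝ)] with t ht ht1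
  rw [Real.norm_eq_abs, Real.norm_eq_abs, abs_of_nonneg (Real.log_nonneg ht1),
    abs_of_nonneg (Real.rpow_nonneg (by linarith) _)] at ht
  calc K * Real.log t ≤ K * (1 / K * t ^ r) := mul_le_mul_of_nonneg_left ht hK.le
    _ = t ^ r := by field_simp

end PARAM

set_option maxHeartbeats 4000000 in
open PARAM in
theorem prove_PARAM : St_PARAM := by
  intro M c hM hc
  set κ : ℝ := min c (min (1 / M ^ 2) (1 / 2)) with hκ
  have hκ0 : 0 < κ := by
    rw [hκ]; exact lt_min hc (lt_min (by positivity) (by norm_num))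
  have hκc : κ ≤ c := min_le_left _ _
  have hκM : κ ≤ 1 / M ^ 2 := (min_le_right _ _).trans (min_le_left _ _)
  have hκ2 : κ ≤ 1 / 2 := (min_le_right _ _).trans (min_le_right _ _)
  have hev : ∀ᶠ t : ℝ in atTop, (10 : ℝ) ^ 12 ≤ t ∧ 64 * M ^ 2 ≤ t ∧ 2 * (1 + 2 * M) ≤ t ^ (1/16 : ℝ)
      ∧ 8 ≤ t ^ (9/200 : ℝ) ∧ 128 * M ^ 2 * Real.log t ≤ t ^ (1/8 : ℝ) ∧
      16 * M ^ 2 ≤ t ^ (1/40 : ℝ) ∧ (432 / κ) * Real.log t ≤ t ^ (9/200 : ℝ) ∧
      56 / κ ≤ t ^ (99/100 : ℝ) ∧ 3 * Real.log t ≤ t ^ (1 : ℝ) := by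
    filter_upwards [eventually_ge_atTop ((10:ℝ) ^ 12), eventually_ge_atTop (64 * M ^ 2),
      ev_rpow (1/16) (2 * (1 + 2 * M)) (by norm_num), ev_rpow (9/200) 8 (by norm_num),
      ev_log (1/8) (128 * M ^ 2) (by norm_num) (by positivity),
      ev_rpow (1/40) (16 * M ^ 2) (by norm_num),
      ev_log (9/200) (432 / κ) (by norm_num) (by positivity),
      ev_rpow (99/100) (56 / κ) (by norm_num), ev_log 1 3 (by norm_num) (by norm_num)]
      with t h1 h2 h3 h4 h5 h6 h7 h8 h9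
    exact ⟨h1, h2, h3, h4, h5, h6, h7, h8, h9⟩
  obtain ⟨a, ha⟩ := eventually_atTop.mp hev
  refine ⟨max a 2, le_max_right _ _, ?_⟩
  intro t hta s hs1 hs2 D m hD hm
  obtain ⟨h1, h2, h3, h4, h5, h6, h7, h8, h9⟩ := ha t ((le_max_left _ _).trans hta)
  rw [Real.rpow_one] at h9
  have ht0 : 0 < t := by linarith [show (0:ℝ) < 10 ^ 12 by norm_num]
  have ht1 : 1 ≤ t := by linarith [show (1:ℝ) ≤ 10 ^ 12 by norm_num]
  set L := Real.log t with hL
  have hexpL : Real.exp L = t := Real.exp_log ht0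
  have hL1 : 1 ≤ L := by
    rw [hL, Real.le_log_iff_exp_le ht0]
    have := Real.exp_one_lt_d9
    linarith [show (3:ℝ) ≤ 10 ^ 12 by norm_num]
  -- D
  have hDle : (D : ℝ) ≤ t ^ (3/2 : ℝ) := by
    rw [hD]; exact Nat.floor_le (by positivity)
  have hD1 : 1 ≤ D := by
    rw [hD]
    apply Nat.le_floor
    simpa using Real.one_le_rpow ht1 (by norm_num : (0:ℝ) ≤ 3/2)
  have hD1' : (1:ℝ) ≤ D := by exact_mod_cast hD1
  have hDsq : (D : ℝ) ^ 2 ≤ t ^ 3 := by
    calc (D : ℝ) ^ 2 ≤ (t ^ (3/2 : ℝ)) ^ 2 := pow_le_pow_left₀ (by positivity) hDle 2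
      _ = t ^ 3 := by
        rw [← Real.rpow_natCast, ← Real.rpow_mul ht0.le,
          show (3/2 : ℝ) * ((2 : ℕ) : ℝ) = ((3 : ℕ) : ℝ) by norm_num, Real.rpow_natCast]
  have hDexp : (D : ℝ) ≤ Real.exp (3/2 * L) := by
    rw [mul_comm, hL, ← Real.rpow_def_of_pos ht0]; exact hDle
  have ht3 : t ^ 3 = Real.exp (3 * L) := by
    rw [hL, show (3:ℝ) * Real.log t = ((3 : ℕ) : ℝ) * Real.log t by norm_num, ← Real.log_pow,
      Real.exp_log (by positivity)]
  -- m
  set A := t ^ (9/10 : ℝ) with hA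
  have hA1 : 1 ≤ A := Real.one_le_rpow ht1 (by norm_num)
  have hm1 : 5 * A * L ≤ m := by rw [hm]; exact Nat.le_ceil _
  have hm2 : (m : ℝ) ≤ 6 * A * L := by
    have : (m : ℝ) < 5 * A * L + 1 := by rw [hm]; exact Nat.ceil_lt_add_one (by positivity)
    nlinarith [mul_le_mul hA1 hL1 zero_le_one (by linarith)]
  have hmpos : (1 : ℝ) ≤ m := by nlinarith [mul_le_mul hA1 hL1 zero_le_one (by linarith)]
  have hm1n : 1 ≤ m := by exact_mod_cast hmpos
  -- powers
  have h25 : t ^ (-(1/4) : ℝ) = (t ^ (1/4 : ℝ))⁻¹ := by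
    rw [Real.rpow_neg ht0.le]
  have h14 : 1000 ≤ t ^ (1/4 : ℝ) := by
    calc (1000 : ℝ) = ((10:ℝ) ^ 12) ^ (1/4 : ℝ) := by
          rw [← Real.rpow_natCast, ← Real.rpow_mul (by norm_num)]
          rw [show (((12 : ℕ) : ℝ) * (1/4)) = ((3 : ℕ) : ℝ) by norm_num, Real.rpow_natCast]
          norm_num
      _ ≤ t ^ (1/4 : ℝ) := Real.rpow_le_rpow (by norm_num) h1 (by norm_num)
  have h1164 : (t ^ (1/16 : ℝ)) ^ 4 = t ^ (1/4 : ℝ) := by
    rw [← Real.rpow_natCast, ← Real.rpow_mul ht0.le]; norm_num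
  have h1162 : (t ^ (1/16 : ℝ)) ^ 2 = t ^ (1/8 : ℝ) := by
    rw [← Real.rpow_natCast, ← Real.rpow_mul ht0.le]; norm_num
  have hs0 : 0 < s := lt_of_lt_of_le (by positivity) hs1
  have hsqs : Real.sqrt (1 / s) ≤ t ^ (1/200 : ℝ) := by
    rw [Real.sqrt_le_left (by positivity)]
    rw [← Real.rpow_natCast, ← Real.rpow_mul ht0.le]
    rw [show (1/200 : ℝ) * ((2 : ℕ) : ℝ) = 1/100 by norm_num]
    rw [div_le_iff₀ hs0]
    have : t ^ (1/100 : ℝ) * t ^ (-(1/100) : ℝ) = 1 := by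
      rw [← Real.rpow_add ht0]; norm_num
    calc (1:ℝ) = t ^ (1/100 : ℝ) * t ^ (-(1/100) : ℝ) := this.symm
      _ ≤ t ^ (1/100 : ℝ) * s := mul_le_mul_of_nonneg_left hs1 (by positivity)
  have hst : t ^ (99/100 : ℝ) ≤ s * t := by
    have : t ^ (99/100 : ℝ) = t ^ (-(1/100) : ℝ) * t := by
      nth_rewrite 3 [← Real.rpow_one t]
      rw [← Real.rpow_add ht0]; norm_num
    rw [this]
    exact mul_le_mul_of_nonneg_right hs1 ht0.le
  set U := t ^ (99/100 : ℝ) with hU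
  have hUt : U ≤ t := by
    calc U ≤ t ^ (1:ℝ) := Real.rpow_le_rpow_of_exponent_le ht1 (by norm_num)
      _ = t := Real.rpow_one t
  have hU0 : 0 < U := by positivity
  refine ⟨by linarith [show (1000:ℝ) ≤ 10 ^ 12 by norm_num], hm1n, ?_, h3, ?_, ?_, ?_, ?_, ?_, ?_, ?_⟩
  · -- (3)
    rw [h25]
    rw [show (1/1000 : ℝ) = (1000 : ℝ)⁻¹ by norm_num]
    exact inv_anti₀ (by norm_num) h14
  · -- (5)
    rw [← Real.rpow_neg ht0.le]
    exact Real.rpow_le_rpow_of_exponent_le ht1 (by norm_num)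
  · -- (6)
    exact Real.rpow_le_one_of_one_le_of_nonpos ht1 (by norm_num)
  · -- (7)
    rw [h1164]
    have e1 : (D : ℝ) * Real.sqrt (1 / s) ≤ t ^ (3/2 : ℝ) * t ^ (1/200 : ℝ) :=
      mul_le_mul hDle hsqs (Real.sqrt_nonneg _) (by positivity)
    have e2 : 8 * (t ^ (-(9/10) : ℝ)) ^ 2 * t ^ (1/4 : ℝ) * ((D : ℝ) * Real.sqrt (1 / s))
        ≤ 8 * (t ^ (-(9/10) : ℝ)) ^ 2 * t ^ (1/4 : ℝ) * (t ^ (3/2 : ℝ) * t ^ (1/200 : ℝ)) :=
      mul_le_mul_of_nonneg_left e1 (by positivity)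
    refine e2.trans ?_
    have e3 : (t ^ (-(9/10) : ℝ)) ^ 2 = t ^ (-(9/5) : ℝ) := by
      rw [← Real.rpow_natCast, ← Real.rpow_mul ht0.le]; norm_num
    rw [e3]
    have e4 : 8 * t ^ (-(9/5) : ℝ) * t ^ (1/4 : ℝ) * (t ^ (3/2 : ℝ) * t ^ (1/200 : ℝ))
        = 8 * t ^ (-(9/200) : ℝ) := by
      rw [← Real.rpow_add ht0, mul_assoc, mul_assoc, ← Real.rpow_add ht0, ← Real.rpow_add ht0]
      norm_num
    rw [e4, Real.rpow_neg ht0.le]
    have hp : 0 < t ^ (9/200 : ℝ) := by positivity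
    rw [← div_eq_mul_inv, div_le_one hp]
    exact h4
  · -- (8)
    rw [h1162]
    have e1 : (2 * (D : ℝ) ^ 2) ≤ Real.exp (4 * L) := by
      have h2e : (2:ℝ) ≤ Real.exp L := by rw [hexpL]; linarith [show (2:ℝ) ≤ 10 ^ 12 by norm_num]
      calc 2 * (D : ℝ) ^ 2 ≤ Real.exp L * Real.exp (3 * L) := by
            rw [← ht3]
            exact mul_le_mul h2e hDsq (by positivity) (Real.exp_pos _).le
        _ = Real.exp (4 * L) := by rw [← Real.exp_add]; ring_nf
    have e2 : (2 * (D : ℝ) ^ 2) ^ (4 * m) ≤ Real.exp (16 * m * L) := by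
      calc (2 * (D : ℝ) ^ 2) ^ (4 * m) ≤ (Real.exp (4 * L)) ^ (4 * m) :=
            pow_le_pow_left₀ (by positivity) e1 _
        _ = Real.exp (16 * m * L) := by
            rw [← Real.exp_nat_mul]; push_cast; ring_nf
    have e3 : (2 * (D : ℝ) ^ 2) ^ (4 * m) * Real.exp (-(m : ℝ) * t ^ (1/8 : ℝ) / (4 * M ^ 2))
        ≤ Real.exp (16 * m * L) * Real.exp (-(m : ℝ) * t ^ (1/8 : ℝ) / (4 * M ^ 2)) :=
      mul_le_mul_of_nonneg_right e2 (Real.exp_pos _).le
    refine e3.trans ?_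
    rw [← Real.exp_add, ← Real.exp_nat_mul]
    apply Real.exp_le_exp.mpr
    -- 16 m L - m t^{1/8}/(4M^2) ≤ - 2 t
    have e4 : 16 * L ≤ t ^ (1/8 : ℝ) / (8 * M ^ 2) := by
      rw [le_div_iff₀ (by positivity)]
      nlinarith
    have e5 : 2 * t ≤ m * (t ^ (1/8 : ℝ) / (8 * M ^ 2)) := by
      have f1 : A ≤ m := by nlinarith [mul_le_mul_of_nonneg_left hL1 (by linarith : (0:ℝ) ≤ A)]
      have f2 : A * t ^ (1/8 : ℝ) = t * t ^ (1/40 : ℝ) := by
        nth_rewrite 2 [← Real.rpow_one t]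
        rw [hA, ← Real.rpow_add ht0, ← Real.rpow_add ht0]; norm_num
      have f3 : t * t ^ (1/40 : ℝ) ≤ m * t ^ (1/8 : ℝ) := by
        rw [← f2]; exact mul_le_mul_of_nonneg_right f1 (by positivity)
      have f4 : t * (16 * M ^ 2) ≤ t * t ^ (1/40 : ℝ) := mul_le_mul_of_nonneg_left h6 ht0.le
      rw [← mul_div_assoc, le_div_iff₀ (by positivity)]
      nlinarith
    have e6 : -(m : ℝ) * t ^ (1/8 : ℝ) / (4 * M ^ 2) = -2 * (m * (t ^ (1/8 : ℝ) / (8 * M ^ 2))) := by
      field_simp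
      ring
    rw [e6]
    have e7 : 16 * (m:ℝ) * L ≤ m * (t ^ (1/8 : ℝ) / (8 * M ^ 2)) := by
      calc 16 * (m:ℝ) * L = m * (16 * L) := by ring
        _ ≤ _ := mul_le_mul_of_nonneg_left e4 (by linarith)
    push_cast
    linarith
  · -- (9)
    have e1 : 4 * t ≤ Real.exp t := by
      have : Real.exp t = Real.exp (t / 2) * Real.exp (t / 2) := by
        rw [← Real.exp_add]; ring_nf
      rw [this]
      have f := Real.add_one_le_exp (t / 2)
      have f2 : (t/2 + 1) * (t/2 + 1) ≤ Real.exp (t / 2) * Real.exp (t / 2) :=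
        mul_le_mul f f (by linarith) (Real.exp_pos _).le
      have h12 : (12:ℝ) ≤ t := by linarith [show (12:ℝ) ≤ 10 ^ 12 by norm_num]
      have h12' : t * 12 ≤ t * t := mul_le_mul_of_nonneg_left h12 ht0.le
      have f3 : (t/2 + 1) * (t/2 + 1) = t * t / 4 + t + 1 := by ring
      linarith
    have e2 : 2 * Real.exp (-t) ≤ 1 / (2 * t) := by
      rw [Real.exp_neg, le_div_iff₀ (by positivity)]
      rw [show 2 * (Real.exp t)⁻¹ * (2 * t) = (4 * t) / Real.exp t by field_simp; ring]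
      rw [div_le_one (Real.exp_pos _)]
      exact e1
    have e3 : 1 / t = 1 / (2 * t) + 1 / (2 * t) := by field_simp; ring
    rw [e3]; linarith
  · -- (10)
    rw [div_le_one ht0]
    rw [Real.sqrt_le_left ht0.le]
    calc (D:ℝ) ≤ t ^ (3/2 : ℝ) := hDle
      _ ≤ t ^ (2 : ℝ) := Real.rpow_le_rpow_of_exponent_le ht1 (by norm_num)
      _ = t ^ 2 := by norm_num
  · -- (11)
    have e0 : ((t ^ (-(1/4) : ℝ))⁻¹) ^ 4 = t := by
      rw [h25, inv_inv, ← Real.rpow_natCast, ← Real.rpow_mul ht0.le]; norm_num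
    rw [e0]
    set E := Real.exp (-(κ * U)) with hE
    have hE0 : 0 < E := Real.exp_pos _
    have t1 : Real.exp (-(c * (s * t))) ≤ E := by
      apply Real.exp_le_exp.mpr
      have : κ * U ≤ c * (s * t) := mul_le_mul hκc hst hU0.le hc.le
      linarith
    have t2 : Real.exp (-(t / M ^ 2)) ≤ E := by
      apply Real.exp_le_exp.mpr
      have : κ * U ≤ 1 / M ^ 2 * t := mul_le_mul hκM hUt hU0.le (by positivity)
      rw [one_div, ← div_eq_inv_mul] at this
      linarith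
    have t3 : (D : ℝ) * Real.exp (-t) ≤ E := by
      calc (D : ℝ) * Real.exp (-t) ≤ Real.exp (3/2 * L) * Real.exp (-t) :=
            mul_le_mul_of_nonneg_right hDexp (Real.exp_pos _).le
        _ = Real.exp (3/2 * L - t) := by rw [← Real.exp_add]; ring_nf
        _ ≤ E := by
            apply Real.exp_le_exp.mpr
            have : κ * U ≤ 1 / 2 * t := mul_le_mul hκ2 hUt hU0.le (by norm_num)
            linarith
    have t4 : Real.exp (-((1 / (2 * t)) ^ 2 * Real.exp (4 * t ^ (-(9/10) : ℝ) * m) / (16 * M ^ 2)))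
        ≤ Real.exp (-t) := by
      apply Real.exp_le_exp.mpr
      have f0 : t ^ (-(9/10) : ℝ) * A = 1 := by
        rw [hA, ← Real.rpow_add ht0]; norm_num
      have f1 : 20 * L ≤ 4 * t ^ (-(9/10) : ℝ) * m := by
        calc 20 * L = 4 * (t ^ (-(9/10) : ℝ) * A) * (5 * L) := by rw [f0]; ring
          _ = 4 * t ^ (-(9/10) : ℝ) * (5 * A * L) := by ring
          _ ≤ 4 * t ^ (-(9/10) : ℝ) * m := mul_le_mul_of_nonneg_left hm1 (by positivity)
      have f2 : t ^ 20 ≤ Real.exp (4 * t ^ (-(9/10) : ℝ) * m) := by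
        have : t ^ 20 = Real.exp (20 * L) := by
          rw [hL, show (20:ℝ) * Real.log t = ((20 : ℕ) : ℝ) * Real.log t by norm_num,
            ← Real.log_pow, Real.exp_log (by positivity)]
        rw [this]; exact Real.exp_le_exp.mpr f1
      have f3 : t ≤ (1 / (2 * t)) ^ 2 * t ^ 20 / (16 * M ^ 2) := by
        rw [le_div_iff₀ (by positivity)]
        have g1 : (1 / (2 * t)) ^ 2 * t ^ 20 = t ^ 18 / 4 := by field_simp; ring
        rw [g1]
        have g2 : t * (64 * M ^ 2) ≤ t * t := mul_le_mul_of_nonneg_left h2 ht0.le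
        have g3 : t * t ≤ t ^ 18 := by
          calc t * t = t ^ 2 := by ring
            _ ≤ t ^ 18 := pow_le_pow_right₀ ht1 (by norm_num)
        linarith
      have f4 : (1 / (2 * t)) ^ 2 * t ^ 20 / (16 * M ^ 2)
          ≤ (1 / (2 * t)) ^ 2 * Real.exp (4 * t ^ (-(9/10) : ℝ) * m) / (16 * M ^ 2) := by
        apply div_le_div_of_nonneg_right _ (by positivity)
        exact mul_le_mul_of_nonneg_left f2 (by positivity)
      linarith
    have t4' : (D : ℝ) * Real.exp (-((1 / (2 * t)) ^ 2 *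
        Real.exp (4 * t ^ (-(9/10) : ℝ) * m) / (16 * M ^ 2))) ≤ E :=
      le_trans (mul_le_mul_of_nonneg_left t4 (by positivity)) t3
    have hP : (((D ^ 2 + 1) ^ (2 * (4 * m) + 1) : ℕ) : ℝ) ≤ Real.exp (κ * U / 2) := by
      have g1 : ((D : ℝ) ^ 2 + 1) ≤ Real.exp (4 * L) := by
        have h2e : (2:ℝ) ≤ Real.exp L := by rw [hexpL]; linarith [show (2:ℝ) ≤ 10 ^ 12 by norm_num]
        have h3e : 1 ≤ Real.exp (3 * L) := Real.one_le_exp (by positivity)
        calc (D : ℝ) ^ 2 + 1 ≤ Real.exp (3 * L) + Real.exp (3 * L) := by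
              rw [← ht3] at *; linarith
          _ = 2 * Real.exp (3 * L) := by ring
          _ ≤ Real.exp L * Real.exp (3 * L) := mul_le_mul_of_nonneg_right h2e (Real.exp_pos _).le
          _ = Real.exp (4 * L) := by rw [← Real.exp_add]; ring_nf
      push_cast
      calc ((D : ℝ) ^ 2 + 1) ^ (2 * (4 * m) + 1) ≤ (Real.exp (4 * L)) ^ (2 * (4 * m) + 1) :=
            pow_le_pow_left₀ (by positivity) g1 _
        _ = Real.exp ((2 * (4 * m) + 1) * (4 * L)) := by
            rw [← Real.exp_nat_mul]; push_cast; ring_nf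
        _ ≤ Real.exp (κ * U / 2) := by
            apply Real.exp_le_exp.mpr
            have k1 : (2 * (4 * (m:ℝ)) + 1) * (4 * L) ≤ 36 * m * L := by nlinarith
            have k2 : 36 * m * L ≤ 216 * A * L ^ 2 := by nlinarith
            have k3 : 216 * A * L ^ 2 ≤ κ * U / 2 := by
              have u1 : (t ^ (9/200 : ℝ)) ^ 2 = t ^ (9/100 : ℝ) := by
                rw [← Real.rpow_natCast, ← Real.rpow_mul ht0.le]; norm_num
              have u2 : ((432 / κ) * L) ^ 2 ≤ t ^ (9/100 : ℝ) := by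
                rw [← u1]; exact pow_le_pow_left₀ (by positivity) h7 2
              have u3 : 1 ≤ 432 / κ := by rw [le_div_iff₀ hκ0]; linarith
              have u4 : (432 / κ) * L ^ 2 ≤ ((432 / κ) * L) ^ 2 := by
                rw [mul_pow]
                apply mul_le_mul_of_nonneg_right _ (by positivity)
                nlinarith
              have u5 : (432 / κ) * L ^ 2 ≤ t ^ (9/100 : ℝ) := u4.trans u2
              have u6 : 432 * L ^ 2 ≤ κ * t ^ (9/100 : ℝ) := by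
                have := mul_le_mul_of_nonneg_left u5 hκ0.le
                calc 432 * L ^ 2 = κ * ((432 / κ) * L ^ 2) := by field_simp
                  _ ≤ _ := this
              have u7 : A * t ^ (9/100 : ℝ) = U := by
                rw [hA, hU, ← Real.rpow_add ht0]; norm_num
              have u8 : A * (432 * L ^ 2) ≤ A * (κ * t ^ (9/100 : ℝ)) :=
                mul_le_mul_of_nonneg_left u6 (by positivity)
              have u9 : A * (κ * t ^ (9/100 : ℝ)) = κ * U := by rw [← u7]; ring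
              linarith
            linarith
    have hsum : 4 * (Real.exp (-(c * (s * t))) + 2 * Real.exp (-(t / M ^ 2))
      + D * (2 * Real.exp (-t) + 2 * Real.exp (-((1 / (2 * t)) ^ 2 *
          Real.exp (4 * t ^ (-(9/10) : ℝ) * m) / (16 * M ^ 2))))) ≤ 28 * E := by
      have : (D:ℝ) * (2 * Real.exp (-t) + 2 * Real.exp (-((1 / (2 * t)) ^ 2 *
          Real.exp (4 * t ^ (-(9/10) : ℝ) * m) / (16 * M ^ 2))))
          = 2 * (D * Real.exp (-t)) + 2 * (D * Real.exp (-((1 / (2 * t)) ^ 2 *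
          Real.exp (4 * t ^ (-(9/10) : ℝ) * m) / (16 * M ^ 2)))) := by ring
      rw [this]
      linarith
    have hfin : 28 * E * Real.exp (κ * U / 2) ≤ 1 := by
      have e1 : E * Real.exp (κ * U / 2) = Real.exp (-(κ * U / 2)) := by
        rw [hE, ← Real.exp_add]; ring_nf
      rw [mul_assoc, e1, Real.exp_neg]
      have e2 : 28 ≤ κ * U / 2 := by
        have := (div_le_iff₀ hκ0).mp h8
        linarith
      have e3 := Real.add_one_le_exp (κ * U / 2)
      rw [← div_eq_mul_inv, div_le_one (Real.exp_pos _)]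
      linarith
    calc _ ≤ 28 * E * Real.exp (κ * U / 2) :=
          mul_le_mul hsum hP (by positivity) (by positivity)
      _ ≤ 1 := hfin

end Pool.Agent.H320R2.LD
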