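import Pool.Agent.H320R2.LD.Chain
import Pool.Agent.H320R2.LD.PARAM

set_option autoImplicit false

namespace Pool.Agent.H320R2.LD

/-- The discrepancy of admissible matrices is bounded. -/
theorem main : St_MAIN := chain prove_PARAM

end Pool.Agent.H320R2.LD
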