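import Pool.Agent.H320R2.LD.Defs

set_option autoImplicit false
set_option linter.unusedSectionVars false

namespace Pool.Agent.H320R2.LD

namespace PATH

open Classical

variable {V W : Type} [Fintype V] [Fintype W]

theorem chainTo_append (I : W → V → Prop) (l₁ l₂ : List W) : ∀ (v u : V),
    chainTo I v (l₁ ++ l₂) u ↔ ∃ w, chainTo I v l₁ w ∧ chainTo I w l₂ u := by
  induction l₁ with
  | nil =>
    intro v u
    simp [chainTo]
  | cons R l ih =>
    intro v u
    simp only [List.cons_append, chainTo, ih]
    constructor
    · rintro ⟨h1, w, h2, x, h3, h4⟩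
      exact ⟨x, ⟨h1, w, h2, h3⟩, h4⟩
    · rintro ⟨x, ⟨h1, w, h2, h3⟩, h4⟩
      exact ⟨h1, w, h2, x, h3, h4⟩

theorem chainTo_snoc {I : W → V → Prop} {l : List W} {R : W} {v w u : V}
    (h : chainTo I v l w) (h1 : I R w) (h2 : I R u) : chainTo I v (l ++ [R]) u :=
  (chainTo_append I l [R] v u).2 ⟨w, h, h1, u, h2, rfl⟩

theorem nodup_chain (I : W → V → Prop) (l : List W) : ∀ (v u : V), chainTo I v l u →
    ∃ l' : List W, chainTo I v l' u ∧ l'.Nodup ∧ l'.Sublist l := by
  induction l with
  | nil =>
    intro v u h
    exact ⟨[], h, List.nodup_nil, List.Sublist.refl _⟩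
  | cons R l ih =>
    intro v u h
    obtain ⟨h1, w, h2, h3⟩ := h
    obtain ⟨l', h4, h5, h6⟩ := ih w u h3
    by_cases hR : R ∈ l'
    · obtain ⟨a, b, rfl⟩ := List.append_of_mem hR
      obtain ⟨x, -, h7, y, h8, h9⟩ := (chainTo_append I a (R :: b) w u).1 h4
      refine ⟨R :: b, ⟨h1, y, h8, h9⟩, ?_, ?_⟩
      · exact h5.sublist (List.sublist_append_right a (R :: b))
      · exact ((List.sublist_append_right a (R :: b)).trans h6).trans (List.sublist_cons_self R l)
    · exact ⟨R :: l', ⟨h1, w, h2, h4⟩, List.nodup_cons.2 ⟨hR, h5⟩, h6.cons_cons R⟩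

theorem take_mem (I : W → V → Prop) (n : ℕ) : ∀ (l : List W) (v u : V), chainTo I v l u →
    n ≤ l.length → l.take n ∈ chains I n v := by
  induction n with
  | zero =>
    intro l v u _ _
    simp [chains]
  | succ n ih =>
    intro l v u h hl
    cases l with
    | nil => simp at hl
    | cons R l =>
      obtain ⟨h1, w, h2, h3⟩ := h
      have h4 := ih l w u h3 (by simpa using hl)
      unfold chains
      rw [Finset.mem_biUnion]
      refine ⟨R, by simpa using h1, ?_⟩
      rw [Finset.mem_biUnion]
      refine ⟨w, by simpa using h2, ?_⟩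
      rw [Finset.mem_image]
      exact ⟨_, h4, rfl⟩

theorem count_add (p : W → Bool) (l : List W) :
    l.countP p + l.countP (fun R => !p R) = l.length := by
  induction l with
  | nil => rfl
  | cons R l ih =>
    rw [List.countP_cons, List.countP_cons, List.length_cons]
    cases h : p R <;> simp <;> omega

end PATH

open Classical PATH in
theorem prove_PATH : St_PATH := by
  intro V W _ _ I hot v0 m H
  let cold : W → Bool := fun R => !decide (hot R)
  let P : V → ℕ → Prop := fun u k => 2 * m ≤ k ∨ ∃ l, chainTo I v0 l u ∧ l.countP cold ≤ k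
  let d : V → ℕ := fun u => sInf {k | P u k}
  have hne : ∀ u, {k | P u k}.Nonempty := fun u => ⟨2 * m, Or.inl le_rfl⟩
  have hmem : ∀ u, P u (d u) := fun u => Nat.sInf_mem (hne u)
  have hle : ∀ u k, P u k → d u ≤ k := fun u k h => Nat.sInf_le h
  refine ⟨d, ?_, ?_, ?_, ?_⟩
  · have : d v0 ≤ 0 := hle v0 0 (Or.inr ⟨[], rfl, by simp⟩)
    omega
  · intro R u w hu hw
    apply hle
    rcases hmem w with h | ⟨l, h1, h2⟩
    · left; omega
    · right
      refine ⟨l ++ [R], chainTo_snoc h1 hw hu, ?_⟩
      rw [List.countP_append]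
      have : [R].countP cold ≤ 1 := List.countP_le_length
      omega
  · have key : ∀ R u w, hot R → I R u → I R w → d u ≤ d w := by
      intro R u w hR hu hw
      apply hle
      rcases hmem w with h | ⟨l, h1, h2⟩
      · left; exact h
      · right
        refine ⟨l ++ [R], chainTo_snoc h1 hw hu, ?_⟩
        rw [List.countP_append]
        have : [R].countP cold = 0 := by simp [cold, hR]
        omega
    intro R u w hR hu hw
    exact le_antisymm (key R u w hR hu hw) (key R w u hR hw hu)
  · intro u hu
    by_contra hcon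
    push Not at hcon
    rcases hmem u with h | ⟨l, h1, h2⟩
    · omega
    · obtain ⟨l', h3, h4, h5⟩ := nodup_chain I l v0 u h1
      have h6 : l'.countP cold ≤ l.countP cold := h5.countP_le
      rcases Nat.lt_or_ge (4 * m) l'.length with h7 | h7
      · have h8 := take_mem I (4 * m) l' v0 u h3 h7.le
        have h9 := H _ h8 (h4.sublist (List.take_sublist _ _))
        have h10 : (l'.take (4 * m)).countP (fun R => decide (hot R)) +
            (l'.take (4 * m)).countP cold = (l'.take (4 * m)).length := count_add _ _
        have h11 : (l'.take (4 * m)).countP cold ≤ l'.countP cold :=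
          (List.take_sublist _ _).countP_le
        have h12 : (l'.take (4 * m)).length = 4 * m := by
          rw [List.length_take]; omega
        omega
      · apply hu
        unfold ball
        rw [Finset.mem_filter]
        exact ⟨Finset.mem_univ _, l', h7, h3⟩

end Pool.Agent.H320R2.LD
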