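import Pool.Agent.H320R2.LD.Defs

/-!
# Set systems with sets of size `≤ t` and degrees `≤ t` from `St_MAIN`; the statement S05255
-/

set_option autoImplicit false

open Finset

namespace Pool.Agent.H320R2.LD

namespace WA

/-- set systems -/
theorem sets_of_main (h : St_MAIN) :
    ∃ C : ℝ, 0 < C ∧ ∀ (t m n : ℕ) (S : Fin m → Finset (Fin n)),
      (∀ i, (S i).card ≤ t) →
      (∀ j : Fin n, (Finset.univ.filter (fun i : Fin m => j ∈ S i)).card ≤ t) →
      ∃ x : Fin n → ℤ, (∀ j, x j = 1 ∨ x j = -1) ∧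
        ∀ i : Fin m, |∑ j ∈ S i, (x j : ℝ)| ≤ C * Real.sqrt t := by
  classical
  obtain ⟨C, hC, h⟩ := h
  refine ⟨C, hC, fun t m n S hS hS' => ?_⟩
  rcases Nat.eq_zero_or_pos t with rfl | ht
  · refine ⟨fun _ => 1, fun j => Or.inl rfl, fun i => ?_⟩
    have h0 : S i = ∅ := by
      have := hS i
      rwa [Nat.le_zero, Finset.card_eq_zero] at this
    rw [h0]
    simp
  have ht1 : (1 : ℝ) ≤ t := by exact_mod_cast ht
  have ht0 : (0 : ℝ) < t := by linarith
  have hsq : (0 : ℝ) < Real.sqrt t := Real.sqrt_pos.2 ht0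
  have hsq2 : (1 / Real.sqrt t) ^ 2 = 1 / t := by
    rw [div_pow, Real.sq_sqrt ht0.le, one_pow]
  have ht32 : (t : ℝ) ≤ (t : ℝ) ^ (3/2 : ℝ) := by
    conv_lhs => rw [← Real.rpow_one (t : ℝ)]
    exact Real.rpow_le_rpow_of_exponent_le ht1 (by norm_num)
  let A : Fin m → Fin n → ℝ := fun i j => if j ∈ S i then 1 / Real.sqrt t else 0
  have hA2 : ∀ i j, A i j ^ 2 = if j ∈ S i then 1 / (t : ℝ) else 0 := by
    intro i j
    simp only [A]
    split_ifs
    · exact hsq2
    · norm_num
  have hAne : ∀ i j, A i j ≠ 0 → j ∈ S i := by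
    intro i j hij
    by_contra hj
    exact hij (by simp only [A]; rw [if_neg hj])
  have hadm : Adm (t : ℝ) A := by
    refine ⟨fun R v => ?_, fun R => ?_, fun v => ?_, fun R => ?_, fun v => ?_⟩
    · rw [hA2]
      split_ifs
      · rw [div_mul_cancel₀ _ ht0.ne']
      · norm_num
    · rw [Finset.sum_congr rfl fun v _ => hA2 R v, Finset.sum_ite_mem, Finset.univ_inter,
        Finset.sum_const, nsmul_eq_mul]
      have : ((S R).card : ℝ) ≤ t := by exact_mod_cast hS R
      rw [mul_one_div, div_le_one ht0]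
      exact this
    · rw [Finset.sum_congr rfl fun R _ => hA2 R v, ← Finset.sum_filter, Finset.sum_const,
        nsmul_eq_mul]
      have : ((Finset.univ.filter (fun i : Fin m => v ∈ S i)).card : ℝ) ≤ t := by
        exact_mod_cast hS' v
      rw [mul_one_div, div_le_one ht0]
      exact this
    · refine le_trans ?_ ht32
      have h1 : (Finset.univ.filter (fun v => A R v ≠ 0)).card ≤ (S R).card :=
        Finset.card_le_card fun v hv => hAne R v (Finset.mem_filter.1 hv).2
      have h2 := h1.trans (hS R)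
      exact_mod_cast h2
    · refine le_trans ?_ ht32
      have h1 : (Finset.univ.filter (fun R => A R v ≠ 0)).card ≤
          (Finset.univ.filter (fun i : Fin m => v ∈ S i)).card :=
        Finset.card_le_card fun R hR =>
          Finset.mem_filter.2 ⟨Finset.mem_univ _, hAne R v (Finset.mem_filter.1 hR).2⟩
      have h2 := h1.trans (hS' v)
      exact_mod_cast h2
  obtain ⟨x, hx1, hx2⟩ := h t ht1 (Fin n) (Fin m) A hadm
  refine ⟨fun j => if x j = 1 then 1 else -1, fun j => ?_, fun i => ?_⟩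
  · by_cases hj : x j = 1
    · left
      exact if_pos hj
    · right
      exact if_neg hj
  · have h1 : ∀ j, (((if x j = 1 then 1 else -1 : ℤ)) : ℝ) = x j := by
      intro j
      by_cases hj : x j = 1
      · rw [if_pos hj, hj]
        norm_num
      · rw [if_neg hj, (hx1 j).resolve_left hj]
        norm_num
    rw [Finset.sum_congr rfl fun j _ => h1 j]
    have h2 : ∑ v, A i v * x v = 1 / Real.sqrt t * ∑ j ∈ S i, x j := by
      rw [Finset.mul_sum]
      simp only [A, ite_mul, zero_mul]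
      rw [Finset.sum_ite_mem, Finset.univ_inter]
    have h3 := hx2 i
    rw [h2, abs_mul, abs_of_pos (by positivity : (0 : ℝ) < 1 / Real.sqrt t)] at h3
    rw [one_div, inv_mul_le_iff₀ hsq] at h3
    rw [mul_comm]
    exact h3

end WA

/-- the frozen statement S05255 (MP_27e7d5_co) -/
theorem wrapS05255 (h : St_MAIN) :
    ∃ C : ℝ, ∀ (t m n : ℕ) (S : Fin m → Finset (Fin n)),
      (∀ i, (S i).card ≤ t) →
      (∀ j : Fin n, (Finset.univ.filter (fun i : Fin m => j ∈ S i)).card ≤ t) →
      (∀ i i' : Fin m, i ≠ i' → (S i ∩ S i').card ≤ 1) →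
      ∃ x : Fin n → ℤ, (∀ j, x j = 1 ∨ x j = -1) ∧
        ∀ i : Fin m, |∑ j ∈ S i, (x j : ℝ)| ≤ C * Real.sqrt t := by
  obtain ⟨C, -, h⟩ := WA.sets_of_main h
  exact ⟨C, fun t m n S h1 h2 _ => h t m n S h1 h2⟩

end Pool.Agent.H320R2.LD
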