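import Pool.Agent.H320R2.LD.Defs
import Pool.Agent.H320R2.LD.WA

/-!
# The Beck-Fiala corollary of `St_MAIN`
-/

set_option autoImplicit false

open Finset

namespace Pool.Agent.H320R2.LD

/-- Beck-Fiala for set systems whose sets have at most `k` elements -/
theorem beckFiala_sparse (h : St_MAIN) :
    ∃ C : ℝ, 0 < C ∧ ∀ (n m k : ℕ) (S : Fin m → Finset (Fin n)),
      (∀ j, (S j).card ≤ k) →
      (∀ i : Fin n, (Finset.univ.filter (fun j : Fin m => i ∈ S j)).card ≤ k) →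
      ∃ χ : Fin n → ℤ, (∀ i, χ i = 1 ∨ χ i = -1) ∧
        ∀ j : Fin m, ((|∑ i ∈ S j, χ i| : ℤ) : ℝ) ≤ C * Real.sqrt k := by
  obtain ⟨C, hC, h⟩ := WA.sets_of_main h
  refine ⟨C, hC, fun n m k S h1 h2 => ?_⟩
  obtain ⟨x, hx1, hx2⟩ := h k m n S h1 h2
  refine ⟨x, hx1, fun j => ?_⟩
  have := hx2 j
  push_cast
  exact this

end Pool.Agent.H320R2.LD
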