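import Pool.Agent.H320R2.LD.Defs

/-!
# The Komlos corollary of `St_MAIN`
-/

set_option autoImplicit false

open Finset

namespace Pool.Agent.H320R2.LD

open Classical in
/-- the Komlos conjecture for matrices with rows and columns of norm at most one, entries at most
`ε` and at most `ε⁻³` nonzero entries in every row and column -/
theorem komlos_sparse (h : St_MAIN) :
    ∃ C : ℝ, 0 < C ∧ ∀ ε : ℝ, 0 < ε → ε ≤ 1 →
      ∀ (d n : ℕ) (v : Fin n → EuclideanSpace ℝ (Fin d)),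
      (∀ i, ‖v i‖ ≤ 1) → (∀ k, ∑ i, (v i k) ^ 2 ≤ 1) → (∀ i k, |v i k| ≤ ε) →
      (∀ k, ((Finset.univ.filter (fun i => v i k ≠ 0)).card : ℝ) ≤ ε ^ (-3 : ℤ)) →
      (∀ i, ((Finset.univ.filter (fun k => v i k ≠ 0)).card : ℝ) ≤ ε ^ (-3 : ℤ)) →
      ∃ x : Fin n → ℝ, (∀ i, x i = 1 ∨ x i = -1) ∧ ∀ k, |∑ i, x i * v i k| ≤ C := by
  obtain ⟨C, hC, h⟩ := h
  refine ⟨C, hC, fun ε hε hε1 d n v h1 h2 h3 h4 h5 => ?_⟩
  have ht : (1 : ℝ) ≤ (ε ^ 2)⁻¹ := by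
    rw [one_le_inv₀ (by positivity)]
    nlinarith
  have ht32 : ((ε ^ 2)⁻¹) ^ (3/2 : ℝ) = ε ^ (-3 : ℤ) := by
    rw [← Real.rpow_natCast, ← Real.rpow_neg hε.le, ← Real.rpow_mul hε.le, ← Real.rpow_intCast]
    norm_num
  obtain ⟨x, hx1, hx2⟩ := h ((ε ^ 2)⁻¹) ht (Fin n) (Fin d) (fun k i => v i k) (by
    refine ⟨fun R i => ?_, fun R => h2 R, fun i => ?_, fun R => ?_, fun i => ?_⟩
    · have h6 : (v i R) ^ 2 ≤ ε ^ 2 := by
        rw [← sq_abs]
        exact pow_le_pow_left₀ (abs_nonneg _) (h3 i R) 2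
      calc (v i R) ^ 2 * (ε ^ 2)⁻¹ ≤ ε ^ 2 * (ε ^ 2)⁻¹ :=
            mul_le_mul_of_nonneg_right h6 (by positivity)
        _ = 1 := mul_inv_cancel₀ (by positivity)
    · have h6 := h1 i
      have h7 : ‖v i‖ ^ 2 = ∑ k, (v i k) ^ 2 := by
        rw [EuclideanSpace.norm_sq_eq]
        exact Finset.sum_congr rfl fun k _ => by rw [Real.norm_eq_abs, sq_abs]
      rw [← h7]
      exact pow_le_one₀ (norm_nonneg _) h6
    · rw [ht32]
      convert h4 R using 3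
    · rw [ht32]
      convert h5 i using 3)
  refine ⟨x, hx1, fun k => ?_⟩
  have := hx2 k
  rw [Finset.sum_congr rfl fun i _ => mul_comm (x i) (v i k)]
  exact this

end Pool.Agent.H320R2.LD
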